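import Pool.Agent.K1H51.ZL.Box

set_option autoImplicit false

/-!
The multilinear inequality with mean square norms.
-/

namespace Pool.Agent.K1H51.ZL

open Finset MeasureTheory

lemma cv {K d : ℕ} {A : Fin K → Fin d → ℝ} (σ : Fin d → Fin K)
    (hli : LinearIndependent ℝ (fun s => A (σ s))) : ∃ C : ℝ, 0 ≤ C ∧ ∀ (α β : ℝ) (g : Fin d → ℝ → ℝ),
      (∀ s, Continuous (g s)) → (∀ s u, 0 ≤ g s u) → ∀ D : Set (Fin d → ℝ), MeasurableSet D →
      (∀ x ∈ D, ∀ s, Lf A (σ s) x ∈ Set.Icc α β) →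
      ∫ x in D, ∏ s, g s (Lf A (σ s) x) ≤ C * ∏ s, ∫ u in Set.Icc α β, g s u := by
  classical
  set M : Matrix (Fin d) (Fin d) ℝ := Matrix.of fun s i => A (σ s) i with hM
  have hdet : M.det ≠ 0 := by
    have h1 : IsUnit M := by
      rw [← Matrix.linearIndependent_rows_iff_isUnit]
      exact hli
    rw [Matrix.isUnit_iff_isUnit_det] at h1
    exact h1.ne_zero
  have hmap := Real.map_matrix_volume_pi_eq_smul_volume_pi hdet
  have hΦ : ∀ x s, (Matrix.toLin' M x) s = Lf A (σ s) x := by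
    intro x s
    rw [Matrix.toLin'_apply]
    unfold Lf Matrix.mulVec dotProduct
    rfl
  have hmeas : Measurable (Matrix.toLin' M) := (LinearMap.continuous_on_pi _).measurable
  refine ⟨|(M.det)⁻¹|, abs_nonneg _, fun α β g hg hg0 D hD hDL => ?_⟩
  set G : (Fin d → ℝ) → ℝ := fun y => ∏ s, (Set.Icc α β).indicator (g s) (y s) with hG
  have hGi : Integrable G volume := by
    rw [hG, volume_pi]
    apply MeasureTheory.Integrable.fintype_prod (f := fun s => (Set.Icc α β).indicator (g s))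
    intro s
    rw [integrable_indicator_iff measurableSet_Icc]
    exact (hg s).continuousOn.integrableOn_compact isCompact_Icc
  have hG0 : ∀ y, 0 ≤ G y := fun y => prod_nonneg fun s _ => Set.indicator_nonneg (fun u _ => hg0 s u) _
  have hGm : AEStronglyMeasurable G (Measure.map (Matrix.toLin' M) volume) := by
    rw [hmap]
    exact hGi.aestronglyMeasurable.smul_measure _
  have hGΦ : Integrable (fun x => G (Matrix.toLin' M x)) volume := by
    have h2 : Integrable G (Measure.map (Matrix.toLin' M) volume) := by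
      rw [hmap]
      exact hGi.smul_measure ENNReal.ofReal_ne_top
    exact (integrable_map_measure hGm hmeas.aemeasurable).1 h2
  have e1 : ∫ x, G (Matrix.toLin' M x) = |(M.det)⁻¹| * ∏ s, ∫ u in Set.Icc α β, g s u := by
    rw [← integral_map hmeas.aemeasurable hGm, hmap, integral_smul_measure,
      ENNReal.toReal_ofReal (abs_nonneg _), smul_eq_mul]
    congr 1
    rw [hG, volume_pi, integral_fintype_prod_eq_prod (fun s => (Set.Icc α β).indicator (g s))]
    exact prod_congr rfl fun s _ => integral_indicator measurableSet_Icc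
  rw [← e1]
  calc ∫ x in D, ∏ s, g s (Lf A (σ s) x) = ∫ x in D, G (Matrix.toLin' M x) := by
        apply setIntegral_congr_fun hD
        intro x hx
        simp only [hG]
        refine prod_congr rfl fun s _ => ?_
        rw [hΦ, Set.indicator_of_mem (hDL x hx s)]
    _ ≤ ∫ x, G (Matrix.toLin' M x) := setIntegral_le_integral hGΦ (Filter.Eventually.of_forall fun x => hG0 _)

lemma cvS {K d : ℕ} {A : Fin K → Fin d → ℝ} (hA : GenPos A) : ∃ C : ℝ, 1 ≤ C ∧
    ∀ S : Finset (Fin K), S.card = d → ∀ (α β : ℝ) (g : Fin K → ℝ → ℝ),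
      (∀ s, Continuous (g s)) → (∀ s u, 0 ≤ g s u) → ∀ D : Set (Fin d → ℝ), MeasurableSet D →
      (∀ x ∈ D, ∀ j, Lf A j x ∈ Set.Icc α β) →
      ∫ x in D, ∏ j ∈ S, g j (Lf A j x) ≤ C * ∏ j ∈ S, ∫ u in Set.Icc α β, g j u := by
  classical
  have h1 : ∀ S : Finset (Fin K), ∃ C : ℝ, 0 ≤ C ∧ (S.card = d → ∀ (α β : ℝ) (g : Fin K → ℝ → ℝ),
      (∀ s, Continuous (g s)) → (∀ s u, 0 ≤ g s u) → ∀ D : Set (Fin d → ℝ), MeasurableSet D →
      (∀ x ∈ D, ∀ j, Lf A j x ∈ Set.Icc α β) →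
      ∫ x in D, ∏ j ∈ S, g j (Lf A j x) ≤ C * ∏ j ∈ S, ∫ u in Set.Icc α β, g j u) := by
    intro S
    by_cases hS : S.card = d
    · set e := S.equivFinOfCardEq hS with he
      have hli : LinearIndependent ℝ (fun s : Fin d => A (e.symm s : Fin K)) :=
        (hA S hS).comp (fun s => e.symm s) e.symm.injective
      obtain ⟨C, hC, h⟩ := cv (A := A) (fun s => (e.symm s : Fin K)) hli
      refine ⟨C, hC, fun _ α β g hg hg0 D hD hDL => ?_⟩
      have h2 := h α β (fun s => g (e.symm s)) (fun s => hg _) (fun s u => hg0 _ u) D hD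
        (fun x hx s => hDL x hx _)
      have e1 : ∀ f : Fin K → ℝ, ∏ s : Fin d, f (e.symm s) = ∏ j ∈ S, f j := by
        intro f
        rw [← prod_coe_sort S f]
        exact e.symm.prod_comp (fun j : S => f j)
      have e2 : ∀ x, ∏ s : Fin d, g (e.symm s) (Lf A (e.symm s) x) = ∏ j ∈ S, g j (Lf A j x) := fun x =>
        e1 (fun j => g j (Lf A j x))
      simp_rw [e2] at h2
      rw [e1 (fun j => ∫ u in Set.Icc α β, g j u)] at h2
      exact h2
    · exact ⟨0, le_refl _, fun h => absurd h hS⟩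
  choose C hC0 hC using h1
  refine ⟨1 + ∑ S, C S, ?_, fun S hS α β g hg hg0 D hD hDL => ?_⟩
  · have : 0 ≤ ∑ S, C S := sum_nonneg fun S _ => hC0 S
    linarith
  · refine (hC S hS α β g hg hg0 D hD hDL).trans ?_
    apply mul_le_mul_of_nonneg_right
    · have : C S ≤ ∑ S, C S := single_le_sum (f := C) (fun S _ => hC0 S) (mem_univ S)
      linarith
    · exact prod_nonneg fun j _ => integral_nonneg fun u => hg0 j u

/-- the multilinear inequality -/
theorem l2 {K d : ℕ} (hd : 1 ≤ d) (hK : d ≤ K) (hK2 : K ≤ 2 * d) {A : Fin K → Fin d → ℝ}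
    (hA : GenPos A) (c₁ c : ℝ) (hc₁ : 0 ≤ c₁) (hcc₁ : c₁ ≤ c) (hc : 1 ≤ c) : ∃ C : ℝ, 1 ≤ C ∧
    ∀ (T R r : ℝ) (f : Fin K → ℝ → ℝ) (j₀ : Fin K), 1 ≤ T → 1 ≤ R → 0 < r → r ≤ 1 →
      (∀ s, Continuous (f s)) → (∀ s u, 0 ≤ f s u) →
      (∀ j, ∫ u in Set.Icc (c₁ * T) (c * T), f j u ^ 2 ≤ T * R) → ∫ u in Set.Icc (c₁ * T) (c * T), f j₀ u ^ 2 ≤ T * r →
      ∀ y s : Fin d → ℝ, (∀ x ∈ bxc y s, ∀ j, Lf A j x ∈ Set.Icc (c₁ * T) (c * T)) →
      ∫ x in bxc y s, ∏ j, f j (Lf A j x) ≤ C * (T ^ d * R ^ K * √r) := by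
  classical
  obtain ⟨C0, hC0, hcv⟩ := cvS hA
  refine ⟨C0 + C0 * c ^ (2 * d), ?_, ?_⟩
  · have : 0 ≤ C0 * c ^ (2 * d) := by positivity
    linarith
  intro T R r f j₀ hT hR hr hr1 hf hf0 hfR hfr y s hL
  have hT0 : 0 < T := by linarith
  have hR0 : 0 < R := by linarith
  -- the two sets
  obtain ⟨S1, hS1a, hS1b⟩ : ∃ S1 : Finset (Fin K), j₀ ∈ S1 ∧ S1.card = d := by
    obtain ⟨S1, ha, -, hb⟩ := exists_subsuperset_card_eq (s := {j₀}) (t := (univ : Finset (Fin K))) (n := d)
      (subset_univ _) (by rw [card_singleton]; exact hd) (by rw [card_univ, Fintype.card_fin]; exact hK)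
    exact ⟨S1, ha (mem_singleton_self _), hb⟩
  have hcc : (univ \ S1).card = K - d := by
    rw [card_sdiff_of_subset (subset_univ _), card_univ, Fintype.card_fin, hS1b]
  obtain ⟨S2, hS2a, hS2b⟩ : ∃ S2 : Finset (Fin K), univ \ S1 ⊆ S2 ∧ S2.card = d := by
    obtain ⟨S2, ha, -, hb⟩ := exists_subsuperset_card_eq (s := univ \ S1) (t := (univ : Finset (Fin K))) (n := d)
      (subset_univ _) (by rw [hcc]; omega) (by rw [card_univ, Fintype.card_fin]; exact hK)
    exact ⟨S2, ha, hb⟩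
  set D := bxc y s with hD
  have hDm : MeasurableSet D := bxc_meas y s
  have hDi : ∀ h : (Fin d → ℝ) → ℝ, Continuous h → IntegrableOn h D := by
    intro h hh
    have h1 : IntegrableOn h (Set.Icc y (fun i => y i + s i)) := hh.continuousOn.integrableOn_compact isCompact_Icc
    refine h1.mono_set ?_
    intro x hx
    rw [hD] at hx
    have h2 : ∀ i, x i ∈ Set.Ioc (y i) (y i + s i) := fun i => hx i (Set.mem_univ _)
    exact ⟨fun i => (h2 i).1.le, fun i => (h2 i).2⟩
  set g1 : Fin K → ℝ → ℝ := fun j u => f j u ^ 2 with hg1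
  set g2 : Fin K → ℝ → ℝ := fun j u => if j ∈ univ \ S1 then f j u ^ 2 else 1 with hg2
  have hg1c : ∀ j, Continuous (g1 j) := fun j => (hf j).pow 2
  have hg2c : ∀ j, Continuous (g2 j) := by
    intro j
    simp only [hg2]
    split_ifs
    · exact (hf j).pow 2
    · exact continuous_const
  have hg10 : ∀ j u, 0 ≤ g1 j u := fun j u => sq_nonneg _
  have hg20 : ∀ j u, 0 ≤ g2 j u := by
    intro j u
    simp only [hg2]
    split_ifs
    · exact sq_nonneg _
    · exact zero_le_one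
  have hLc : ∀ j, Continuous (Lf A j) := Lf_cont A
  have b1 := hcv S1 hS1b (c₁ * T) (c * T) g1 hg1c hg10 D hDm hL
  have b2 := hcv S2 hS2b (c₁ * T) (c * T) g2 hg2c hg20 D hDm hL
  have c1 : ∏ j ∈ S1, ∫ u in Set.Icc (c₁ * T) (c * T), g1 j u ≤ T ^ d * R ^ K * r := by
    rw [← mul_prod_erase S1 _ hS1a]
    have h2 : ∏ j ∈ S1.erase j₀, ∫ u in Set.Icc (c₁ * T) (c * T), g1 j u ≤ (T * R) ^ (d - 1) := by
      calc ∏ j ∈ S1.erase j₀, ∫ u in Set.Icc (c₁ * T) (c * T), g1 j u ≤ ∏ _j ∈ S1.erase j₀, T * R :=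
            prod_le_prod (fun j _ => integral_nonneg fun u => hg10 j u) fun j _ => hfR j
        _ = (T * R) ^ (d - 1) := by rw [prod_const, card_erase_of_mem hS1a, hS1b]
    have h3 : 0 ≤ ∏ j ∈ S1.erase j₀, ∫ u in Set.Icc (c₁ * T) (c * T), g1 j u :=
      prod_nonneg fun j _ => integral_nonneg fun u => hg10 j u
    calc _ ≤ (T * r) * (T * R) ^ (d - 1) := mul_le_mul hfr h2 h3 (by positivity)
      _ = T ^ (d - 1 + 1) * R ^ (d - 1) * r := by rw [mul_pow, pow_succ]; ring
      _ ≤ T ^ d * R ^ K * r := by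
          rw [Nat.sub_add_cancel hd]
          have : R ^ (d - 1) ≤ R ^ K := pow_le_pow_right₀ hR (by omega)
          gcongr
  have c2 : ∏ j ∈ S2, ∫ u in Set.Icc (c₁ * T) (c * T), g2 j u ≤ c ^ (2 * d) * (T ^ d * R ^ K) := by
    have h2 : ∀ j ∈ S2, ∫ u in Set.Icc (c₁ * T) (c * T), g2 j u ≤ (if j ∈ univ \ S1 then T * R else c * T) := by
      intro j _
      by_cases hj : j ∈ univ \ S1
      · simp only [hg2, if_pos hj]
        exact hfR j
      · simp only [hg2, if_neg hj]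
        rw [integral_const, measureReal_restrict_apply_univ, Real.volume_real_Icc_of_le (by gcongr)]
        simp only [smul_eq_mul, mul_one]
        have : 0 ≤ c₁ * T := by positivity
        linarith
    calc ∏ j ∈ S2, ∫ u in Set.Icc (c₁ * T) (c * T), g2 j u ≤ ∏ j ∈ S2, (if j ∈ univ \ S1 then T * R else c * T) :=
          prod_le_prod (fun j _ => integral_nonneg fun u => hg20 j u) h2
      _ ≤ ∏ j ∈ S2, (c * T * (if j ∈ univ \ S1 then R else 1)) := by
          apply prod_le_prod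
          · intro j _
            split_ifs <;> positivity
          · intro j _
            split_ifs
            · have : T * R ≤ c * (T * R) := by nlinarith [mul_pos hT0 hR0]
              linarith
            · linarith
      _ = (c * T) ^ d * ∏ j ∈ S2, (if j ∈ univ \ S1 then R else 1) := by
          rw [prod_mul_distrib, prod_const, hS2b]
      _ ≤ (c * T) ^ d * R ^ K := by
          apply mul_le_mul_of_nonneg_left _ (by positivity)
          calc ∏ j ∈ S2, (if j ∈ univ \ S1 then R else 1) ≤ ∏ _j ∈ S2, R := by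
                apply prod_le_prod
                · intro j _; split_ifs <;> linarith
                · intro j _; split_ifs <;> linarith
            _ = R ^ d := by rw [prod_const, hS2b]
            _ ≤ R ^ K := pow_le_pow_right₀ hR hK
      _ = c ^ d * (T ^ d * R ^ K) := by rw [mul_pow]; ring
      _ ≤ c ^ (2 * d) * (T ^ d * R ^ K) := by
          apply mul_le_mul_of_nonneg_right _ (by positivity)
          exact pow_le_pow_right₀ hc (by omega)
  have hsr : 0 < √r := Real.sqrt_pos.2 hr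
  have hsr2 : √r * √r = r := Real.mul_self_sqrt hr.le
  have key : ∀ x, ∏ j, f j (Lf A j x) ≤ ((√r)⁻¹ * ∏ j ∈ S1, g1 j (Lf A j x) + √r * ∏ j ∈ S2, g2 j (Lf A j x)) / 2 := by
    intro x
    set a := ∏ j ∈ S1, f j (Lf A j x) with ha
    set b := ∏ j ∈ univ \ S1, f j (Lf A j x) with hb
    have e1 : ∏ j, f j (Lf A j x) = a * b := by
      rw [ha, hb, mul_comm, prod_sdiff (subset_univ S1)]
    have e2 : ∏ j ∈ S1, g1 j (Lf A j x) = a ^ 2 := by
      rw [ha, ← prod_pow]
    have e3 : ∏ j ∈ S2, g2 j (Lf A j x) = b ^ 2 := by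
      rw [hb, ← prod_pow, ← prod_subset hS2a (f := fun j => g2 j (Lf A j x)) (fun j _ hj => by
        simp only [hg2, if_neg hj])]
      refine prod_congr rfl fun j hj => ?_
      simp only [hg2, if_pos hj]
    rw [e1, e2, e3, le_div_iff₀ (by norm_num)]
    have h4 : 0 ≤ (√r)⁻¹ * (a - √r * b) ^ 2 := by positivity
    have h5 : (√r)⁻¹ * (a - √r * b) ^ 2 = (√r)⁻¹ * a ^ 2 - 2 * ((√r)⁻¹ * √r) * (a * b) + ((√r)⁻¹ * √r) * √r * b ^ 2 := by
      ring
    rw [inv_mul_cancel₀ hsr.ne'] at h5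
    rw [h5] at h4
    linarith
  have hi1 : IntegrableOn (fun x => ∏ j ∈ S1, g1 j (Lf A j x)) D :=
    hDi _ (continuous_finsetProd _ fun j _ => (hg1c j).comp (hLc j))
  have hi2 : IntegrableOn (fun x => ∏ j ∈ S2, g2 j (Lf A j x)) D :=
    hDi _ (continuous_finsetProd _ fun j _ => (hg2c j).comp (hLc j))
  have hi3 : IntegrableOn (fun x => ∏ j, f j (Lf A j x)) D :=
    hDi _ (continuous_finsetProd _ fun j _ => (hf j).comp (hLc j))
  calc ∫ x in D, ∏ j, f j (Lf A j x)
      ≤ ∫ x in D, ((√r)⁻¹ * ∏ j ∈ S1, g1 j (Lf A j x) + √r * ∏ j ∈ S2, g2 j (Lf A j x)) / 2 := by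
        apply integral_mono hi3 (((hi1.const_mul _).add (hi2.const_mul _)).div_const _)
        intro x
        exact key x
    _ = ((√r)⁻¹ * (∫ x in D, ∏ j ∈ S1, g1 j (Lf A j x)) + √r * ∫ x in D, ∏ j ∈ S2, g2 j (Lf A j x)) / 2 := by
        rw [integral_div, integral_add (hi1.const_mul _) (hi2.const_mul _), integral_const_mul, integral_const_mul]
    _ ≤ ((√r)⁻¹ * (C0 * (T ^ d * R ^ K * r)) + √r * (C0 * (c ^ (2 * d) * (T ^ d * R ^ K)))) / 2 := by
        have d1 := b1.trans (mul_le_mul_of_nonneg_left c1 (by linarith))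
        have d2 := b2.trans (mul_le_mul_of_nonneg_left c2 (by linarith))
        gcongr
    _ = ((C0 + C0 * c ^ (2 * d)) * (T ^ d * R ^ K * √r)) / 2 := by
        have : (√r)⁻¹ * (C0 * (T ^ d * R ^ K * r)) = C0 * (T ^ d * R ^ K * √r) := by
          have h6 : (√r)⁻¹ * r = √r := by
            calc (√r)⁻¹ * r = (√r)⁻¹ * (√r * √r) := by rw [hsr2]
              _ = √r := by rw [← mul_assoc, inv_mul_cancel₀ hsr.ne', one_mul]
          calc (√r)⁻¹ * (C0 * (T ^ d * R ^ K * r)) = C0 * (T ^ d * R ^ K * ((√r)⁻¹ * r)) := by ring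
            _ = _ := by rw [h6]
        rw [this]; ring
    _ ≤ (C0 + C0 * c ^ (2 * d)) * (T ^ d * R ^ K * √r) := by
        have : 0 ≤ (C0 + C0 * c ^ (2 * d)) * (T ^ d * R ^ K * √r) := by positivity
        linarith

end Pool.Agent.K1H51.ZL
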