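import Pool.Agent.K1H51.ZL.Cnt

set_option autoImplicit false

/-!
The two counting estimates: large heights, and small heights with tiny linear combinations.
-/

namespace Pool.Agent.K1H51.ZL

open Finset
open Pool.Agent.Y969.GP (ht lam FR)
open Pool.Agent.Y379.GP (mem_FR sp1 harm)

/-- the kernel -/
noncomputable def kq {K d : ℕ} (A : Fin K → Fin d → ℝ) (δ : ℝ) (q : Fin K → ℕ × ℕ) : ℝ :=
  ∏ i, (1 + δ * |mq A q i|)⁻¹

lemma kq_nonneg {K d : ℕ} (A : Fin K → Fin d → ℝ) {δ : ℝ} (hδ : 0 ≤ δ) (q : Fin K → ℕ × ℕ) :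
    0 ≤ kq A δ q := prod_nonneg fun i _ => by positivity

lemma inv_floor {x : ℝ} : (1 + |x|)⁻¹ ≤ 2 * (1 + |((⌊x⌋ : ℤ) : ℝ)|)⁻¹ := by
  have h1 : |((⌊x⌋ : ℤ) : ℝ)| ≤ |x| + 1 := by
    have a := Int.floor_le x
    have b := Int.lt_floor_add_one x
    rw [abs_le]
    constructor
    · have := neg_abs_le x
      linarith
    · have := le_abs_self x
      linarith
  rw [← div_eq_mul_inv, inv_eq_one_div, div_le_div_iff₀ (by positivity) (by positivity)]
  have := abs_nonneg x
  linarith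

/-- one row -/
lemma row {K d : ℕ} (hK : d ≤ K) {A : Fin K → Fin d → ℝ} (hA : GenPos A) : ∃ C : ℝ, 1 ≤ C ∧
    ∀ (T δ : ℝ) (X : ℕ), 3 ≤ T → 1 ≤ X → (X : ℝ) ≤ T ^ 2 → 1 ≤ δ → δ ≤ T →
    ∀ F : Finset (Fin K), F.card = K - d → ∀ g : Fin K → ℕ × ℕ,
      ∑ q ∈ (PFX K X).filter (fun q => rF F q = g), kq A δ q ≤
        (C * ((1 + X / δ) * Real.log T ^ 2)) ^ d := by
  classical
  obtain ⟨Ci, hCi, hinj⟩ := inj hA
  obtain ⟨Ca, hCa, habs⟩ := mu_abs A
  obtain ⟨Cs, hCs, hshort⟩ := short_card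
  refine ⟨(1 + Ci) * (Cs * 3) * (4 * (5 + Real.log Ca)), ?_, ?_⟩
  · have h1 : 0 ≤ Real.log Ca := Real.log_nonneg hCa
    have h2 : 1 ≤ (1 + Ci) * (Cs * 3) := by nlinarith
    nlinarith
  intro T δ X hT hX hXT hδ hδT F hF g
  have hT0 : 0 < T := by linarith
  have hδ0 : 0 < δ := by linarith
  have hX1 : (1 : ℝ) ≤ X := by exact_mod_cast hX
  have hlX : 0 ≤ Real.log X := Real.log_nonneg hX1
  have hL1 : 1 ≤ Real.log T := by
    rw [Real.le_log_iff_exp_le hT0]
    linarith [Real.exp_one_lt_d9]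
  have hlX2 : Real.log X ≤ 2 * Real.log T := by
    have := Real.log_le_log (by linarith) hXT
    rwa [Real.log_pow] at this
  set L := Real.log T with hL
  set R : ℕ := ⌈δ * (Ca * Real.log X)⌉₊ + 1 with hR
  set Q := (PFX K X).filter (fun q => rF F q = g) with hQ
  set κ : (Fin K → ℕ × ℕ) → (Fin d → ℤ) := fun q i => ⌊δ * mq A q i⌋ with hκ
  set S : Fin d → Finset ℤ := fun _ => Icc (-(R : ℤ)) R with hS
  have hmq : ∀ q ∈ PFX K X, ∀ i, |mq A q i| ≤ Ca * Real.log X := by
    intro q hq i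
    exact habs _ _ (fun j => lam_le (mem_PFX.1 hq j)) hlX i
  have hmaps : ∀ q ∈ Q, κ q ∈ Fintype.piFinset S := by
    intro q hq
    rw [Fintype.mem_piFinset]
    intro i
    simp only [hS, hκ, mem_Icc]
    have h1 := hmq q (mem_filter.1 hq).1 i
    rw [abs_le] at h1
    have h2 : δ * mq A q i ≤ δ * (Ca * Real.log X) := by nlinarith
    have h3 : -(δ * (Ca * Real.log X)) ≤ δ * mq A q i := by nlinarith
    have h4 : δ * (Ca * Real.log X) ≤ (⌈δ * (Ca * Real.log X)⌉₊ : ℝ) := Nat.le_ceil _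
    constructor
    · rw [Int.le_floor]
      push_cast [hR]
      linarith
    · have h5 : (⌊δ * mq A q i⌋ : ℝ) ≤ (R : ℝ) := by
        refine (Int.floor_le _).trans ?_
        push_cast [hR]
        linarith
      exact_mod_cast h5
  rw [← sum_fiberwise_of_maps_to hmaps]
  set B : ℝ := (1 + Ci) * (Cs * ((1 + X / δ) * (1 + Real.log X))) with hB
  have hB1 : 1 ≤ B := by
    have a1 : 1 ≤ (1 + X / δ) * (1 + Real.log X) := by
      have : 0 ≤ (X : ℝ) / δ := by positivity
      nlinarith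
    have a2 : 1 ≤ Cs * ((1 + X / δ) * (1 + Real.log X)) := by nlinarith
    nlinarith
  have hB0 : 0 ≤ B := by linarith
  have hfib : ∀ k : Fin d → ℤ, ((Q.filter (fun q => κ q = k)).card : ℝ) ≤ B ^ d := by
    intro k
    rcases (Q.filter (fun q => κ q = k)).eq_empty_or_nonempty with hE | ⟨q0, hq0⟩
    · rw [hE, card_empty]
      simp only [Nat.cast_zero]
      exact pow_nonneg hB0 _
    have hq0Q := (mem_filter.1 hq0).1
    have hq0r : rF F q0 = g := (mem_filter.1 hq0Q).2
    have hq0k := (mem_filter.1 hq0).2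
    set W : Fin K → Finset (ℕ × ℕ) := fun j => if j ∈ F then {q0 j} else
      (FR X).filter (fun p => |lam p - lam (q0 j)| ≤ Ci / δ) with hW
    have hsub : Q.filter (fun q => κ q = k) ⊆ Fintype.piFinset W := by
      intro q hq
      have hqQ := (mem_filter.1 hq).1
      have hqr : rF F q = g := (mem_filter.1 hqQ).2
      have hqk := (mem_filter.1 hq).2
      rw [Fintype.mem_piFinset]
      intro j
      simp only [hW]
      split_ifs with hj
      · have := congrFun (hqr.trans hq0r.symm) j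
        simp only [rF, if_pos hj] at this
        rw [mem_singleton]
        exact this
      · rw [mem_filter]
        refine ⟨mem_PFX.1 (mem_filter.1 hqQ).1 j, ?_⟩
        have h1 : ∀ i, |mq A q i - mq A q0 i| ≤ 1 / δ := by
          intro i
          have e1 : ⌊δ * mq A q i⌋ = ⌊δ * mq A q0 i⌋ := by
            have a := congrFun hqk i
            have b := congrFun hq0k i
            simp only [hκ] at a b
            rw [a, b]
          have a := Int.floor_le (δ * mq A q i)
          have b := Int.lt_floor_add_one (δ * mq A q i)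
          have c := Int.floor_le (δ * mq A q0 i)
          have d' := Int.lt_floor_add_one (δ * mq A q0 i)
          rw [e1] at a b
          rw [abs_le, le_div_iff₀ hδ0, ← neg_div, div_le_iff₀ hδ0]
          constructor <;> linarith
        have h2 := lam_close hinj hK F hF (hqr.trans hq0r.symm) (m := 1 / δ) (by positivity) h1 j
        rwa [mul_one_div] at h2
    have hc1 : (Fintype.piFinset W).card = ∏ j, (W j).card := Fintype.card_piFinset W
    calc ((Q.filter (fun q => κ q = k)).card : ℝ) ≤ ((Fintype.piFinset W).card : ℝ) := by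
          exact_mod_cast card_le_card hsub
      _ = ∏ j, ((W j).card : ℝ) := by rw [hc1]; push_cast; rfl
      _ ≤ ∏ j, (if j ∈ univ \ F then B else 1) := by
          apply prod_le_prod
          · intro j _; positivity
          · intro j _
            by_cases hj : j ∈ F
            · have hn : j ∉ univ \ F := fun h => (mem_sdiff.1 h).2 hj
              simp only [hW, if_pos hj, card_singleton, if_neg hn]
              norm_num
            · have hn : j ∈ univ \ F := mem_sdiff.2 ⟨mem_univ _, hj⟩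
              simp only [hW, if_neg hj, if_pos hn]
              exact hshort X δ Ci (lam (q0 j)) hX hδ (by linarith)
      _ = B ^ d := by
          rw [prod_ite_mem, univ_inter, prod_const, card_sdiff_of_subset (subset_univ _), card_univ,
            Fintype.card_fin, hF]
          congr 1
          omega
  have hterm : ∀ k ∈ Fintype.piFinset S, ∑ q ∈ Q.filter (fun q => κ q = k), kq A δ q ≤
      B ^ d * ∏ i, (2 * (1 + |(k i : ℝ)|)⁻¹) := by
    intro k _
    calc ∑ q ∈ Q.filter (fun q => κ q = k), kq A δ q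
        ≤ ∑ _q ∈ Q.filter (fun q => κ q = k), ∏ i, (2 * (1 + |(k i : ℝ)|)⁻¹) := by
          refine sum_le_sum fun q hq => ?_
          have hqk := (mem_filter.1 hq).2
          unfold kq
          apply prod_le_prod
          · intro i _; positivity
          · intro i _
            have := inv_floor (x := δ * mq A q i)
            rw [abs_mul, abs_of_pos hδ0] at this
            have e := congrFun hqk i
            simp only [hκ] at e
            rw [e] at this
            exact this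
      _ = ((Q.filter (fun q => κ q = k)).card : ℝ) * ∏ i, (2 * (1 + |(k i : ℝ)|)⁻¹) := by
          rw [sum_const, nsmul_eq_mul]
      _ ≤ _ := by
          apply mul_le_mul_of_nonneg_right (hfib k)
          exact prod_nonneg fun i _ => by positivity
  refine (sum_le_sum hterm).trans ?_
  rw [← mul_sum, ← prod_univ_sum S (fun _ k => 2 * (1 + |(k : ℝ)|)⁻¹)]
  simp only [hS, prod_const, card_univ, Fintype.card_fin]
  rw [← mul_sum, ← mul_pow]
  apply pow_le_pow_left₀ (by positivity)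
  have hsum := sum_Icc_inv R
  have hR1 : Real.log (R + 1) ≤ (4 + Real.log Ca) * L := by
    have hCL : 0 ≤ Real.log Ca := Real.log_nonneg hCa
    have a1 : (R : ℝ) ≤ δ * (Ca * Real.log X) + 2 := by
      have := Nat.ceil_lt_add_one (a := δ * (Ca * Real.log X)) (by positivity)
      push_cast [hR]
      linarith
    have a2 : δ * (Ca * Real.log X) ≤ T * (Ca * (2 * L)) := by
      apply mul_le_mul hδT _ (by positivity) hT0.le
      apply mul_le_mul_of_nonneg_left hlX2 (by linarith)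
    have a3 : L ≤ T := (Real.log_le_sub_one_of_pos hT0).trans (by linarith)
    have a4 : (R : ℝ) + 1 ≤ Ca * T ^ 4 := by
      have b1 : T * (Ca * (2 * L)) ≤ Ca * (2 * T ^ 2) := by
        have : T * (Ca * (2 * L)) = Ca * (2 * (T * L)) := by ring
        rw [this]
        have : T * L ≤ T ^ 2 := by nlinarith
        nlinarith
      have b2 : Ca * (2 * T ^ 2) + 3 ≤ Ca * T ^ 4 := by
        have c1 : (9:ℝ) ≤ T ^ 2 := by nlinarith
        have c2 : 2 * T ^ 2 + 3 ≤ T ^ 4 := by nlinarith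
        nlinarith
      linarith
    calc Real.log (R + 1) ≤ Real.log (Ca * T ^ 4) := Real.log_le_log (by positivity) a4
      _ = Real.log Ca + 4 * L := by
          rw [Real.log_mul (by positivity) (by positivity), Real.log_pow]
          norm_num [hL]
      _ ≤ (4 + Real.log Ca) * L := by nlinarith
  have hfin1 : 2 * ∑ k ∈ Icc (-(R : ℤ)) R, (1 + |(k : ℝ)|)⁻¹ ≤ 4 * (5 + Real.log Ca) * L := by
    calc 2 * ∑ k ∈ Icc (-(R : ℤ)) R, (1 + |(k : ℝ)|)⁻¹ ≤ 2 * (2 * (1 + Real.log (R + 1))) := by gcongr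
      _ ≤ 2 * (2 * (L + (4 + Real.log Ca) * L)) := by gcongr
      _ = 4 * (5 + Real.log Ca) * L := by ring
  have hBle : B ≤ (1 + Ci) * (Cs * 3) * ((1 + X / δ) * L) := by
    have : 1 + Real.log X ≤ 3 * L := by linarith
    calc B ≤ (1 + Ci) * (Cs * ((1 + X / δ) * (3 * L))) := by
          rw [hB]; gcongr
      _ = _ := by ring
  calc B * (2 * ∑ k ∈ Icc (-(R : ℤ)) R, (1 + |(k : ℝ)|)⁻¹)
      ≤ ((1 + Ci) * (Cs * 3) * ((1 + X / δ) * L)) * (4 * (5 + Real.log Ca) * L) := by
        apply mul_le_mul hBle hfin1 _ (by positivity)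
        apply mul_nonneg (by norm_num)
        exact sum_nonneg fun k _ => by positivity
    _ = _ := by ring

/-- the sum of the reciprocals of the heights -/
lemma sum_ht_inv (X : ℕ) : ∑ p ∈ FR X, (ht p)⁻¹ ≤ (1 + Real.log X) ^ 2 := by
  have hsub : FR X ⊆ Icc 1 X ×ˢ Icc 1 X := by
    intro p hp
    obtain ⟨h1, h2, -, -, h3, h4⟩ := mem_FR hp
    rw [mem_product, mem_Icc, mem_Icc]
    exact ⟨⟨h1, h3⟩, ⟨h2, h4⟩⟩
  calc ∑ p ∈ FR X, (ht p)⁻¹ ≤ ∑ p ∈ Icc 1 X ×ˢ Icc 1 X, (ht p)⁻¹ := by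
        apply sum_le_sum_of_subset_of_nonneg hsub
        intro p _ _
        unfold ht
        positivity
    _ = (∑ a ∈ Icc 1 X, 1 / (a : ℝ)) * ∑ b ∈ Icc 1 X, 1 / (b : ℝ) := by
        rw [sum_mul_sum, sum_product]
        refine sum_congr rfl fun a _ => sum_congr rfl fun b _ => ?_
        unfold ht
        simp only
        rw [mul_inv, one_div, one_div]
    _ ≤ (1 + Real.log X) * (1 + Real.log X) := by
        have h := harm X
        have h0 : 0 ≤ ∑ a ∈ Icc 1 X, 1 / (a : ℝ) := sum_nonneg fun a _ => by positivity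
        exact mul_le_mul h h h0 (h0.trans h)
    _ = _ := by ring

/-- large heights -/
lemma high {K d : ℕ} (hd : 1 ≤ d) (hK : d ≤ K) (hK2 : K + 1 ≤ 2 * d) {A : Fin K → Fin d → ℝ}
    (hA : GenPos A) : ∃ C : ℝ, 1 ≤ C ∧
    ∀ (T δ Z : ℝ) (X : ℕ), 3 ≤ T → 1 ≤ X → (X : ℝ) ≤ T ^ 2 → 1 ≤ δ → δ ≤ T → 1 ≤ Z →
      ∑ q ∈ (PFX K X).filter (fun q => ∃ j, Z ≤ ht (q j)), wq q * kq A δ q ≤
        C * (√Z)⁻¹ * ((1 + X / δ) ^ d * Real.log T ^ (2 * K)) := by
  classical
  obtain ⟨Cr, hCr, hrow⟩ := row hK hA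
  refine ⟨2 ^ K * (Cr ^ d * 9 ^ (K - d)), ?_, ?_⟩
  · have h1 : (1 : ℝ) ≤ 2 ^ K := one_le_pow₀ (by norm_num)
    have h2 : (1 : ℝ) ≤ Cr ^ d := one_le_pow₀ hCr
    have h3 : (1 : ℝ) ≤ 9 ^ (K - d) := one_le_pow₀ (by norm_num)
    nlinarith [mul_le_mul h2 h3 (by norm_num) (by positivity)]
  intro T δ Z X hT hX hXT hδ hδT hZ
  have hT0 : 0 < T := by linarith
  have hδ0 : 0 < δ := by linarith
  have hX1 : (1 : ℝ) ≤ X := by exact_mod_cast hX
  have hlX : 0 ≤ Real.log X := Real.log_nonneg hX1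
  have hL1 : 1 ≤ Real.log T := by
    rw [Real.le_log_iff_exp_le hT0]
    linarith [Real.exp_one_lt_d9]
  have hlX2 : Real.log X ≤ 2 * Real.log T := by
    have := Real.log_le_log (by linarith) hXT
    rwa [Real.log_pow] at this
  set L := Real.log T with hL
  set Q := (PFX K X).filter (fun q => ∃ j, Z ≤ ht (q j)) with hQ
  have hZ0 : 0 < √Z := Real.sqrt_pos.2 (by linarith)
  set P := powersetCard (K - d) (univ : Finset (Fin K)) with hP
  -- every tuple is in the class of some `F`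
  have h1 : ∀ q ∈ Q, wq q * kq A δ q ≤ ∑ F ∈ P, (∏ j ∈ F, (ht (q j))⁻¹) * ((√Z)⁻¹ * kq A δ q) := by
    intro q hq
    obtain ⟨hq1, j1, hj1⟩ := mem_filter.1 hq
    obtain ⟨F, hF, hFm⟩ := exists_small (fun j => ht (q j)) (K - d) (by omega)
    have h2 := wq_le hd hK hK2 hq1 F hF hFm j1
    have h3 : (√(ht (q j1)))⁻¹ ≤ (√Z)⁻¹ := by
      apply inv_anti₀ hZ0
      exact Real.sqrt_le_sqrt hj1
    have h4 : ∀ G : Finset (Fin K), 0 ≤ ∏ j ∈ G, (ht (q j))⁻¹ := fun G => prod_nonneg fun j _ =>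
      inv_nonneg.2 (by linarith [ht_ge (mem_PFX.1 hq1 j)])
    have h5 := kq_nonneg A hδ0.le q
    calc wq q * kq A δ q ≤ ((∏ j ∈ F, (ht (q j))⁻¹) * (√Z)⁻¹) * kq A δ q := by
          apply mul_le_mul_of_nonneg_right _ h5
          exact h2.trans (mul_le_mul_of_nonneg_left h3 (h4 F))
      _ = (∏ j ∈ F, (ht (q j))⁻¹) * ((√Z)⁻¹ * kq A δ q) := by ring
      _ ≤ _ := by
          apply single_le_sum (f := fun F => (∏ j ∈ F, (ht (q j))⁻¹) * ((√Z)⁻¹ * kq A δ q))
          · intro G _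
            exact mul_nonneg (h4 G) (by positivity)
          · rw [hP, mem_powersetCard]
            exact ⟨subset_univ _, hF⟩
  refine (sum_le_sum h1).trans ?_
  rw [sum_comm]
  have h2 : ∀ F ∈ P, ∑ q ∈ Q, (∏ j ∈ F, (ht (q j))⁻¹) * ((√Z)⁻¹ * kq A δ q) ≤
      ((√Z)⁻¹ * (Cr * ((1 + X / δ) * L ^ 2)) ^ d) * ((3 * L) ^ 2) ^ (K - d) := by
    intro F hF
    rw [hP, mem_powersetCard] at hF
    have h3 := glue_sum F Q (filter_subset _ _) (fun p => (ht p)⁻¹) (fun p hp => by
      exact inv_nonneg.2 (by linarith [ht_ge hp])) (fun q => (√Z)⁻¹ * kq A δ q)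
      ((√Z)⁻¹ * (Cr * ((1 + X / δ) * L ^ 2)) ^ d) (fun g => by
        rw [← mul_sum]
        apply mul_le_mul_of_nonneg_left _ (by positivity)
        refine le_trans ?_ (hrow T δ X hT hX hXT hδ hδT F hF.2 g)
        apply sum_le_sum_of_subset_of_nonneg
        · exact filter_subset_filter _ (filter_subset _ _)
        · intro q _ _
          exact kq_nonneg A hδ0.le q)
    refine h3.trans ?_
    rw [hF.2]
    apply mul_le_mul_of_nonneg_left _ (by positivity)
    apply pow_le_pow_left₀ (sum_nonneg fun p hp => inv_nonneg.2 (by linarith [ht_ge hp]))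
    refine (sum_ht_inv X).trans ?_
    apply pow_le_pow_left₀ (by linarith)
    linarith
  refine (sum_le_sum h2).trans ?_
  rw [sum_const, nsmul_eq_mul]
  have hPc : (P.card : ℝ) ≤ 2 ^ K := by
    have h3 : P.card ≤ 2 ^ K := by
      rw [hP, card_powersetCard, card_univ, Fintype.card_fin]
      exact Nat.choose_le_two_pow _ _
    exact_mod_cast h3
  have h0 : 0 ≤ ((√Z)⁻¹ * (Cr * ((1 + X / δ) * L ^ 2)) ^ d) * ((3 * L) ^ 2) ^ (K - d) := by positivity
  refine (mul_le_mul_of_nonneg_right hPc h0).trans (le_of_eq ?_)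
  have e1 : L ^ (2 * K) = (L ^ 2) ^ d * (L ^ 2) ^ (K - d) := by
    rw [← pow_add, ← pow_mul]
    congr 1
    congr 1
    omega
  rw [e1, mul_pow, mul_pow, mul_pow, mul_pow]
  norm_num
  ring

end Pool.Agent.K1H51.ZL
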