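import Pool.Agent.K1H51.ZL.MV
import Pool.Agent.K1H51.ZL.Cnt2
import Pool.Agent.Y545.GP.CR
import Pool.Agent.Y587.GP.V

set_option autoImplicit false

/-!
Freezing the amplitudes.
-/

namespace Pool.Agent.K1H51.ZL

open MeasureTheory Set
open Complex (I)
open Pool.Agent.Y969.GP (ht lam FR cr PX S_V)
open Pool.Agent.Y587.GP (t_V)
open Pool.Agent.Y545.GP (t_CR)

/-- the polynomial with clamped amplitudes -/
noncomputable def Pc (X : ℕ) (m u : ℝ) : ℂ :=
  ∑ p ∈ FR X, (cr X p (max u m) : ℂ) * Complex.exp (I * ((u * lam p : ℝ) : ℂ))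

/-- the polynomial with the amplitudes frozen at `v` -/
noncomputable def P0 (X : ℕ) (v u : ℝ) : ℂ :=
  ∑ p ∈ FR X, (cr X p v : ℂ) * Complex.exp (I * ((u * lam p : ℝ) : ℂ))

/-- the polynomial with the derivatives of the amplitudes -/
noncomputable def Gc (X : ℕ) (m u v : ℝ) : ℂ :=
  ∑ p ∈ FR X, ((deriv (cr X p) (max v m) : ℝ) : ℂ) * Complex.exp (I * ((u * lam p : ℝ) : ℂ))

/-- the error of freezing -/
noncomputable def Ds (X : ℕ) (m W u : ℝ) : ℝ := ∫ w in (-W)..W, ‖Gc X m u (u + w)‖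

lemma cr_facts : ∃ C : ℝ, 0 < C ∧ ∀ (X : ℕ) (p : ℕ × ℕ), p ∈ FR X → ∀ u : ℝ, 0 < u →
    DifferentiableAt ℝ (cr X p) u ∧ DifferentiableAt ℝ (deriv (cr X p)) u ∧
    ContinuousAt (deriv (deriv (cr X p))) u ∧
    |cr X p u| ≤ C * (1 + Real.log X) * (√(ht p))⁻¹ ∧
    |u * deriv (cr X p) u| ≤ C * (1 + Real.log X) * (√(ht p))⁻¹ ∧
    |u ^ 2 * deriv (deriv (cr X p)) u| ≤ C * (1 + Real.log X) * (√(ht p))⁻¹ := (t_CR t_V).2.2

lemma PX_eq (X : ℕ) (u : ℝ) : PX X u = P0 X u u := (t_CR t_V).1 X u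

lemma cr_cont {X : ℕ} {p : ℕ × ℕ} (hp : p ∈ FR X) {m : ℝ} (hm : 0 < m) :
    Continuous fun u : ℝ => cr X p (max u m) := by
  obtain ⟨C, -, h⟩ := cr_facts
  rw [continuous_iff_continuousAt]
  intro u
  have h1 : ContinuousAt (cr X p) (max u m) := (h X p hp _ (lt_of_lt_of_le hm (le_max_right _ _))).1.continuousAt
  exact ContinuousAt.comp (f := fun u : ℝ => max u m) h1 (by fun_prop)

lemma dcr_cont {X : ℕ} {p : ℕ × ℕ} (hp : p ∈ FR X) {m : ℝ} (hm : 0 < m) :
    Continuous fun u : ℝ => deriv (cr X p) (max u m) := by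
  obtain ⟨C, -, h⟩ := cr_facts
  rw [continuous_iff_continuousAt]
  intro u
  have h1 : ContinuousAt (deriv (cr X p)) (max u m) :=
    (h X p hp _ (lt_of_lt_of_le hm (le_max_right _ _))).2.1.continuousAt
  exact ContinuousAt.comp (f := fun u : ℝ => max u m) h1 (by fun_prop)

lemma Pc_cont (X : ℕ) {m : ℝ} (hm : 0 < m) : Continuous (Pc X m) := by
  unfold Pc
  refine continuous_finsetSum _ fun p hp => ?_
  exact (Complex.continuous_ofReal.comp (cr_cont hp hm)).mul (by fun_prop)

lemma Gc_cont (X : ℕ) {m : ℝ} (hm : 0 < m) : Continuous fun z : ℝ × ℝ => Gc X m z.1 z.2 := by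
  unfold Gc
  refine continuous_finsetSum _ fun p hp => ?_
  exact (Complex.continuous_ofReal.comp ((dcr_cont hp hm).comp continuous_snd)).mul (by fun_prop)

lemma Gn_cont (X : ℕ) {m : ℝ} (hm : 0 < m) : Continuous fun z : ℝ × ℝ => ‖Gc X m z.1 (z.1 + z.2)‖ :=
  ((Gc_cont X hm).comp (by fun_prop : Continuous fun z : ℝ × ℝ => (z.1, z.1 + z.2))).norm

lemma Ds_cont (X : ℕ) {m : ℝ} (hm : 0 < m) (W : ℝ) : Continuous (Ds X m W) := by
  unfold Ds
  exact intervalIntegral.continuous_parametric_intervalIntegral_of_continuous' (Gn_cont X hm) _ _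

lemma Ds_nonneg (X : ℕ) (m : ℝ) {W : ℝ} (hW : 0 ≤ W) (u : ℝ) : 0 ≤ Ds X m W u :=
  intervalIntegral.integral_nonneg (by linarith) fun _ _ => norm_nonneg _

lemma Pc_sub {X : ℕ} {m W u v : ℝ} (hm : 0 < m) (hu : m ≤ u) (hv : m ≤ v) (huv : |u - v| ≤ W) :
    ‖Pc X m u - P0 X v u‖ ≤ Ds X m W u := by
  obtain ⟨C, -, h⟩ := cr_facts
  have hW : 0 ≤ W := (abs_nonneg _).trans huv
  have hGu : Continuous fun x => Gc X m u x := (Gc_cont X hm).comp (by fun_prop : Continuous fun x : ℝ => (u, x))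
  have e1 : Pc X m u - P0 X v u = ∫ x in v..u, Gc X m u x := by
    unfold Pc P0 Gc
    rw [intervalIntegral.integral_finsetSum, ← Finset.sum_sub_distrib]
    · refine Finset.sum_congr rfl fun p hp => ?_
      rw [intervalIntegral.integral_mul_const, ← sub_mul]
      congr 1
      rw [intervalIntegral.integral_ofReal, max_eq_left hu]
      norm_cast
      have h1 : ∫ x in v..u, deriv (cr X p) (max x m) = ∫ x in v..u, deriv (cr X p) x := by
        apply intervalIntegral.integral_congr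
        intro x hx
        have : m ≤ x := (le_min hv hu).trans hx.1
        simp only [max_eq_left this]
      rw [h1, intervalIntegral.integral_deriv_eq_sub]
      · intro x hx
        have : m ≤ x := (le_min hv hu).trans hx.1
        exact (h X p hp x (by linarith)).1
      · apply ContinuousOn.intervalIntegrable
        intro x hx
        have : m ≤ x := (le_min hv hu).trans hx.1
        exact (h X p hp x (by linarith)).2.1.continuousAt.continuousWithinAt
    · intro p hp
      apply Continuous.intervalIntegrable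
      exact (Complex.continuous_ofReal.comp (dcr_cont hp hm)).mul continuous_const
  rw [e1]
  have e2 : Ds X m W u = ∫ x in (u - W)..(u + W), ‖Gc X m u x‖ := by
    unfold Ds
    rw [intervalIntegral.integral_comp_add_left (fun x => ‖Gc X m u x‖)]
    rfl
  rw [e2]
  have hsub : Set.uIoc v u ⊆ Ioc (u - W) (u + W) := by
    intro x hx
    rw [abs_le] at huv
    rw [uIoc, mem_Ioc] at hx
    constructor
    · have : u - W ≤ min v u := le_min (by linarith) (by linarith)
      linarith [hx.1]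
    · have : max v u ≤ u + W := max_le (by linarith) (by linarith)
      linarith [hx.2]
  calc ‖∫ x in v..u, Gc X m u x‖ ≤ ∫ x in Set.uIoc v u, ‖Gc X m u x‖ :=
        intervalIntegral.norm_integral_le_integral_norm_uIoc
    _ ≤ ∫ x in Ioc (u - W) (u + W), ‖Gc X m u x‖ := by
        apply setIntegral_mono_set _ (Filter.Eventually.of_forall fun x => norm_nonneg _)
        · exact hsub.eventuallyLE
        · exact (hGu.norm.integrableOn_Icc (a := u - W) (b := u + W)).mono_set Ioc_subset_Icc_self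
    _ = ∫ x in (u - W)..(u + W), ‖Gc X m u x‖ := by
        rw [intervalIntegral.integral_of_le (by linarith)]

set_option maxHeartbeats 4000000 in
/-- mean squares of the two functions -/
theorem frz (c₀ c : ℝ) (hc₀ : 0 < c₀) (hcc : 2 * c₀ ≤ c) (hc : 1 ≤ c) : ∃ C : ℝ, 1 ≤ C ∧
    ∀ (T W : ℝ) (X : ℕ), 3 ≤ T → T ≤ X → (X : ℝ) ≤ T ^ 2 → 0 ≤ W → W ≤ c₀ * T →
      ∫ u in Icc (2 * c₀ * T) (c * T), ‖Pc X (c₀ * T) u‖ ^ 2 ≤ C * (X * Real.log T ^ 5) ∧
      ∫ u in Icc (2 * c₀ * T) (c * T), Ds X (c₀ * T) W u ^ 2 ≤ C * ((W / T) ^ 2 * (X * Real.log T ^ 5)) := by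
  obtain ⟨Cm, hCm, hmv⟩ := mv
  obtain ⟨Cr, hCr, hcr⟩ := cr_facts
  set b1 : ℝ := Cr * 3 * (1 + c / c₀) with hb1
  set b2 : ℝ := Cr * 3 * (1 / c₀ + c / c₀ ^ 2) with hb2
  have hb10 : 0 < b1 := by positivity
  have hb20 : 0 < b2 := by positivity
  set D : ℝ := Cm * ((c + 1) * 3) * (9 * b1 ^ 2 + 36 * b2 ^ 2) with hD
  have hD0 : 0 ≤ D := by have : 0 ≤ c := by linarith
                         positivity
  refine ⟨1 + D, by linarith, ?_⟩
  intro T W X hT hTX hXT hW hWT
  have hT0 : 0 < T := by linarith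
  have hX1 : 1 ≤ X := by
    have : (1 : ℝ) ≤ X := by linarith
    exact_mod_cast this
  have hX0 : (0 : ℝ) < X := by exact_mod_cast hX1
  have hX1r : (1 : ℝ) ≤ X := by exact_mod_cast hX1
  have hL1 : 1 ≤ Real.log T := by
    rw [Real.le_log_iff_exp_le hT0]
    linarith [Real.exp_one_lt_d9]
  have hlX2 : Real.log X ≤ 2 * Real.log T := by
    have := Real.log_le_log (by linarith) hXT
    rwa [Real.log_pow] at this
  have hlX0 : 0 ≤ Real.log X := Real.log_nonneg hX1r
  set L := Real.log T with hL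
  have h1L : 1 + Real.log X ≤ 3 * L := by linarith
  set m := c₀ * T with hm
  have hm0 : 0 < m := by positivity
  set α := 2 * c₀ * T with hα
  set β := c * T with hβ
  have hα0 : 0 < α := by positivity
  have hmα : α = 2 * m := by rw [hα, hm]; ring
  have hαβ : α ≤ β := by rw [hα, hβ]; gcongr
  have hβ1 : 1 ≤ β := by rw [hβ]; nlinarith
  have hbX : (β + X) * (1 + Real.log X) ≤ (c + 1) * 3 * (X * L) := by
    calc (β + X) * (1 + Real.log X) ≤ (c * X + X) * (3 * L) := by
          apply mul_le_mul _ h1L (by positivity) (by positivity)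
          have : β ≤ c * X := by rw [hβ]; gcongr
          linarith
      _ = _ := by ring
  have hsum : ∑ p ∈ FR X, ((√(ht p))⁻¹) ^ 2 ≤ 9 * L ^ 2 := by
    calc ∑ p ∈ FR X, ((√(ht p))⁻¹) ^ 2 = ∑ p ∈ FR X, (ht p)⁻¹ := by
          refine Finset.sum_congr rfl fun p hp => ?_
          have := ht_ge hp
          rw [inv_pow, Real.sq_sqrt (by linarith)]
      _ ≤ (1 + Real.log X) ^ 2 := sum_ht_inv X
      _ ≤ (3 * L) ^ 2 := by gcongr
      _ = _ := by ring
  -- the polynomial itself
  have first : ∫ u in Icc α β, ‖Pc X m u‖ ^ 2 ≤ Cm * ((c + 1) * 3) * (9 * b1 ^ 2) * (X * L ^ 5) := by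
    have e1 : ∀ u ∈ Icc α β, ‖Pc X m u‖ ^ 2 =
        ‖∑ p ∈ FR X, (cr X p u : ℂ) * Complex.exp (I * ((u * lam p : ℝ) : ℂ))‖ ^ 2 := by
      intro u hu
      unfold Pc
      rw [max_eq_left (by linarith [hu.1])]
    rw [setIntegral_congr_fun measurableSet_Icc e1]
    have h1 := hmv X α β hX1 hβ1 hα0.le hαβ (fun p u => (cr X p u : ℂ))
      (fun p u => ((deriv (cr X p) u : ℝ) : ℂ)) (fun p => b1 * L * (√(ht p))⁻¹)
      (fun p hp x hx => (hcr X p hp x (by linarith [hx.1])).1.hasDerivAt.ofReal_comp)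
      (fun p hp x hx => (Complex.continuous_ofReal.continuousAt.comp
        (hcr X p hp x (by linarith [hx.1])).2.1.continuousAt).continuousWithinAt)
      (fun p hp x hx => by
        rw [Complex.norm_real, Real.norm_eq_abs]
        refine (hcr X p hp x (by linarith [hx.1])).2.2.2.1.trans ?_
        have h2 : 0 ≤ (√(ht p))⁻¹ := inv_nonneg.2 (Real.sqrt_nonneg _)
        apply mul_le_mul_of_nonneg_right _ h2
        calc Cr * (1 + Real.log X) ≤ Cr * (3 * L) := by gcongr
          _ ≤ Cr * 3 * (1 + c / c₀) * L := by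
              have : 0 ≤ c / c₀ := by positivity
              have : 0 ≤ Cr * 3 * (c / c₀) * L := by positivity
              nlinarith
          _ = b1 * L := rfl)
      (fun p hp => by
        have h2 : 0 ≤ (√(ht p))⁻¹ := inv_nonneg.2 (Real.sqrt_nonneg _)
        have h3 : ∀ x ∈ Set.uIoc α β, ‖‖((deriv (cr X p) x : ℝ) : ℂ)‖‖ ≤ Cr * (3 * L) * (√(ht p))⁻¹ / m := by
          intro x hx
          rw [uIoc_of_le hαβ] at hx
          have hx0 : m ≤ x := by linarith [hx.1]
          have hx1 : 0 < x := by linarith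
          rw [norm_norm, Complex.norm_real, Real.norm_eq_abs, le_div_iff₀ hm0]
          have h4 := (hcr X p hp x hx1).2.2.2.2.1
          rw [abs_mul, abs_of_pos hx1] at h4
          calc |deriv (cr X p) x| * m ≤ |deriv (cr X p) x| * x := by gcongr
            _ = x * |deriv (cr X p) x| := by ring
            _ ≤ Cr * (1 + Real.log X) * (√(ht p))⁻¹ := h4
            _ ≤ _ := by gcongr
        have h5 := intervalIntegral.norm_integral_le_of_norm_le_const h3
        rw [Real.norm_eq_abs] at h5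
        refine (le_abs_self _).trans (h5.trans ?_)
        rw [abs_of_nonneg (by linarith)]
        calc Cr * (3 * L) * (√(ht p))⁻¹ / m * (β - α) ≤ Cr * (3 * L) * (√(ht p))⁻¹ / m * β := by
              gcongr
              linarith
          _ = Cr * 3 * (c / c₀) * L * (√(ht p))⁻¹ := by
              rw [hβ, hm]; field_simp
          _ ≤ Cr * 3 * (1 + c / c₀) * L * (√(ht p))⁻¹ := by
              gcongr
              linarith
          _ = b1 * L * (√(ht p))⁻¹ := rfl)
    refine h1.trans ?_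
    have h2 : ∑ p ∈ FR X, (b1 * L * (√(ht p))⁻¹) ^ 2 ≤ b1 ^ 2 * L ^ 2 * (9 * L ^ 2) := by
      calc ∑ p ∈ FR X, (b1 * L * (√(ht p))⁻¹) ^ 2 = b1 ^ 2 * L ^ 2 * ∑ p ∈ FR X, ((√(ht p))⁻¹) ^ 2 := by
            rw [Finset.mul_sum]
            exact Finset.sum_congr rfl fun p _ => by ring
        _ ≤ _ := by gcongr
    have h3 : 0 ≤ ∑ p ∈ FR X, (b1 * L * (√(ht p))⁻¹) ^ 2 := Finset.sum_nonneg fun p _ => sq_nonneg _
    calc Cm * ((β + X) * (1 + Real.log X)) * ∑ p ∈ FR X, (b1 * L * (√(ht p))⁻¹) ^ 2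
        ≤ Cm * ((c + 1) * 3 * (X * L)) * (b1 ^ 2 * L ^ 2 * (9 * L ^ 2)) := by
          apply mul_le_mul _ h2 h3 (by positivity)
          gcongr
      _ = _ := by ring
  -- the error function
  have second : ∀ w ∈ Icc (-W) W, ∫ u in Icc α β, ‖Gc X m u (u + w)‖ ^ 2 ≤
      Cm * ((c + 1) * 3) * (9 * b2 ^ 2) * (X * L ^ 5) / T ^ 2 := by
    intro w hw
    have hpos : ∀ u ∈ Icc α β, m ≤ u + w := by
      intro u hu
      have := hu.1
      have := hw.1
      linarith
    have e1 : ∀ u ∈ Icc α β, ‖Gc X m u (u + w)‖ ^ 2 =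
        ‖∑ p ∈ FR X, ((deriv (cr X p) (u + w) : ℝ) : ℂ) * Complex.exp (I * ((u * lam p : ℝ) : ℂ))‖ ^ 2 := by
      intro u hu
      unfold Gc
      rw [max_eq_left (hpos u hu)]
    rw [setIntegral_congr_fun measurableSet_Icc e1]
    have h1 := hmv X α β hX1 hβ1 hα0.le hαβ (fun p u => ((deriv (cr X p) (u + w) : ℝ) : ℂ))
      (fun p u => ((deriv (deriv (cr X p)) (u + w) : ℝ) : ℂ)) (fun p => b2 * L * (√(ht p))⁻¹ / T)
      (fun p hp x hx => by
        have h2 := (hcr X p hp (x + w) (by linarith [hpos x hx])).2.1.hasDerivAt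
        exact (h2.comp_add_const x w).ofReal_comp)
      (fun p hp x hx => by
        have h2 := (hcr X p hp (x + w) (by linarith [hpos x hx])).2.2.1
        have h3 : ContinuousAt (fun u => deriv (deriv (cr X p)) (u + w)) x :=
          ContinuousAt.comp (f := fun u : ℝ => u + w) h2 (by fun_prop)
        exact (Complex.continuous_ofReal.continuousAt.comp h3).continuousWithinAt)
      (fun p hp x hx => by
        rw [Complex.norm_real, Real.norm_eq_abs]
        have h2 : 0 ≤ (√(ht p))⁻¹ := inv_nonneg.2 (Real.sqrt_nonneg _)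
        have hx1 : 0 < x + w := by linarith [hpos x hx]
        have h4 := (hcr X p hp (x + w) hx1).2.2.2.2.1
        rw [abs_mul, abs_of_pos hx1] at h4
        rw [le_div_iff₀ hT0]
        have h5 : |deriv (cr X p) (x + w)| * m ≤ Cr * (3 * L) * (√(ht p))⁻¹ := by
          calc |deriv (cr X p) (x + w)| * m ≤ |deriv (cr X p) (x + w)| * (x + w) := by
                gcongr; exact hpos x hx
            _ = (x + w) * |deriv (cr X p) (x + w)| := by ring
            _ ≤ Cr * (1 + Real.log X) * (√(ht p))⁻¹ := h4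
            _ ≤ _ := by gcongr
        calc |deriv (cr X p) (x + w)| * T = |deriv (cr X p) (x + w)| * m / c₀ := by
              rw [hm]; field_simp
          _ ≤ Cr * (3 * L) * (√(ht p))⁻¹ / c₀ := by gcongr
          _ = Cr * 3 * (1 / c₀) * L * (√(ht p))⁻¹ := by ring
          _ ≤ Cr * 3 * (1 / c₀ + c / c₀ ^ 2) * L * (√(ht p))⁻¹ := by
              gcongr
              have : 0 ≤ c / c₀ ^ 2 := by positivity
              linarith
          _ = b2 * L * (√(ht p))⁻¹ := rfl)
      (fun p hp => by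
        have h2 : 0 ≤ (√(ht p))⁻¹ := inv_nonneg.2 (Real.sqrt_nonneg _)
        have h3 : ∀ x ∈ Set.uIoc α β, ‖‖((deriv (deriv (cr X p)) (x + w) : ℝ) : ℂ)‖‖ ≤ Cr * (3 * L) * (√(ht p))⁻¹ / m ^ 2 := by
          intro x hx
          rw [uIoc_of_le hαβ] at hx
          have hx0 : m ≤ x + w := hpos x ⟨hx.1.le, hx.2⟩
          have hx1 : 0 < x + w := by linarith
          rw [norm_norm, Complex.norm_real, Real.norm_eq_abs, le_div_iff₀ (by positivity)]
          have h4 := (hcr X p hp (x + w) hx1).2.2.2.2.2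
          rw [abs_mul, abs_of_pos (by positivity)] at h4
          calc |deriv (deriv (cr X p)) (x + w)| * m ^ 2 ≤ |deriv (deriv (cr X p)) (x + w)| * (x + w) ^ 2 := by gcongr
            _ = (x + w) ^ 2 * |deriv (deriv (cr X p)) (x + w)| := by ring
            _ ≤ Cr * (1 + Real.log X) * (√(ht p))⁻¹ := h4
            _ ≤ _ := by gcongr
        have h5 := intervalIntegral.norm_integral_le_of_norm_le_const h3
        rw [Real.norm_eq_abs] at h5
        refine (le_abs_self _).trans (h5.trans ?_)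
        rw [abs_of_nonneg (by linarith)]
        calc Cr * (3 * L) * (√(ht p))⁻¹ / m ^ 2 * (β - α) ≤ Cr * (3 * L) * (√(ht p))⁻¹ / m ^ 2 * β := by
              gcongr
              linarith
          _ = Cr * 3 * (c / c₀ ^ 2) * L * (√(ht p))⁻¹ / T := by
              rw [hβ, hm]; field_simp
          _ ≤ Cr * 3 * (1 / c₀ + c / c₀ ^ 2) * L * (√(ht p))⁻¹ / T := by
              gcongr
              have : 0 ≤ 1 / c₀ := by positivity
              linarith
          _ = b2 * L * (√(ht p))⁻¹ / T := rfl)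
    refine h1.trans ?_
    have h2 : ∑ p ∈ FR X, (b2 * L * (√(ht p))⁻¹ / T) ^ 2 ≤ b2 ^ 2 * L ^ 2 / T ^ 2 * (9 * L ^ 2) := by
      calc ∑ p ∈ FR X, (b2 * L * (√(ht p))⁻¹ / T) ^ 2 = b2 ^ 2 * L ^ 2 / T ^ 2 * ∑ p ∈ FR X, ((√(ht p))⁻¹) ^ 2 := by
            rw [Finset.mul_sum]
            exact Finset.sum_congr rfl fun p _ => by ring
        _ ≤ _ := by gcongr
    have h3 : 0 ≤ ∑ p ∈ FR X, (b2 * L * (√(ht p))⁻¹ / T) ^ 2 := Finset.sum_nonneg fun p _ => sq_nonneg _
    calc Cm * ((β + X) * (1 + Real.log X)) * ∑ p ∈ FR X, (b2 * L * (√(ht p))⁻¹ / T) ^ 2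
        ≤ Cm * ((c + 1) * 3 * (X * L)) * (b2 ^ 2 * L ^ 2 / T ^ 2 * (9 * L ^ 2)) := by
          apply mul_le_mul _ h2 h3 (by positivity)
          gcongr
      _ = _ := by ring
  have hGn := Gn_cont X hm0
  have hG2 : Continuous fun z : ℝ × ℝ => ‖Gc X m z.1 (z.1 + z.2)‖ ^ 2 := hGn.pow 2
  have third : ∫ u in Icc α β, Ds X m W u ^ 2 ≤ ((2 * W) ^ 2) * (Cm * ((c + 1) * 3) * (9 * b2 ^ 2) * (X * L ^ 5) / T ^ 2) := by
    have hcs : ∀ u, Ds X m W u ^ 2 ≤ (2 * W) * ∫ w in Icc (-W) W, ‖Gc X m u (u + w)‖ ^ 2 := by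
      intro u
      have hc1 : Continuous fun w => ‖Gc X m u (u + w)‖ := hGn.comp (by fun_prop : Continuous fun w : ℝ => (u, w))
      set g : ℝ → ℝ := fun w => ‖Gc X m u (u + w)‖ with hg
      set M := Ds X m W u with hM
      have eM : M = ∫ w in Icc (-W) W, g w := by
        rw [hM]
        unfold Ds
        rw [intervalIntegral.integral_of_le (by linarith), integral_Icc_eq_integral_Ioc]
      rcases hW.eq_or_lt with h0 | hWp
      · rw [eM, ← h0]
        simp
      · have i1 : IntegrableOn g (Icc (-W) W) := hc1.integrableOn_Icc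
        have i2 : IntegrableOn (fun w => g w ^ 2) (Icc (-W) W) := (hc1.pow 2).integrableOn_Icc
        have h6 : 0 ≤ ∫ w in Icc (-W) W, (g w - M / (2 * W)) ^ 2 := integral_nonneg fun w => sq_nonneg _
        have h7 : ∫ w in Icc (-W) W, (g w - M / (2 * W)) ^ 2 =
            (∫ w in Icc (-W) W, g w ^ 2) - M ^ 2 / (2 * W) := by
          have e3 : ∀ w, (g w - M / (2 * W)) ^ 2 = g w ^ 2 - 2 * (M / (2 * W)) * g w + (M / (2 * W)) ^ 2 := by
            intro w; ring
          simp_rw [e3]
          have i3 : IntegrableOn (fun w => 2 * (M / (2 * W)) * g w) (Icc (-W) W) := i1.const_mul _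
          have i4 : IntegrableOn (fun w => g w ^ 2 - 2 * (M / (2 * W)) * g w) (Icc (-W) W) := i2.sub i3
          have e5 : ∫ w in Icc (-W) W, (g w ^ 2 - 2 * (M / (2 * W)) * g w + (M / (2 * W)) ^ 2) =
              (∫ w in Icc (-W) W, (g w ^ 2 - 2 * (M / (2 * W)) * g w)) + ∫ _w in Icc (-W) W, (M / (2 * W)) ^ 2 :=
            integral_add i4 (integrable_const _)
          have e6 : ∫ w in Icc (-W) W, (g w ^ 2 - 2 * (M / (2 * W)) * g w) =
              (∫ w in Icc (-W) W, g w ^ 2) - ∫ w in Icc (-W) W, 2 * (M / (2 * W)) * g w :=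
            integral_sub i2 i3
          rw [e5, e6, integral_const_mul, ← eM, integral_const,
            measureReal_restrict_apply_univ, Real.volume_real_Icc_of_le (by linarith)]
          simp only [smul_eq_mul]
          field_simp
          ring
        rw [h7] at h6
        have h8 : M ^ 2 / (2 * W) ≤ ∫ w in Icc (-W) W, g w ^ 2 := by linarith
        rw [div_le_iff₀ (by positivity)] at h8
        linarith
    have hprod : Integrable (Function.uncurry fun (u w : ℝ) => ‖Gc X m u (u + w)‖ ^ 2)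
        ((volume.restrict (Icc α β)).prod (volume.restrict (Icc (-W) W))) := by
      rw [Measure.prod_restrict]
      exact hG2.continuousOn.integrableOn_compact (isCompact_Icc.prod isCompact_Icc)
    have hin : IntegrableOn (fun u => ∫ w in Icc (-W) W, ‖Gc X m u (u + w)‖ ^ 2) (Icc α β) :=
      hprod.integral_prod_left
    calc ∫ u in Icc α β, Ds X m W u ^ 2 ≤ ∫ u in Icc α β, (2 * W) * ∫ w in Icc (-W) W, ‖Gc X m u (u + w)‖ ^ 2 := by
          apply integral_mono
          · exact ((Ds_cont X hm0 W).pow 2).integrableOn_Icc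
          · exact hin.const_mul _
          · intro u
            exact hcs u
      _ = (2 * W) * ∫ w in Icc (-W) W, ∫ u in Icc α β, ‖Gc X m u (u + w)‖ ^ 2 := by
          rw [integral_const_mul, integral_integral_swap hprod]
      _ ≤ (2 * W) * ∫ _w in Icc (-W) W, (Cm * ((c + 1) * 3) * (9 * b2 ^ 2) * (X * L ^ 5) / T ^ 2) := by
          apply mul_le_mul_of_nonneg_left _ (by linarith)
          apply setIntegral_mono_on
          · exact hprod.integral_prod_right
          · exact integrable_const _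
          · exact measurableSet_Icc
          · exact second
      _ = _ := by
          rw [integral_const, measureReal_restrict_apply_univ, Real.volume_real_Icc_of_le (by linarith)]
          simp only [smul_eq_mul]
          ring
  have hXL : 0 ≤ X * L ^ 5 := by positivity
  constructor
  · refine first.trans ?_
    apply mul_le_mul_of_nonneg_right _ hXL
    rw [hD]
    have : 0 ≤ Cm * ((c + 1) * 3) * (36 * b2 ^ 2) := by positivity
    nlinarith
  · refine third.trans ?_
    calc ((2 * W) ^ 2) * (Cm * ((c + 1) * 3) * (9 * b2 ^ 2) * (X * L ^ 5) / T ^ 2)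
        = (Cm * ((c + 1) * 3) * (36 * b2 ^ 2)) * ((W / T) ^ 2 * (X * L ^ 5)) := by
          field_simp; ring
      _ ≤ (1 + D) * ((W / T) ^ 2 * (X * L ^ 5)) := by
          apply mul_le_mul_of_nonneg_right _ (by positivity)
          rw [hD]
          have : 0 ≤ Cm * ((c + 1) * 3) * (9 * b1 ^ 2) := by positivity
          nlinarith

end Pool.Agent.K1H51.ZL
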