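import Pool.Agent.K1H51.ZL.Prt
import Pool.Agent.K1H51.ZL.CV
import Pool.Agent.K1H51.ZL.Frz
import Pool.Agent.Y891.GP.AFE
import Pool.Agent.Y620.SX.CRA
import Pool.Agent.Y587.GP.Chi

set_option autoImplicit false

/-!
Replacing `|ζ|²` by Dirichlet polynomials with frozen amplitudes.
-/

namespace Pool.Agent.K1H51.ZL

open Finset MeasureTheory Filter Topology
open Complex (I)
open Pool.Agent.Y969.GP (ff ht lam FR cr PX)

lemma afe : Pool.Agent.Y969.GP.S_AFE :=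
  Pool.Agent.Y891.GP.t_AFE Pool.Agent.Y587.GP.t_V Pool.Agent.Y587.GP.Chi.t_CHI

lemma ff_cont' : Continuous ff := by
  unfold ff
  have : Continuous fun u : ℝ => riemannZeta (1 / 2 + I * u) := by
    rw [continuous_iff_continuousAt]
    intro u
    have h1 : (1 / 2 + I * u : ℂ) ≠ 1 := by
      intro h
      have := congrArg Complex.re h
      simp at this
    have h2 := (differentiableAt_riemannZeta h1).continuousAt
    exact ContinuousAt.comp (f := fun u : ℝ => (1 / 2 + I * u : ℂ)) h2 (by fun_prop)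
  exact this.norm.pow 2

/-- the small function -/
noncomputable def Er (X : ℕ) (m W u : ℝ) : ℝ := ‖(ff u : ℂ) - Pc X m u‖ + Ds X m W u

/-- the majorant -/
noncomputable def Fm (X : ℕ) (m W u : ℝ) : ℝ := ‖Pc X m u‖ + Er X m W u

lemma Er_cont (X : ℕ) {m : ℝ} (hm : 0 < m) (W : ℝ) : Continuous (Er X m W) := by
  unfold Er
  exact (((Complex.continuous_ofReal.comp ff_cont').sub (Pc_cont X hm)).norm).add (Ds_cont X hm W)

lemma Fm_cont (X : ℕ) {m : ℝ} (hm : 0 < m) (W : ℝ) : Continuous (Fm X m W) := by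
  unfold Fm
  exact (Pc_cont X hm).norm.add (Er_cont X hm W)

lemma Er_nonneg (X : ℕ) (m : ℝ) {W : ℝ} (hW : 0 ≤ W) (u : ℝ) : 0 ≤ Er X m W u :=
  add_nonneg (norm_nonneg _) (Ds_nonneg X m hW u)

lemma Fm_nonneg (X : ℕ) (m : ℝ) {W : ℝ} (hW : 0 ≤ W) (u : ℝ) : 0 ≤ Fm X m W u :=
  add_nonneg (norm_nonneg _) (Er_nonneg X m hW u)

/-- the pointwise comparison -/
lemma pt {K X : ℕ} {m W : ℝ} (hm : 0 < m) (u v : Fin K → ℝ) (hu : ∀ j, m ≤ u j) (hv : ∀ j, m ≤ v j)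
    (huv : ∀ j, |u j - v j| ≤ W) (hW : 0 ≤ W) :
    ‖∏ j, (ff (u j) : ℂ) - ∏ j, P0 X (v j) (u j)‖ ≤
      ∑ j₀, ∏ j, (if j = j₀ then Er X m W (u j) else Fm X m W (u j)) := by
  apply prod_diff (fun j => (ff (u j) : ℂ)) (fun j => P0 X (v j) (u j)) (fun j => Fm X m W (u j))
    (fun j => Er X m W (u j))
  · intro j
    have e : (ff (u j) : ℂ) = Pc X m (u j) + ((ff (u j) : ℂ) - Pc X m (u j)) := by ring
    have h1 := Ds_nonneg X m hW (u j)
    calc ‖(ff (u j) : ℂ)‖ ≤ ‖Pc X m (u j)‖ + ‖(ff (u j) : ℂ) - Pc X m (u j)‖ := by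
          conv_lhs => rw [e]
          exact norm_add_le _ _
      _ ≤ _ := by unfold Fm Er; linarith
  · intro j
    have h1 := Pc_sub (X := X) hm (hu j) (hv j) (huv j)
    have e : P0 X (v j) (u j) = Pc X m (u j) - (Pc X m (u j) - P0 X (v j) (u j)) := by ring
    have h2 : 0 ≤ ‖(ff (u j) : ℂ) - Pc X m (u j)‖ := norm_nonneg _
    calc ‖P0 X (v j) (u j)‖ ≤ ‖Pc X m (u j)‖ + ‖Pc X m (u j) - P0 X (v j) (u j)‖ := by
          conv_lhs => rw [e]
          exact norm_sub_le _ _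
      _ ≤ _ := by unfold Fm Er; linarith
  · intro j
    have h1 := Pc_sub (X := X) hm (hu j) (hv j) (huv j)
    have e : (ff (u j) : ℂ) - P0 X (v j) (u j) = ((ff (u j) : ℂ) - Pc X m (u j)) + (Pc X m (u j) - P0 X (v j) (u j)) := by ring
    calc ‖(ff (u j) : ℂ) - P0 X (v j) (u j)‖ ≤ ‖(ff (u j) : ℂ) - Pc X m (u j)‖ + ‖Pc X m (u j) - P0 X (v j) (u j)‖ := by
          rw [e]
          exact norm_add_le _ _
      _ ≤ _ := by unfold Er; linarith

/-- the small exponent -/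
noncomputable def ep (K d : ℕ) : ℝ := ex K d / (16 * K)

lemma ep_pos {K d : ℕ} (hd : 1 ≤ d) (hK : d ≤ K) : 0 < ep K d := by
  have h2 : (0 : ℝ) < K := by exact_mod_cast (by omega : 0 < K)
  unfold ep
  have := ex_pos hd hK
  positivity

lemma ep_mul {K d : ℕ} (hd : 1 ≤ d) (hK : d ≤ K) : ep K d * K = ex K d / 16 := by
  have h2 : (0 : ℝ) < K := by exact_mod_cast (by omega : 0 < K)
  unfold ep
  field_simp

lemma ep_le {K d : ℕ} (hd : 1 ≤ d) (hK : d ≤ K) : ep K d ≤ ex K d / 16 := by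
  have h2 : (1 : ℝ) ≤ K := by exact_mod_cast (by omega : 1 ≤ K)
  have h3 := ep_pos hd hK
  rw [← ep_mul hd hK]
  nlinarith

lemma Pc_eq {X : ℕ} {m u : ℝ} (h : m ≤ u) : Pc X m u = PX X u := by
  rw [PX_eq]
  unfold Pc P0
  rw [max_eq_left h]

lemma small (c : ℝ) (hc : 0 < c) (M : ℝ) {η : ℝ} (hη : 0 < η) : ∀ᶠ T : ℝ in atTop, M * T ^ (-c) ≤ η := by
  filter_upwards [log_pow_small 0 hc M hη] with T hT
  simpa using hT

lemma sq_add_le (a b : ℝ) : (a + b) ^ 2 ≤ 2 * a ^ 2 + 2 * b ^ 2 := by nlinarith [sq_nonneg (a - b)]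

set_option maxHeartbeats 4000000 in
theorem msq {K d : ℕ} (hd : 1 ≤ d) (hK : d ≤ K) (c₀ c : ℝ) (hc₀ : 0 < c₀) (hcc : 2 * c₀ ≤ c) (hc : 1 ≤ c)
    (cW : ℝ) : ∀ᶠ T : ℝ in atTop, ∀ (X : ℕ) (W : ℝ), (c * T) ^ (1 + ep K d) ≤ X →
      (X : ℝ) ≤ 3 * (c * T) ^ (1 + ep K d) → 0 ≤ W → W ≤ cW * T * T ^ (-(ex K d / 2)) →
      ∫ u in Set.Icc (2 * c₀ * T) (c * T), Er X (c₀ * T) W u ^ 2 ≤ T * T ^ (-(ex K d) + 3 * ep K d) ∧
      ∫ u in Set.Icc (2 * c₀ * T) (c * T), Fm X (c₀ * T) W u ^ 2 ≤ T * T ^ (3 * ep K d) := by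
  have he0 := ex_pos hd hK
  have he1 := ex_le hd hK
  have hp0 := ep_pos hd hK
  have hp1 := ep_le hd hK
  set e := ex K d with he
  set ε := ep K d with hε
  obtain ⟨C1, hC1, hfrz⟩ := frz c₀ c hc₀ hcc hc
  obtain ⟨C2, hC2, hafe⟩ := afe ε hp0
  have hc0 : 0 < c := by linarith
  set M1 : ℝ := 3 * c ^ (1 + ε) with hM1
  filter_upwards [eventually_ge_atTop (3 : ℝ), eventually_ge_atTop (1 / (2 * c₀)),
    small (e / 2) (by linarith) cW hc₀, log_pow_small 5 hp0 M1 one_pos,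
    small (1 - ε) (by linarith) M1 one_pos,
    small (1 / 2 - e) (by linarith) (2 * (c * C2 ^ 2 * (2 * c₀) ^ (-(1 / 2) : ℝ))) (by norm_num : (0 : ℝ) < 1 / 2),
    small ε hp0 (2 * (C1 * cW ^ 2)) (by norm_num : (0 : ℝ) < 1 / 2),
    small ε hp0 (2 * C1) (by norm_num : (0 : ℝ) < 1 / 2),
    small e he0 2 (by norm_num : (0 : ℝ) < 1 / 2)] with T hT3 hTc h1 h2 h3 h4 h5 h6 h7
  intro X W hX1 hX2 hW hWT
  have hT0 : 0 < T := by linarith
  have hT1 : 1 ≤ T := by linarith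
  have hL1 : 1 ≤ Real.log T := by
    rw [Real.le_log_iff_exp_le hT0]
    linarith [Real.exp_one_lt_d9]
  have hcT : 1 ≤ c * T := by nlinarith
  have hTX : T ≤ X := by
    calc T ≤ c * T := by nlinarith
      _ = (c * T) ^ (1 : ℝ) := (Real.rpow_one _).symm
      _ ≤ (c * T) ^ (1 + ε) := Real.rpow_le_rpow_of_exponent_le hcT (by linarith)
      _ ≤ X := hX1
  have hXM : (X : ℝ) ≤ M1 * T ^ (1 + ε) := by
    refine hX2.trans (le_of_eq ?_)
    rw [Real.mul_rpow hc0.le hT0.le, hM1]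
    ring
  have hXT2 : (X : ℝ) ≤ T ^ 2 := by
    refine hXM.trans ?_
    have e1 : T ^ (1 + ε) = T ^ 2 * T ^ (-(1 - ε)) := by
      rw [← Real.rpow_natCast, ← Real.rpow_add hT0]
      congr 1
      push_cast
      ring
    rw [e1]
    calc M1 * (T ^ 2 * T ^ (-(1 - ε))) = T ^ 2 * (M1 * T ^ (-(1 - ε))) := by ring
      _ ≤ T ^ 2 * 1 := by gcongr
      _ = T ^ 2 := mul_one _
  have hXL : (X : ℝ) * Real.log T ^ 5 ≤ T * T ^ (2 * ε) := by
    have e1 : T ^ (1 + ε) = T * T ^ (2 * ε) * T ^ (-ε) := by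
      rw [← Real.rpow_one_add' hT0.le (by linarith), ← Real.rpow_add hT0]
      congr 1
      ring
    calc (X : ℝ) * Real.log T ^ 5 ≤ M1 * T ^ (1 + ε) * Real.log T ^ 5 := by gcongr
      _ = T * T ^ (2 * ε) * (M1 * (T ^ (-ε) * Real.log T ^ 5)) := by rw [e1]; ring
      _ ≤ T * T ^ (2 * ε) * 1 := by gcongr
      _ = _ := mul_one _
  have hXL0 : 0 ≤ (X : ℝ) * Real.log T ^ 5 := by positivity
  have hWc : W ≤ c₀ * T := by
    calc W ≤ cW * T * T ^ (-(e / 2)) := hWT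
      _ = T * (cW * T ^ (-(e / 2))) := by ring
      _ ≤ T * c₀ := by gcongr
      _ = c₀ * T := by ring
  obtain ⟨g1, g2⟩ := hfrz T W X hT3 hTX hXT2 hW hWc
  have hm0 : 0 < c₀ * T := by positivity
  have g1' : ∫ u in Set.Icc (2 * c₀ * T) (c * T), ‖Pc X (c₀ * T) u‖ ^ 2 ≤ C1 * (T * T ^ (2 * ε)) :=
    g1.trans (by gcongr)
  have hWT2 : (W / T) ^ 2 ≤ cW ^ 2 * T ^ (-e) := by
    have : W / T ≤ cW * T ^ (-(e / 2)) := by
      rw [div_le_iff₀ hT0]
      calc W ≤ _ := hWT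
        _ = _ := by ring
    calc (W / T) ^ 2 ≤ (cW * T ^ (-(e / 2))) ^ 2 := by gcongr
      _ = cW ^ 2 * T ^ (-e) := by
          rw [mul_pow, ← Real.rpow_natCast (T ^ (-(e / 2))), ← Real.rpow_mul hT0.le]
          congr 2
          push_cast
          ring
  have g2' : ∫ u in Set.Icc (2 * c₀ * T) (c * T), Ds X (c₀ * T) W u ^ 2 ≤
      C1 * (cW ^ 2 * T ^ (-e) * (T * T ^ (2 * ε))) := by
    refine g2.trans ?_
    have : 0 ≤ cW ^ 2 * T ^ (-e) := by positivity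
    gcongr
  -- the error of the approximate functional equation
  have hαβ : 2 * c₀ * T ≤ c * T := by gcongr
  have h2c : 1 ≤ 2 * c₀ * T := by
    rw [div_le_iff₀ (by positivity)] at hTc
    linarith
  have g3 : ∫ u in Set.Icc (2 * c₀ * T) (c * T), ‖(ff u : ℂ) - Pc X (c₀ * T) u‖ ^ 2 ≤
      c * C2 ^ 2 * (2 * c₀) ^ (-(1 / 2) : ℝ) * (T * T ^ (-(1 / 2) : ℝ)) := by
    have hb : ∀ u ∈ Set.Icc (2 * c₀ * T) (c * T), ‖(ff u : ℂ) - Pc X (c₀ * T) u‖ ^ 2 ≤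
        C2 ^ 2 * (2 * c₀ * T) ^ (-(1 / 2) : ℝ) := by
      intro u hu
      have hu1 : 1 ≤ u := h2c.trans hu.1
      have hu0 : 0 < u := by linarith
      rw [Pc_eq (by linarith [hu.1] : c₀ * T ≤ u)]
      have k1 := hafe u X hu1 ((Real.rpow_le_rpow hu0.le hu.2 (by linarith)).trans hX1)
      calc ‖(ff u : ℂ) - PX X u‖ ^ 2 ≤ (C2 * u ^ (-(1 / 2) + ε)) ^ 2 := by gcongr
        _ = C2 ^ 2 * u ^ ((-(1 / 2) + ε) * 2) := by
            rw [mul_pow, ← Real.rpow_natCast (u ^ (-(1 / 2) + ε)), ← Real.rpow_mul hu0.le]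
            norm_num
        _ ≤ C2 ^ 2 * u ^ (-(1 / 2) : ℝ) := by
            apply mul_le_mul_of_nonneg_left _ (by positivity)
            exact Real.rpow_le_rpow_of_exponent_le hu1 (by linarith)
        _ ≤ C2 ^ 2 * (2 * c₀ * T) ^ (-(1 / 2) : ℝ) := by
            apply mul_le_mul_of_nonneg_left _ (by positivity)
            exact Real.rpow_le_rpow_of_nonpos (by linarith) hu.1 (by norm_num)
    have hc1 : Continuous fun u => ‖(ff u : ℂ) - Pc X (c₀ * T) u‖ ^ 2 :=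
      ((((Complex.continuous_ofReal.comp ff_cont').sub (Pc_cont X hm0)).norm).pow 2)
    calc ∫ u in Set.Icc (2 * c₀ * T) (c * T), ‖(ff u : ℂ) - Pc X (c₀ * T) u‖ ^ 2
        ≤ ∫ _u in Set.Icc (2 * c₀ * T) (c * T), C2 ^ 2 * (2 * c₀ * T) ^ (-(1 / 2) : ℝ) := by
          apply setIntegral_mono_on hc1.integrableOn_Icc continuous_const.integrableOn_Icc measurableSet_Icc hb
      _ = (c * T - 2 * c₀ * T) * (C2 ^ 2 * (2 * c₀ * T) ^ (-(1 / 2) : ℝ)) := by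
          rw [integral_const, measureReal_restrict_apply_univ, Real.volume_real_Icc_of_le hαβ]
          simp only [smul_eq_mul]
      _ ≤ (c * T) * (C2 ^ 2 * (2 * c₀ * T) ^ (-(1 / 2) : ℝ)) := by
          gcongr
          linarith
      _ = _ := by
          rw [Real.mul_rpow (by positivity) hT0.le]
          ring
  -- combination
  have hDc := Ds_cont X hm0 W
  have hPc := Pc_cont X hm0
  have hDn : ∀ u, 0 ≤ Ds X (c₀ * T) W u := Ds_nonneg X _ hW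
  have k1 : ∫ u in Set.Icc (2 * c₀ * T) (c * T), Er X (c₀ * T) W u ^ 2 ≤
      2 * (c * C2 ^ 2 * (2 * c₀) ^ (-(1 / 2) : ℝ) * (T * T ^ (-(1 / 2) : ℝ))) +
      2 * (C1 * (cW ^ 2 * T ^ (-e) * (T * T ^ (2 * ε)))) := by
    have hc1 : Continuous fun u => ‖(ff u : ℂ) - Pc X (c₀ * T) u‖ ^ 2 :=
      ((((Complex.continuous_ofReal.comp ff_cont').sub hPc).norm).pow 2)
    calc ∫ u in Set.Icc (2 * c₀ * T) (c * T), Er X (c₀ * T) W u ^ 2
        ≤ ∫ u in Set.Icc (2 * c₀ * T) (c * T), (2 * ‖(ff u : ℂ) - Pc X (c₀ * T) u‖ ^ 2 + 2 * Ds X (c₀ * T) W u ^ 2) := by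
          apply setIntegral_mono_on ((Er_cont X hm0 W).pow 2).integrableOn_Icc
            (((hc1.const_mul 2).add ((hDc.pow 2).const_mul 2))).integrableOn_Icc measurableSet_Icc
          intro u _
          exact sq_add_le _ _
      _ = 2 * (∫ u in Set.Icc (2 * c₀ * T) (c * T), ‖(ff u : ℂ) - Pc X (c₀ * T) u‖ ^ 2) +
          2 * ∫ u in Set.Icc (2 * c₀ * T) (c * T), Ds X (c₀ * T) W u ^ 2 := by
          rw [integral_add, integral_const_mul, integral_const_mul]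
          · exact (hc1.const_mul 2).integrableOn_Icc
          · exact ((hDc.pow 2).const_mul 2).integrableOn_Icc
      _ ≤ _ := by
          gcongr
  have hr : 2 * (c * C2 ^ 2 * (2 * c₀) ^ (-(1 / 2) : ℝ) * (T * T ^ (-(1 / 2) : ℝ))) +
      2 * (C1 * (cW ^ 2 * T ^ (-e) * (T * T ^ (2 * ε)))) ≤ T * T ^ (-e + 3 * ε) := by
    have q1 : 2 * (c * C2 ^ 2 * (2 * c₀) ^ (-(1 / 2) : ℝ) * (T * T ^ (-(1 / 2) : ℝ))) ≤ T * T ^ (-e) * (1 / 2) := by
      have e1 : T ^ (-(1 / 2) : ℝ) = T ^ (-e) * T ^ (-(1 / 2 - e)) := by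
        rw [← Real.rpow_add hT0]
        congr 1
        ring
      rw [e1]
      calc 2 * (c * C2 ^ 2 * (2 * c₀) ^ (-(1 / 2) : ℝ) * (T * (T ^ (-e) * T ^ (-(1 / 2 - e)))))
          = T * T ^ (-e) * (2 * (c * C2 ^ 2 * (2 * c₀) ^ (-(1 / 2) : ℝ)) * T ^ (-(1 / 2 - e))) := by ring
        _ ≤ T * T ^ (-e) * (1 / 2) := by gcongr
    have q2 : 2 * (C1 * (cW ^ 2 * T ^ (-e) * (T * T ^ (2 * ε)))) ≤ T * T ^ (-e + 3 * ε) * (1 / 2) := by
      have e1 : T ^ (-e) * T ^ (2 * ε) = T ^ (-e + 3 * ε) * T ^ (-ε) := by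
        rw [← Real.rpow_add hT0, ← Real.rpow_add hT0]
        congr 1
        ring
      calc 2 * (C1 * (cW ^ 2 * T ^ (-e) * (T * T ^ (2 * ε))))
          = 2 * (C1 * cW ^ 2) * T * (T ^ (-e) * T ^ (2 * ε)) := by ring
        _ = T * T ^ (-e + 3 * ε) * (2 * (C1 * cW ^ 2) * T ^ (-ε)) := by rw [e1]; ring
        _ ≤ _ := by gcongr
    have q3 : T ^ (-e) ≤ T ^ (-e + 3 * ε) := Real.rpow_le_rpow_of_exponent_le hT1 (by linarith)
    have q4 : T * T ^ (-e) * (1 / 2) ≤ T * T ^ (-e + 3 * ε) * (1 / 2) := by gcongr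
    linarith
  have hE : ∫ u in Set.Icc (2 * c₀ * T) (c * T), Er X (c₀ * T) W u ^ 2 ≤ T * T ^ (-e + 3 * ε) := k1.trans hr
  refine ⟨hE, ?_⟩
  have hEc := Er_cont X hm0 W
  calc ∫ u in Set.Icc (2 * c₀ * T) (c * T), Fm X (c₀ * T) W u ^ 2
      ≤ ∫ u in Set.Icc (2 * c₀ * T) (c * T), (2 * ‖Pc X (c₀ * T) u‖ ^ 2 + 2 * Er X (c₀ * T) W u ^ 2) := by
        apply setIntegral_mono_on ((Fm_cont X hm0 W).pow 2).integrableOn_Icc
          ((((hPc.norm.pow 2).const_mul 2).add ((hEc.pow 2).const_mul 2))).integrableOn_Icc measurableSet_Icc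
        intro u _
        exact sq_add_le _ _
    _ = 2 * (∫ u in Set.Icc (2 * c₀ * T) (c * T), ‖Pc X (c₀ * T) u‖ ^ 2) +
        2 * ∫ u in Set.Icc (2 * c₀ * T) (c * T), Er X (c₀ * T) W u ^ 2 := by
        rw [integral_add, integral_const_mul, integral_const_mul]
        · exact ((hPc.norm.pow 2).const_mul 2).integrableOn_Icc
        · exact ((hEc.pow 2).const_mul 2).integrableOn_Icc
    _ ≤ 2 * (C1 * (T * T ^ (2 * ε))) + 2 * (T * T ^ (-e + 3 * ε)) := by gcongr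
    _ ≤ T * T ^ (3 * ε) := by
        have q1 : 2 * (C1 * (T * T ^ (2 * ε))) ≤ T * T ^ (3 * ε) * (1 / 2) := by
          have e1 : T ^ (2 * ε) = T ^ (3 * ε) * T ^ (-ε) := by
            rw [← Real.rpow_add hT0]
            congr 1
            ring
          calc 2 * (C1 * (T * T ^ (2 * ε))) = T * T ^ (3 * ε) * (2 * C1 * T ^ (-ε)) := by rw [e1]; ring
            _ ≤ _ := by gcongr
        have q2 : 2 * (T * T ^ (-e + 3 * ε)) ≤ T * T ^ (3 * ε) * (1 / 2) := by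
          have e1 : T ^ (-e + 3 * ε) = T ^ (3 * ε) * T ^ (-e) := by
            rw [← Real.rpow_add hT0]
            congr 1
            ring
          calc 2 * (T * T ^ (-e + 3 * ε)) = T * T ^ (3 * ε) * (2 * T ^ (-e)) := by rw [e1]; ring
            _ ≤ _ := by gcongr
        linarith

end Pool.Agent.K1H51.ZL
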