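import Pool.Agent.K1H51.ZL.Asm

set_option autoImplicit false

/-!
Comparison on the whole box and the main term on each cell.
-/

namespace Pool.Agent.K1H51.ZL

open Finset MeasureTheory Filter Topology
open Complex (I)
open Pool.Agent.Y969.GP (ff ht lam FR cr PX)

lemma Lf_smul {K d : ℕ} (A : Fin K → Fin d → ℝ) (j : Fin K) (T : ℝ) (x : Fin d → ℝ) :
    Lf A j (fun i => T * x i) = T * Lf A j x := by
  unfold Lf
  rw [mul_sum]
  exact sum_congr rfl fun i _ => by ring

/-- the forms on the dilated box -/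
lemma Lf_dil {K d : ℕ} {A : Fin K → Fin d → ℝ} {a b : Fin d → ℝ} {c₀ c : ℝ}
    (hL : ∀ x ∈ Set.Icc a b, ∀ j, Lf A j x ∈ Set.Icc (2 * c₀) c) {T : ℝ} (hT : 0 < T) {x : Fin d → ℝ}
    (hx : ∀ i, T * a i ≤ x i ∧ x i ≤ T * b i) (j : Fin K) : Lf A j x ∈ Set.Icc (2 * c₀ * T) (c * T) := by
  have h1 : (fun i => x i / T) ∈ Set.Icc a b := by
    constructor
    · intro i
      rw [le_div_iff₀ hT]
      linarith [(hx i).1]
    · intro i
      rw [div_le_iff₀ hT]
      linarith [(hx i).2]
  have h2 := hL _ h1 j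
  have h3 : Lf A j x = T * Lf A j (fun i => x i / T) := by
    rw [← Lf_smul]
    congr 1
    funext i
    field_simp
  rw [h3]
  constructor
  · nlinarith [h2.1]
  · nlinarith [h2.2]

/-- points of a cell -/
lemma cell_pt {d N : ℕ} {a b : Fin d → ℝ} {T : ℝ} (hT : 0 < T) (hN : 1 ≤ N) (hab : ∀ i, a i < b i)
    (k : Fin d → Fin N) {x : Fin d → ℝ}
    (hx : ∀ i, crn (fun i => T * a i) (fun i => T * (b i - a i) / N) k i ≤ x i ∧
      x i ≤ crn (fun i => T * a i) (fun i => T * (b i - a i) / N) k i + T * (b i - a i) / N) (i : Fin d) :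
    T * a i ≤ x i ∧ x i ≤ T * b i := by
  have h := hx i
  unfold crn at h
  have hN0 : (0 : ℝ) < N := by exact_mod_cast (by omega : 0 < N)
  have h1 : (0 : ℝ) ≤ ((k i : ℕ) : ℝ) := Nat.cast_nonneg _
  have h2 : ((k i : ℕ) : ℝ) + 1 ≤ N := by exact_mod_cast (k i).2
  have h3 : 0 < T * (b i - a i) / N := div_pos (mul_pos hT (by linarith [hab i])) hN0
  have h4 : N * (T * (b i - a i) / N) = T * (b i - a i) := by field_simp
  constructor
  · have := h.1
    have := mul_nonneg h1 h3.le
    linarith
  · have := h.2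
    have h5 : (((k i : ℕ) : ℝ) + 1) * (T * (b i - a i) / N) ≤ N * (T * (b i - a i) / N) := by gcongr
    rw [h4] at h5
    nlinarith

set_option maxHeartbeats 4000000 in
theorem repl {K d : ℕ} (hd : 1 ≤ d) (hK : d ≤ K) (hK2 : K + 1 ≤ 2 * d) {A : Fin K → Fin d → ℝ}
    (hA : GenPos A) {a b : Fin d → ℝ} (hab : ∀ i, a i < b i) {c₀ c : ℝ} (hc₀ : 0 < c₀) (hcc : 2 * c₀ ≤ c)
    (hc : 1 ≤ c) (hL : ∀ x ∈ Set.Icc a b, ∀ j, Lf A j x ∈ Set.Icc (2 * c₀) c) (η : ℝ) (hη : 0 < η) :
    ∀ᶠ T : ℝ in atTop, ∀ (N X : ℕ), 1 ≤ N → T ^ (ex K d / 2) ≤ N → (c * T) ^ (1 + ep K d) ≤ X →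
      (X : ℝ) ≤ 3 * (c * T) ^ (1 + ep K d) →
      ‖(∫ x in bxc (fun i => T * a i) (big N fun i => T * (b i - a i) / N), ∏ j, (ff (Lf A j x) : ℂ)) -
        ∑ k : Fin d → Fin N, ∫ x in bxc (crn (fun i => T * a i) (fun i => T * (b i - a i) / N) k)
          (fun i => T * (b i - a i) / N), ∏ j, P0 X
            (Lf A j (crn (fun i => T * a i) (fun i => T * (b i - a i) / N) k)) (Lf A j x)‖ ≤ η * T ^ d := by
  classical
  have he0 := ex_pos hd hK
  have he1 := ex_le hd hK
  have hp0 := ep_pos hd hK
  have hp1 := ep_le hd hK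
  have hpm := ep_mul hd hK
  set e := ex K d with he
  set ε := ep K d with hε
  set cW : ℝ := ∑ j : Fin K, ∑ i, |A j i| * (b i - a i) with hcW
  have hcW0 : 0 ≤ cW := sum_nonneg fun j _ => sum_nonneg fun i _ => mul_nonneg (abs_nonneg _) (by linarith [hab i])
  obtain ⟨C, hC, hl2⟩ := l2 hd hK (by omega) hA (2 * c₀) c (by linarith) hcc hc
  filter_upwards [eventually_ge_atTop (1 : ℝ), msq hd hK c₀ c hc₀ hcc hc cW,
    small (e / 2) (by linarith) cW hc₀,
    small (e / 5) (by linarith) (K * C) hη] with T hT1 hms hWs hfin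
  intro N X hN hNT hX1 hX2
  have hT0 : 0 < T := by linarith
  have hN0 : (0 : ℝ) < N := by exact_mod_cast (by omega : 0 < N)
  set y : Fin d → ℝ := fun i => T * a i with hy
  set s : Fin d → ℝ := fun i => T * (b i - a i) / N with hs
  have hs0 : ∀ i, 0 < s i := fun i => div_pos (mul_pos hT0 (by linarith [hab i])) hN0
  set W : ℝ := cW * T / N with hW
  have hW0 : 0 ≤ W := by positivity
  have hWb : W ≤ cW * T * T ^ (-(e / 2)) := by
    rw [hW, Real.rpow_neg hT0.le, ← div_eq_mul_inv]
    gcongr
  have hWc : W ≤ c₀ * T := by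
    calc W ≤ cW * T * T ^ (-(e / 2)) := hWb
      _ = T * (cW * T ^ (-(e / 2))) := by ring
      _ ≤ T * c₀ := by gcongr
      _ = c₀ * T := by ring
  obtain ⟨m1, m2⟩ := hms X W hX1 hX2 hW0 hWb
  set m := c₀ * T with hm
  have hm0 : 0 < m := by positivity
  -- the forms on cells
  have hcell : ∀ (k : Fin d → Fin N) (x : Fin d → ℝ), x ∈ bxc (crn y s k) s →
      ∀ j, Lf A j x ∈ Set.Icc (2 * c₀ * T) (c * T) ∧ Lf A j (crn y s k) ∈ Set.Icc (2 * c₀ * T) (c * T) ∧
        |Lf A j x - Lf A j (crn y s k)| ≤ W := by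
    intro k x hx j
    refine ⟨?_, ?_, ?_⟩
    · apply Lf_dil hL hT0
      apply cell_pt hT0 hN hab k
      intro i
      exact ⟨(hx i (Set.mem_univ _)).1.le, (hx i (Set.mem_univ _)).2⟩
    · apply Lf_dil hL hT0
      apply cell_pt hT0 hN hab k
      intro i
      exact ⟨le_rfl, by have := hs0 i; linarith⟩
    · have e1 : Lf A j x - Lf A j (crn y s k) = ∑ i, A j i * (x i - crn y s k i) := by
        unfold Lf
        rw [← sum_sub_distrib]
        exact sum_congr rfl fun i _ => by ring
      rw [e1]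
      calc |∑ i, A j i * (x i - crn y s k i)| ≤ ∑ i, |A j i * (x i - crn y s k i)| := abs_sum_le_sum_abs _ _
        _ ≤ ∑ i, |A j i| * s i := by
            apply sum_le_sum
            intro i _
            rw [abs_mul]
            apply mul_le_mul_of_nonneg_left _ (abs_nonneg _)
            rw [abs_of_nonneg (by linarith [(hx i (Set.mem_univ _)).1])]
            linarith [(hx i (Set.mem_univ _)).2]
        _ = (∑ i, |A j i| * (b i - a i)) * T / N := by
            rw [sum_mul, sum_div]
            exact sum_congr rfl fun i _ => by rw [hs]; ring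
        _ ≤ cW * T / N := by
            have : ∑ i, |A j i| * (b i - a i) ≤ cW :=
              single_le_sum (f := fun j => ∑ i, |A j i| * (b i - a i))
                (fun j _ => sum_nonneg fun i _ => mul_nonneg (abs_nonneg _) (by linarith [hab i])) (mem_univ j)
            gcongr
  have hcf : Continuous fun x : Fin d → ℝ => ∏ j, (ff (Lf A j x) : ℂ) :=
    continuous_finsetProd _ fun j _ => Complex.continuous_ofReal.comp (ff_cont'.comp (Lf_cont A j))
  have hcP : ∀ k : Fin d → Fin N, Continuous fun x : Fin d → ℝ => ∏ j, P0 X (Lf A j (crn y s k)) (Lf A j x) := by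
    intro k
    refine continuous_finsetProd _ fun j _ => ?_
    unfold P0
    refine continuous_finsetSum _ fun p _ => ?_
    have := Lf_cont A j
    fun_prop
  set G : (Fin d → ℝ) → ℝ := fun x => ∑ j₀, ∏ j, (if j = j₀ then Er X m W (Lf A j x) else Fm X m W (Lf A j x)) with hG
  have hGj : ∀ j₀ : Fin K, Continuous fun x : Fin d → ℝ =>
      ∏ j, (if j = j₀ then Er X m W (Lf A j x) else Fm X m W (Lf A j x)) := by
    intro j₀
    refine continuous_finsetProd _ fun j _ => ?_
    split_ifs
    · exact (Er_cont X hm0 W).comp (Lf_cont A j)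
    · exact (Fm_cont X hm0 W).comp (Lf_cont A j)
  have hGc : Continuous G := continuous_finsetSum _ fun j₀ _ => hGj j₀
  rw [part hs0 hcf, ← sum_sub_distrib]
  calc ‖∑ k : Fin d → Fin N, ((∫ x in bxc (crn y s k) s, ∏ j, (ff (Lf A j x) : ℂ)) -
        ∫ x in bxc (crn y s k) s, ∏ j, P0 X (Lf A j (crn y s k)) (Lf A j x))‖
      ≤ ∑ k : Fin d → Fin N, ∫ x in bxc (crn y s k) s, G x := by
        refine (norm_sum_le _ _).trans (sum_le_sum fun k _ => ?_)
        rw [← integral_sub (bxc_int hcf) (bxc_int (hcP k))]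
        refine norm_integral_le_of_norm_le (bxc_int hGc) ?_
        refine (ae_restrict_iff' (bxc_meas _ _)).2 (Filter.Eventually.of_forall fun x hx => ?_)
        have h1 := hcell k x hx
        have hmm : m ≤ 2 * c₀ * T := by rw [hm]; nlinarith
        exact pt hm0 (fun j => Lf A j x) (fun j => Lf A j (crn y s k)) (fun j => hmm.trans (h1 j).1.1)
          (fun j => hmm.trans (h1 j).2.1.1) (fun j => (h1 j).2.2) hW0
    _ = ∫ x in bxc y (big N s), G x := (partR hs0 hGc).symm
    _ = ∑ j₀, ∫ x in bxc y (big N s), ∏ j, (if j = j₀ then Er X m W (Lf A j x) else Fm X m W (Lf A j x)) :=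
        integral_finsetSum _ fun j₀ _ => bxc_int (hGj j₀)
    _ ≤ ∑ _j₀ : Fin K, C * (T ^ d * (T ^ (3 * ε)) ^ K * √(T ^ (-e + 3 * ε))) := by
        apply sum_le_sum
        intro j₀ _
        have hR1 : 1 ≤ T ^ (3 * ε) := Real.one_le_rpow hT1 (by linarith)
        have hr0 : 0 < T ^ (-e + 3 * ε) := Real.rpow_pos_of_pos hT0 _
        have hr1 : T ^ (-e + 3 * ε) ≤ 1 := Real.rpow_le_one_of_one_le_of_nonpos hT1 (by linarith)
        have h1 := hl2 T (T ^ (3 * ε)) (T ^ (-e + 3 * ε)) (fun j => if j = j₀ then Er X m W else Fm X m W) j₀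
          hT1 hR1 hr0 hr1
          (fun j => by
            by_cases hj : j = j₀
            · simp only [hj, if_true]
              exact Er_cont X hm0 W
            · simp only [hj, if_false]
              exact Fm_cont X hm0 W)
          (fun j u => by
            by_cases hj : j = j₀
            · simp only [hj, if_true]
              exact Er_nonneg X m hW0 u
            · simp only [hj, if_false]
              exact Fm_nonneg X m hW0 u)
          (fun j => by
            by_cases hj : j = j₀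
            · simp only [hj, if_true]
              refine m1.trans ?_
              exact mul_le_mul_of_nonneg_left (hr1.trans hR1) hT0.le
            · simp only [hj, if_false]
              exact m2)
          (by simp only [if_true]; exact m1)
          y (big N s)
          (fun x hx j => by
            rw [part_set hs0, Set.mem_iUnion] at hx
            obtain ⟨k, hk⟩ := hx
            exact (hcell k x hk j).1)
        refine le_trans (le_of_eq ?_) h1
        congr 1
        funext x
        refine prod_congr rfl fun j _ => ?_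
        by_cases hj : j = j₀
        · simp only [hj, if_true]
        · simp only [hj, if_false]
    _ = (K * C) * (T ^ d * ((T ^ (3 * ε)) ^ K * √(T ^ (-e + 3 * ε)))) := by
        rw [sum_const, card_univ, Fintype.card_fin, nsmul_eq_mul]
        ring
    _ ≤ (K * C) * (T ^ d * T ^ (-(e / 5))) := by
        have : (T ^ (3 * ε)) ^ K * √(T ^ (-e + 3 * ε)) ≤ T ^ (-(e / 5)) := by
          rw [← Real.rpow_natCast (T ^ (3 * ε)), ← Real.rpow_mul hT0.le, Real.sqrt_eq_rpow,
            ← Real.rpow_mul hT0.le, ← Real.rpow_add hT0]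
          apply Real.rpow_le_rpow_of_exponent_le hT1
          have : 3 * ε * K = 3 * (ε * K) := by ring
          rw [this, hpm]
          linarith
        gcongr
    _ = (K * C) * T ^ (-(e / 5)) * T ^ d := by ring
    _ ≤ η * T ^ d := by gcongr

end Pool.Agent.K1H51.ZL
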