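import Pool.Agent.K1H51.ZL.Cell

set_option autoImplicit false

/-!
Integrals over boxes.
-/

namespace Pool.Agent.K1H51.ZL

open Finset MeasureTheory
open Complex (I)
open Pool.Agent.Y969.GP (ht lam FR)

/-- the value of a linear form -/
def Lf {K d : ℕ} (A : Fin K → Fin d → ℝ) (j : Fin K) (x : Fin d → ℝ) : ℝ := ∑ i, A j i * x i

lemma Lf_cont {K d : ℕ} (A : Fin K → Fin d → ℝ) (j : Fin K) : Continuous (Lf A j) := by
  unfold Lf
  fun_prop

/-- half-open boxes -/
def bxc {d : ℕ} (y s : Fin d → ℝ) : Set (Fin d → ℝ) := Set.pi Set.univ fun i => Set.Ioc (y i) (y i + s i)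

lemma bxc_meas {d : ℕ} (y s : Fin d → ℝ) : MeasurableSet (bxc y s) :=
  MeasurableSet.univ_pi fun _ => measurableSet_Ioc

/-- the normalised integral of an exponential -/
noncomputable def kap (y s m : ℝ) : ℂ := (s : ℂ)⁻¹ * ∫ x in Set.Ioc y (y + s), Complex.exp (I * ((x * m : ℝ) : ℂ))

lemma norm_e (x : ℝ) : ‖Complex.exp (I * (x : ℂ))‖ = 1 := by
  rw [mul_comm]; exact Complex.norm_exp_ofReal_mul_I x

lemma kap_zero {y s : ℝ} (hs : 0 < s) : kap y s 0 = 1 := by
  unfold kap
  simp only [mul_zero, Complex.ofReal_zero, Complex.exp_zero, integral_const]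
  rw [measureReal_restrict_apply_univ, Real.volume_real_Ioc_of_le (by linarith)]
  have : (s : ℂ) ≠ 0 := by exact_mod_cast hs.ne'
  simp
  field_simp

lemma kap_le_one {y s : ℝ} (hs : 0 < s) (m : ℝ) : ‖kap y s m‖ ≤ 1 := by
  unfold kap
  rw [norm_mul, norm_inv, Complex.norm_real, Real.norm_of_nonneg hs.le]
  have h1 : ‖∫ x in Set.Ioc y (y + s), Complex.exp (I * ((x * m : ℝ) : ℂ))‖ ≤ s := by
    calc ‖∫ x in Set.Ioc y (y + s), Complex.exp (I * ((x * m : ℝ) : ℂ))‖
        ≤ ∫ x in Set.Ioc y (y + s), ‖Complex.exp (I * ((x * m : ℝ) : ℂ))‖ := norm_integral_le_integral_norm _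
      _ = s := by
          simp only [norm_e]
          rw [integral_const, measureReal_restrict_apply_univ, Real.volume_real_Ioc_of_le (by linarith)]
          simp
  rw [inv_mul_le_iff₀ hs, mul_one]
  exact h1

lemma kap_le {y s δ : ℝ} (hδ : 0 < δ) (hδs : δ ≤ s) (m : ℝ) : ‖kap y s m‖ ≤ 3 * (1 + δ * |m|)⁻¹ := by
  have hs : 0 < s := by linarith
  have hm0 := abs_nonneg m
  rw [← div_eq_mul_inv, le_div_iff₀ (by positivity)]
  rcases le_or_gt (δ * |m|) 2 with h | h
  · have := kap_le_one (y := y) hs m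
    nlinarith [norm_nonneg (kap y s m)]
  · have hm : m ≠ 0 := by
      rintro rfl
      simp at h
      linarith
    have hmp : 0 < |m| := abs_pos.2 hm
    have h1 : ‖∫ x in Set.Ioc y (y + s), Complex.exp (I * ((x * m : ℝ) : ℂ))‖ ≤ 2 / |m| := by
      rw [← intervalIntegral.integral_of_le (by linarith)]
      have e : ∀ x : ℝ, Complex.exp (I * ((x * m : ℝ) : ℂ)) = Complex.exp ((I * m) * x) := by
        intro x; congr 1; push_cast; ring
      simp_rw [e]
      rw [integral_exp_mul_complex (mul_ne_zero Complex.I_ne_zero (by exact_mod_cast hm))]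
      rw [norm_div, norm_mul, Complex.norm_I, one_mul, Complex.norm_real, Real.norm_eq_abs]
      apply div_le_div_of_nonneg_right _ hmp.le
      refine (norm_sub_le _ _).trans ?_
      have e2 : ∀ x : ℝ, ‖Complex.exp (I * m * x)‖ = 1 := by
        intro x
        have : I * (m : ℂ) * x = I * ((m * x : ℝ) : ℂ) := by push_cast; ring
        rw [this, norm_e]
      rw [e2, e2]
      norm_num
    have h2 : ‖kap y s m‖ ≤ s⁻¹ * (2 / |m|) := by
      unfold kap
      rw [norm_mul, norm_inv, Complex.norm_real, Real.norm_of_nonneg hs.le]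
      exact mul_le_mul_of_nonneg_left h1 (by positivity)
    have h3 : s⁻¹ * (2 / |m|) ≤ 2 / (δ * |m|) := by
      rw [inv_mul_eq_div, div_div]
      apply div_le_div_of_nonneg_left (by norm_num) (by positivity)
      rw [mul_comm |m|]
      exact mul_le_mul_of_nonneg_right hδs hm0
    calc ‖kap y s m‖ * (1 + δ * |m|) ≤ 2 / (δ * |m|) * (1 + δ * |m|) := by
          apply mul_le_mul_of_nonneg_right (h2.trans h3) (by positivity)
      _ = 2 / (δ * |m|) + 2 := by field_simp
      _ ≤ 3 := by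
          have : 2 / (δ * |m|) ≤ 1 := by
            rw [div_le_one (by positivity)]
            exact h.le
          linarith

lemma expand {K d X : ℕ} (A : Fin K → Fin d → ℝ) (a : Fin K → ℕ × ℕ → ℂ) (x : Fin d → ℝ) :
    ∏ j, ∑ p ∈ FR X, a j p * Complex.exp (I * ((Lf A j x * lam p : ℝ) : ℂ)) =
      ∑ q ∈ PFX K X, (∏ j, a j (q j)) * ∏ i, Complex.exp (I * ((x i * mq A q i : ℝ) : ℂ)) := by
  rw [prod_univ_sum]
  refine sum_congr rfl fun q _ => ?_
  rw [prod_mul_distrib]
  congr 1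
  rw [← Complex.exp_sum, ← Complex.exp_sum]
  congr 1
  rw [← mul_sum, ← mul_sum]
  congr 1
  norm_cast
  unfold Lf mq mu
  simp_rw [sum_mul, mul_sum]
  rw [sum_comm]
  exact sum_congr rfl fun i _ => sum_congr rfl fun j _ => by ring

lemma box_int {K d X : ℕ} (A : Fin K → Fin d → ℝ) (a : Fin K → ℕ × ℕ → ℂ) {y s : Fin d → ℝ}
    (hs : ∀ i, 0 < s i) :
    ∫ x in bxc y s, ∏ j, ∑ p ∈ FR X, a j p * Complex.exp (I * ((Lf A j x * lam p : ℝ) : ℂ)) =
      ((∏ i, s i : ℝ) : ℂ) * ∑ q ∈ PFX K X, (∏ j, a j (q j)) * ∏ i, kap (y i) (s i) (mq A q i) := by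
  simp_rw [expand]
  have hr : (volume : Measure (Fin d → ℝ)).restrict (bxc y s) =
      Measure.pi fun i => volume.restrict (Set.Ioc (y i) (y i + s i)) := by
    unfold bxc
    rw [volume_pi, Measure.restrict_pi_pi]
  have hint : ∀ q : Fin K → ℕ × ℕ, Integrable (fun x : Fin d → ℝ =>
      ∏ i, Complex.exp (I * ((x i * mq A q i : ℝ) : ℂ))) (volume.restrict (bxc y s)) := by
    intro q
    rw [hr]
    apply MeasureTheory.Integrable.fintype_prod (f := fun i (x : ℝ) => Complex.exp (I * ((x * mq A q i : ℝ) : ℂ)))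
    intro i
    have : IntegrableOn (fun x : ℝ => Complex.exp (I * ((x * mq A q i : ℝ) : ℂ))) (Set.Icc (y i) (y i + s i)) :=
      (by fun_prop : Continuous fun x : ℝ => Complex.exp (I * ((x * mq A q i : ℝ) : ℂ))).continuousOn.integrableOn_compact isCompact_Icc
    exact this.mono_set Set.Ioc_subset_Icc_self
  rw [integral_finsetSum _ (fun q _ => (hint q).const_mul _), mul_sum]
  refine sum_congr rfl fun q _ => ?_
  rw [integral_const_mul, hr,
    integral_fintype_prod_eq_prod (fun i (x : ℝ) => Complex.exp (I * ((x * mq A q i : ℝ) : ℂ)))]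
  have e : ∀ i, ∫ x in Set.Ioc (y i) (y i + s i), Complex.exp (I * ((x * mq A q i : ℝ) : ℂ)) =
      (s i : ℂ) * kap (y i) (s i) (mq A q i) := by
    intro i
    unfold kap
    rw [← mul_assoc, mul_inv_cancel₀ (by exact_mod_cast (hs i).ne'), one_mul]
  simp_rw [e]
  rw [prod_mul_distrib]
  push_cast
  ring

end Pool.Agent.K1H51.ZL
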