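import Pool.Agent.K1H51.ZL.Near

set_option autoImplicit false

/-!
The sum over tuples of fractions which arises from one cell.
-/

namespace Pool.Agent.K1H51.ZL

open Finset Filter Topology
open Pool.Agent.Y969.GP (ht lam FR)
open Pool.Agent.Y379.GP (mem_FR sp1 harm card_FR)

/-- the exponent -/
noncomputable def ex (K d : ℕ) : ℝ := 1 / (64 * K * d)

lemma ex_pos {K d : ℕ} (hd : 1 ≤ d) (hK : d ≤ K) : 0 < ex K d := by
  unfold ex
  have h1 : (0 : ℝ) < d := by exact_mod_cast hd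
  have h2 : (0 : ℝ) < K := by exact_mod_cast (by omega : 0 < K)
  positivity

lemma ex_le {K d : ℕ} (hd : 1 ≤ d) (hK : d ≤ K) : ex K d ≤ 1 / 64 := by
  unfold ex
  have h1 : (1 : ℝ) ≤ d := by exact_mod_cast hd
  have h2 : (1 : ℝ) ≤ K := by exact_mod_cast (by omega : 1 ≤ K)
  apply one_div_le_one_div_of_le (by norm_num)
  nlinarith

lemma log_pow_small (n : ℕ) {c : ℝ} (hc : 0 < c) (M : ℝ) {η : ℝ} (hη : 0 < η) :
    ∀ᶠ T : ℝ in atTop, M * (T ^ (-c) * Real.log T ^ n) ≤ η := by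
  have h := isLittleO_log_rpow_rpow_atTop (n : ℝ) hc
  have h1 : Tendsto (fun T : ℝ => Real.log T ^ (n : ℝ) / T ^ c) atTop (𝓝 0) := h.tendsto_div_nhds_zero
  have h2 : Tendsto (fun T : ℝ => M * (Real.log T ^ (n : ℝ) / T ^ c)) atTop (𝓝 0) := by
    simpa using h1.const_mul M
  filter_upwards [h2.eventually (gt_mem_nhds hη), eventually_gt_atTop (0:ℝ)] with T h3 hT
  rw [Real.rpow_natCast] at h3
  rw [Real.rpow_neg hT.le]
  have : M * ((T ^ c)⁻¹ * Real.log T ^ n) = M * (Real.log T ^ n / T ^ c) := by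
    rw [div_eq_mul_inv]; ring
  rw [this]
  exact h3.le

lemma prod_sub_one_le {K : ℕ} (a : Fin K → ℂ) {B x : ℝ} (hB : 1 ≤ B) (ha : ∀ j, ‖a j‖ ≤ B)
    (hx : ∀ j, ‖a j - 1‖ ≤ x) (S : Finset (Fin K)) : ‖∏ j ∈ S, a j - 1‖ ≤ S.card * B ^ S.card * x := by
  classical
  induction S using Finset.induction_on with
  | empty => simp
  | insert j S hj ih =>
    rw [prod_insert hj, card_insert_of_notMem hj]
    have hx0 : 0 ≤ x := (norm_nonneg _).trans (hx j)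
    have e : a j * ∏ i ∈ S, a i - 1 = a j * (∏ i ∈ S, a i - 1) + (a j - 1) := by ring
    rw [e]
    refine (norm_add_le _ _).trans ?_
    rw [norm_mul]
    have h1 : ‖a j‖ * ‖∏ i ∈ S, a i - 1‖ ≤ B * (S.card * B ^ S.card * x) :=
      mul_le_mul (ha j) ih (norm_nonneg _) (by linarith)
    have h2 : (1 : ℝ) ≤ B ^ (S.card + 1) := one_le_pow₀ hB
    have h3 := hx j
    push_cast
    have h4 : x ≤ B ^ (S.card + 1) * x := by nlinarith
    calc ‖a j‖ * ‖∏ i ∈ S, a i - 1‖ + ‖a j - 1‖ ≤ B * (S.card * B ^ S.card * x) + B ^ (S.card + 1) * x := by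
          linarith
      _ = _ := by ring

lemma PFX_card (K X : ℕ) : ((PFX K X).card : ℝ) ≤ ((X : ℝ) ^ 2) ^ K := by
  unfold PFX
  rw [Fintype.card_piFinset, prod_const, card_univ, Fintype.card_fin]
  have : ((FR X).card : ℝ) ≤ (X : ℝ) ^ 2 := by
    have := card_FR X
    rw [sq]
    exact_mod_cast this
  push_cast
  exact pow_le_pow_left₀ (Nat.cast_nonneg _) this K

lemma wq_le_one {K X : ℕ} {q : Fin K → ℕ × ℕ} (hq : q ∈ PFX K X) : wq q ≤ 1 := by
  unfold wq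
  apply prod_le_one
  · intro j _
    exact inv_nonneg.2 (Real.sqrt_nonneg _)
  · intro j _
    apply inv_le_one_of_one_le₀
    rw [Real.one_le_sqrt]
    exact ht_ge (mem_PFX.1 hq j)

set_option maxHeartbeats 4000000 in
/-- the sum over tuples -/
theorem cell {K d : ℕ} (hd : 1 ≤ d) (hK : d ≤ K) (hK2 : K + 1 ≤ 2 * d) {A : Fin K → Fin d → ℝ}
    (hA : GenPos A) (B : ℝ) (hB : 1 ≤ B) (η : ℝ) (hη : 0 < η) : ∀ᶠ T : ℝ in atTop,
    ∀ (X : ℕ) (δ : ℝ), T ≤ X → (X : ℝ) ≤ T ^ (1 + ex K d) → T ^ (1 - ex K d) ≤ δ → δ ≤ T →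
    ∀ β : Fin K → ℕ × ℕ → ℂ, (∀ j, ∀ p ∈ FR X, ‖β j p‖ ≤ B) →
      (∀ j, ∀ p ∈ FR X, ht p ≤ T ^ (1 / 4 : ℝ) → ‖β j p - 1‖ ≤ B * (1 + Real.log (ht p)) / Real.log T) →
    ∀ κ : Fin d → ℝ → ℂ, (∀ i, κ i 0 = 1) → (∀ i m, ‖κ i m‖ ≤ 1) →
      (∀ i m, ‖κ i m‖ ≤ 3 * (1 + δ * |m|)⁻¹) →
      ‖∑ q ∈ PFX K X, (∏ j, β j (q j)) * (wq q : ℂ) * ∏ i, κ i (mq A q i) - (Cst A : ℂ)‖ ≤ η := by
  classical
  have hd0 : (1 : ℝ) ≤ d := by exact_mod_cast hd
  have hK0 : (1 : ℝ) ≤ K := by exact_mod_cast (by omega : 1 ≤ K)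
  set e1 := ex K d with he1
  have he10 : 0 < e1 := ex_pos hd hK
  have he11 : e1 ≤ 1 / 64 := ex_le hd hK
  set e2 : ℝ := 1 / (8 * K) with he2
  have he20 : 0 < e2 := by positivity
  have he21 : e2 ≤ 1 / 8 := by
    rw [he2]
    apply one_div_le_one_div_of_le (by norm_num)
    linarith
  have he12 : e2 = 8 * d * e1 := by
    rw [he2, he1, ex]
    field_simp
    norm_num
  obtain ⟨Ch, hCh, hhigh⟩ := high hd hK hK2 hA
  obtain ⟨c0, Cn, hc0, hCn, hnear⟩ := near hd hK hK2 hA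
  obtain ⟨Ct, hCt, htail⟩ := cst_tail hd hK hK2 hA
  -- the choice of `Z₀`
  obtain ⟨Z₀, hZ₀, hZ₀η⟩ : ∃ Z₀ : ℕ, 1 ≤ Z₀ ∧ (B ^ K * Cn + Ct) * (Z₀ : ℝ) ^ (-(1 / 4) : ℝ) ≤ η / 5 := by
    have h1 : Tendsto (fun n : ℕ => (B ^ K * Cn + Ct) * (n : ℝ) ^ (-(1 / 4) : ℝ)) atTop (𝓝 0) := by
      have := (tendsto_rpow_neg_atTop (y := 1 / 4) (by norm_num)).comp tendsto_natCast_atTop_atTop
      simpa using this.const_mul (B ^ K * Cn + Ct)
    obtain ⟨n, hn⟩ := ((h1.eventually (gt_mem_nhds (by positivity : (0:ℝ) < η / 5))).and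
      (eventually_ge_atTop 1)).exists
    exact ⟨n, hn.2, hn.1.le⟩
  have hZ₀r : (1 : ℝ) ≤ Z₀ := by exact_mod_cast hZ₀
  -- eventual conditions
  have ev1 : ∀ᶠ T : ℝ in atTop, ∀ q ∈ PFX K Z₀, q ∉ Res A → ∃ i, T ^ (-(1 / 2) : ℝ) < |mq A q i| := by
    rw [Filter.eventually_all_finset]
    intro q hq
    by_cases hqR : q ∈ Res A
    · exact Eventually.of_forall fun T h => absurd hqR h
    · have : ∃ i, mq A q i ≠ 0 := by
        by_contra hcon
        push Not at hcon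
        apply hqR
        exact ⟨fun j => ⟨(mem_FR'.1 (mem_PFX.1 hq j)).1, (mem_FR'.1 (mem_PFX.1 hq j)).2.1,
          (mem_FR'.1 (mem_PFX.1 hq j)).2.2.2⟩, hcon⟩
      obtain ⟨i, hi⟩ := this
      have h1 := (tendsto_rpow_neg_atTop (y := 1 / 2) (by norm_num)).eventually
        (gt_mem_nhds (abs_pos.2 hi))
      filter_upwards [h1] with T hT _
      exact ⟨i, by simpa using hT⟩
  have ev2 : ∀ᶠ T : ℝ in atTop, B ^ K * 3 ^ d * Ch * (2 * 2 ^ d) * (T ^ (-(2 * d * e1)) * Real.log T ^ (2 * K)) ≤ η / 5 :=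
    log_pow_small (2 * K) (by positivity) _ (by positivity)
  have ev3 : ∀ᶠ T : ℝ in atTop, B ^ K * 3 * (T ^ (-(1 / 8) : ℝ) * Real.log T ^ 0) ≤ η / 5 :=
    log_pow_small 0 (by norm_num) _ (by positivity)
  have ev4 : ∀ᶠ T : ℝ in atTop, 1 * (T ^ (-(1 / 4) : ℝ) * Real.log T ^ 0) ≤ c0 :=
    log_pow_small 0 (by norm_num) _ (by positivity)
  have ev5 : ∀ᶠ T : ℝ in atTop, (2 : ℝ) ≤ T ^ e2 := (tendsto_rpow_atTop he20).eventually_ge_atTop 2
  have ev6 : ∀ᶠ T : ℝ in atTop, (Z₀ : ℝ) + 1 ≤ T ^ e2 := (tendsto_rpow_atTop he20).eventually_ge_atTop _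
  have ev7 : ∀ᶠ T : ℝ in atTop, ((PFX K Z₀).card : ℝ) * (K * B ^ K * (B * (1 + Real.log Z₀))) / Real.log T ≤ η / 5 := by
    have h1 : Tendsto (fun T : ℝ => ((PFX K Z₀).card : ℝ) * (K * B ^ K * (B * (1 + Real.log Z₀))) / Real.log T) atTop (𝓝 0) :=
      Tendsto.div_atTop tendsto_const_nhds Real.tendsto_log_atTop
    filter_upwards [h1.eventually (gt_mem_nhds (by positivity : (0:ℝ) < η / 5))] with T hT
    exact hT.le
  filter_upwards [ev1, ev2, ev3, ev4, ev5, ev6, ev7, eventually_ge_atTop (3 : ℝ)] with T h1 h2 h3 h4 h5 h6 h7 hT3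
  intro X δ hTX hXT hδ1 hδ2 β hβ1 hβ2 κ hκ0 hκ1 hκ2
  have hT0 : 0 < T := by linarith
  have hT1 : 1 ≤ T := by linarith
  have hL1 : 1 ≤ Real.log T := by
    rw [Real.le_log_iff_exp_le hT0]
    linarith [Real.exp_one_lt_d9]
  have hδ3 : 1 ≤ δ := le_trans (Real.one_le_rpow hT1 (by linarith)) hδ1
  have hδ0 : 0 < δ := by linarith
  have hX1 : 1 ≤ X := by
    have : (1 : ℝ) ≤ X := by linarith
    exact_mod_cast this
  have hX0 : (0 : ℝ) < X := by exact_mod_cast hX1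
  have hXT2 : (X : ℝ) ≤ T ^ 2 := by
    refine hXT.trans ?_
    rw [← Real.rpow_natCast]
    apply Real.rpow_le_rpow_of_exponent_le hT1
    push_cast
    linarith
  set Z : ℕ := ⌊T ^ e2⌋₊ with hZ
  have hTe2 : 0 ≤ T ^ e2 := by positivity
  have hZle : (Z : ℝ) ≤ T ^ e2 := Nat.floor_le hTe2
  have hZlt : T ^ e2 < Z + 1 := Nat.lt_floor_add_one _
  have hZge : T ^ e2 / 2 ≤ Z := by linarith
  have hZ1 : 1 ≤ Z := by
    have : (0 : ℝ) < Z := by linarith
    exact_mod_cast this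
  have hZZ₀ : Z₀ ≤ Z := by
    have : (Z₀ : ℝ) < Z + 1 := by linarith
    have : Z₀ < Z + 1 := by exact_mod_cast this
    omega
  have hZX : Z ≤ X := by
    have : (Z : ℝ) ≤ X := by
      refine hZle.trans (le_trans ?_ hTX)
      calc T ^ e2 ≤ T ^ (1 : ℝ) := Real.rpow_le_rpow_of_exponent_le hT1 (by linarith)
        _ = T := Real.rpow_one T
    exact_mod_cast this
  have hZr : (1 : ℝ) ≤ Z := by exact_mod_cast hZ1
  set t : (Fin K → ℕ × ℕ) → ℂ := fun q => (∏ j, β j (q j)) * (wq q : ℂ) * ∏ i, κ i (mq A q i) with ht'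
  have hB0 : 0 < B ^ K := by positivity
  have hβn : ∀ q ∈ PFX K X, ‖∏ j, β j (q j)‖ ≤ B ^ K := by
    intro q hq
    rw [norm_prod]
    calc ∏ j, ‖β j (q j)‖ ≤ ∏ _j : Fin K, B := prod_le_prod (fun j _ => norm_nonneg _)
          (fun j _ => hβ1 j _ (mem_PFX.1 hq j))
      _ = B ^ K := by rw [prod_const, card_univ, Fintype.card_fin]
  have hκn : ∀ q : Fin K → ℕ × ℕ, ‖∏ i, κ i (mq A q i)‖ ≤ 1 := by
    intro q
    rw [norm_prod]
    exact prod_le_one (fun i _ => norm_nonneg _) (fun i _ => hκ1 i _)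
  have htn : ∀ q ∈ PFX K X, ‖t q‖ ≤ B ^ K * wq q * ‖∏ i, κ i (mq A q i)‖ := by
    intro q hq
    simp only [ht']
    rw [norm_mul, norm_mul, Complex.norm_real, Real.norm_of_nonneg (wq_nonneg q)]
    apply mul_le_mul_of_nonneg_right _ (norm_nonneg _)
    exact mul_le_mul_of_nonneg_right (hβn q hq) (wq_nonneg q)
  -- the large heights
  have hH : ‖∑ q ∈ (PFX K X).filter (fun q => ∃ j, (Z : ℝ) + 1 ≤ ht (q j)), t q‖ ≤ η / 5 := by
    calc ‖∑ q ∈ (PFX K X).filter (fun q => ∃ j, (Z : ℝ) + 1 ≤ ht (q j)), t q‖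
        ≤ ∑ q ∈ (PFX K X).filter (fun q => ∃ j, (Z : ℝ) + 1 ≤ ht (q j)), ‖t q‖ := norm_sum_le _ _
      _ ≤ ∑ q ∈ (PFX K X).filter (fun q => ∃ j, (Z : ℝ) + 1 ≤ ht (q j)), B ^ K * 3 ^ d * (wq q * kq A δ q) := by
          refine sum_le_sum fun q hq => ?_
          refine (htn q (mem_filter.1 hq).1).trans ?_
          have h8 : ‖∏ i, κ i (mq A q i)‖ ≤ 3 ^ d * kq A δ q := by
            rw [norm_prod]
            calc ∏ i, ‖κ i (mq A q i)‖ ≤ ∏ i, (3 * (1 + δ * |mq A q i|)⁻¹) :=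
                  prod_le_prod (fun i _ => norm_nonneg _) (fun i _ => hκ2 i _)
              _ = 3 ^ d * kq A δ q := by
                  rw [prod_mul_distrib, prod_const, card_univ, Fintype.card_fin]
                  rfl
          calc B ^ K * wq q * ‖∏ i, κ i (mq A q i)‖ ≤ B ^ K * wq q * (3 ^ d * kq A δ q) := by
                apply mul_le_mul_of_nonneg_left h8
                exact mul_nonneg hB0.le (wq_nonneg q)
            _ = _ := by ring
      _ = B ^ K * 3 ^ d * ∑ q ∈ (PFX K X).filter (fun q => ∃ j, (Z : ℝ) + 1 ≤ ht (q j)), (wq q * kq A δ q) := by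
          rw [mul_sum]
      _ ≤ B ^ K * 3 ^ d * (Ch * (√((Z : ℝ) + 1))⁻¹ * ((1 + X / δ) ^ d * Real.log T ^ (2 * K))) := by
          apply mul_le_mul_of_nonneg_left _ (by positivity)
          exact hhigh T δ (Z + 1) X hT3 hX1 hXT2 hδ3 hδ2 (by linarith)
      _ ≤ B ^ K * 3 ^ d * Ch * (2 * 2 ^ d) * (T ^ (-(2 * d * e1)) * Real.log T ^ (2 * K)) := by
          have a1 : (√((Z : ℝ) + 1))⁻¹ ≤ 2 * T ^ (-(4 * d * e1)) := by
            have b1 : T ^ (4 * d * e1) ≤ √((Z : ℝ) + 1) := by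
              apply Real.le_sqrt_of_sq_le
              rw [← Real.rpow_natCast, ← Real.rpow_mul hT0.le]
              refine le_trans (le_of_eq ?_) hZlt.le
              congr 1
              rw [he12]; push_cast; ring
            rw [Real.rpow_neg hT0.le]
            have b2 : (√((Z : ℝ) + 1))⁻¹ ≤ (T ^ (4 * d * e1))⁻¹ := inv_anti₀ (by positivity) b1
            have b3 : 0 < (T ^ (4 * d * e1))⁻¹ := by positivity
            linarith
          have a2 : (1 + X / δ) ^ d ≤ 2 ^ d * T ^ (2 * d * e1) := by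
            have b1 : (X : ℝ) / δ ≤ T ^ (2 * e1) := by
              rw [div_le_iff₀ hδ0]
              calc (X : ℝ) ≤ T ^ (1 + e1) := hXT
                _ = T ^ (2 * e1) * T ^ (1 - e1) := by
                    rw [← Real.rpow_add hT0]; congr 1; ring
                _ ≤ T ^ (2 * e1) * δ := by gcongr
            have b2 : 1 ≤ T ^ (2 * e1) := Real.one_le_rpow hT1 (by linarith)
            calc (1 + X / δ) ^ d ≤ (2 * T ^ (2 * e1)) ^ d := by
                  apply pow_le_pow_left₀ (by positivity)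
                  linarith
              _ = 2 ^ d * T ^ (2 * d * e1) := by
                  rw [mul_pow, ← Real.rpow_natCast (T ^ (2 * e1)), ← Real.rpow_mul hT0.le]
                  congr 2
                  ring
          have a3 : T ^ (-(4 * d * e1)) * T ^ (2 * d * e1) = T ^ (-(2 * d * e1)) := by
            rw [← Real.rpow_add hT0]; congr 1; ring
          calc B ^ K * 3 ^ d * (Ch * (√((Z : ℝ) + 1))⁻¹ * ((1 + X / δ) ^ d * Real.log T ^ (2 * K)))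
              ≤ B ^ K * 3 ^ d * (Ch * (2 * T ^ (-(4 * d * e1))) *
                ((2 ^ d * T ^ (2 * d * e1)) * Real.log T ^ (2 * K))) := by gcongr
            _ = B ^ K * 3 ^ d * Ch * (2 * 2 ^ d) * ((T ^ (-(4 * d * e1)) * T ^ (2 * d * e1)) * Real.log T ^ (2 * K)) := by
                ring
            _ = _ := by rw [a3]
      _ ≤ η / 5 := h2
  -- the set of the tuples of small heights
  have hPZ : (PFX K X).filter (fun q => ¬ ∃ j, (Z : ℝ) + 1 ≤ ht (q j)) = PFX K Z := by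
    ext q
    rw [mem_filter, mem_PFX, mem_PFX]
    constructor
    · rintro ⟨ha, hb⟩ j
      push Not at hb
      have := hb j
      rw [mem_FR']
      obtain ⟨c1, c2, c3, c4⟩ := mem_FR'.1 (ha j)
      refine ⟨c1, c2, ?_, c4⟩
      unfold ht at this
      have : (q j).1 * (q j).2 < Z + 1 := by exact_mod_cast this
      omega
    · intro ha
      refine ⟨fun j => FR_mono hZX (ha j), ?_⟩
      rintro ⟨j, hj⟩
      have := ht_le (ha j)
      linarith
  set δ₀ : ℝ := T ^ (-(1 / 2) : ℝ) with hδ₀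
  have hδ₀0 : 0 < δ₀ := by positivity
  -- far
  have hFar : ‖∑ q ∈ (PFX K Z).filter (fun q => ¬ ∀ i, |mq A q i| ≤ δ₀), t q‖ ≤ η / 5 := by
    have hb : ∀ q ∈ (PFX K Z).filter (fun q => ¬ ∀ i, |mq A q i| ≤ δ₀), ‖t q‖ ≤ B ^ K * (3 * (δ * δ₀)⁻¹) := by
      intro q hq
      obtain ⟨hq1, hq2⟩ := mem_filter.1 hq
      push Not at hq2
      obtain ⟨i, hi⟩ := hq2
      have hqX := PFX_mono hZX hq1
      refine (htn q hqX).trans ?_
      have a1 : ‖∏ i, κ i (mq A q i)‖ ≤ 3 * (δ * δ₀)⁻¹ := by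
        rw [norm_prod, ← mul_prod_erase univ _ (mem_univ i)]
        have b1 : ∏ x ∈ univ.erase i, ‖κ x (mq A q x)‖ ≤ 1 :=
          prod_le_one (fun i _ => norm_nonneg _) (fun i _ => hκ1 i _)
        have b0 : 0 ≤ ∏ x ∈ univ.erase i, ‖κ x (mq A q x)‖ := prod_nonneg fun _ _ => norm_nonneg _
        have b2 : ‖κ i (mq A q i)‖ ≤ 3 * (δ * δ₀)⁻¹ := by
          refine (hκ2 i _).trans ?_
          apply mul_le_mul_of_nonneg_left _ (by norm_num)
          apply inv_anti₀ (by positivity)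
          nlinarith
        calc _ ≤ (3 * (δ * δ₀)⁻¹) * 1 := mul_le_mul b2 b1 b0 (by positivity)
          _ = _ := mul_one _
      have a2 := wq_le_one hqX
      have a3 := wq_nonneg q
      calc B ^ K * wq q * ‖∏ i, κ i (mq A q i)‖ ≤ B ^ K * 1 * (3 * (δ * δ₀)⁻¹) := by gcongr
        _ = _ := by ring
    calc ‖∑ q ∈ (PFX K Z).filter (fun q => ¬ ∀ i, |mq A q i| ≤ δ₀), t q‖
        ≤ ∑ q ∈ (PFX K Z).filter (fun q => ¬ ∀ i, |mq A q i| ≤ δ₀), ‖t q‖ := norm_sum_le _ _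
      _ ≤ ∑ _q ∈ (PFX K Z).filter (fun q => ¬ ∀ i, |mq A q i| ≤ δ₀), B ^ K * (3 * (δ * δ₀)⁻¹) := sum_le_sum hb
      _ = ((PFX K Z).filter (fun q => ¬ ∀ i, |mq A q i| ≤ δ₀)).card * (B ^ K * (3 * (δ * δ₀)⁻¹)) := by
          rw [sum_const, nsmul_eq_mul]
      _ ≤ T ^ (1 / 4 : ℝ) * (B ^ K * (3 * T ^ (-(1 / 2) + 1 / 64 : ℝ))) := by
          have a1 : (((PFX K Z).filter (fun q => ¬ ∀ i, |mq A q i| ≤ δ₀)).card : ℝ) ≤ T ^ (1 / 4 : ℝ) := by
            calc (((PFX K Z).filter (fun q => ¬ ∀ i, |mq A q i| ≤ δ₀)).card : ℝ) ≤ (PFX K Z).card := by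
                  exact_mod_cast card_filter_le _ _
              _ ≤ ((Z : ℝ) ^ 2) ^ K := PFX_card K Z
              _ ≤ ((T ^ e2) ^ 2) ^ K := by gcongr
              _ = T ^ (1 / 4 : ℝ) := by
                  rw [← pow_mul, ← Real.rpow_natCast, ← Real.rpow_mul hT0.le]
                  congr 1
                  rw [he2]; push_cast; field_simp; norm_num
          have a2 : (δ * δ₀)⁻¹ ≤ T ^ (-(1 / 2) + 1 / 64 : ℝ) := by
            have b1 : T ^ (1 / 2 - 1 / 64 : ℝ) ≤ δ * δ₀ := by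
              calc T ^ (1 / 2 - 1 / 64 : ℝ) ≤ T ^ (1 - e1 + -(1 / 2)) :=
                    Real.rpow_le_rpow_of_exponent_le hT1 (by linarith)
                _ = T ^ (1 - e1) * δ₀ := by rw [Real.rpow_add hT0]
                _ ≤ δ * δ₀ := by gcongr
            have b2 : (T ^ (1 / 2 - 1 / 64 : ℝ))⁻¹ = T ^ (-(1 / 2) + 1 / 64 : ℝ) := by
              rw [← Real.rpow_neg hT0.le]; congr 1; ring
            rw [← b2]
            exact inv_anti₀ (by positivity) b1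
          gcongr
      _ = B ^ K * 3 * T ^ (-(1 / 4) + 1 / 64 : ℝ) := by
          have : T ^ (1 / 4 : ℝ) * T ^ (-(1 / 2) + 1 / 64 : ℝ) = T ^ (-(1 / 4) + 1 / 64 : ℝ) := by
            rw [← Real.rpow_add hT0]; congr 1; ring
          rw [← this]; ring
      _ ≤ B ^ K * 3 * (T ^ (-(1 / 8) : ℝ) * Real.log T ^ 0) := by
          rw [pow_zero, mul_one]
          apply mul_le_mul_of_nonneg_left _ (by positivity)
          exact Real.rpow_le_rpow_of_exponent_le hT1 (by norm_num)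
      _ ≤ η / 5 := h3
  -- near, with a large height
  have hNear : ‖∑ q ∈ (PFX K Z).filter (fun q => (∀ i, |mq A q i| ≤ δ₀) ∧ ∃ j, (Z₀ : ℝ) + 1 ≤ ht (q j)), t q‖ ≤
      B ^ K * Cn * (Z₀ : ℝ) ^ (-(1 / 4) : ℝ) := by
    calc ‖∑ q ∈ (PFX K Z).filter (fun q => (∀ i, |mq A q i| ≤ δ₀) ∧ ∃ j, (Z₀ : ℝ) + 1 ≤ ht (q j)), t q‖
        ≤ ∑ q ∈ (PFX K Z).filter (fun q => (∀ i, |mq A q i| ≤ δ₀) ∧ ∃ j, (Z₀ : ℝ) + 1 ≤ ht (q j)), ‖t q‖ :=
          norm_sum_le _ _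
      _ ≤ ∑ q ∈ (PFX K Z).filter (fun q => (∀ i, |mq A q i| ≤ δ₀) ∧ ∃ j, (Z₀ : ℝ) + 1 ≤ ht (q j)), B ^ K * wq q := by
          refine sum_le_sum fun q hq => ?_
          have hqX := PFX_mono hZX (mem_filter.1 hq).1
          refine (htn q hqX).trans ?_
          have := hκn q
          have h0 : 0 ≤ B ^ K * wq q := mul_nonneg hB0.le (wq_nonneg q)
          calc _ ≤ B ^ K * wq q * 1 := mul_le_mul_of_nonneg_left this h0
            _ = _ := mul_one _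
      _ = B ^ K * ∑ q ∈ (PFX K Z).filter (fun q => (∀ i, |mq A q i| ≤ δ₀) ∧ ∃ j, (Z₀ : ℝ) + 1 ≤ ht (q j)), wq q := by
          rw [mul_sum]
      _ ≤ B ^ K * (Cn * ((Z₀ : ℝ) + 1) ^ (-(1 / 4) : ℝ)) := by
          apply mul_le_mul_of_nonneg_left _ hB0.le
          refine hnear Z δ₀ (Z₀ + 1) hZ1 hδ₀0.le ?_ (by linarith)
          refine le_trans ?_ h4
          rw [one_mul, pow_zero, mul_one]
          calc δ₀ * Z ≤ T ^ (-(1 / 2) : ℝ) * T ^ e2 := by rw [hδ₀]; gcongr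
            _ = T ^ (-(1 / 2) + e2) := by rw [← Real.rpow_add hT0]
            _ ≤ T ^ (-(1 / 4) : ℝ) := Real.rpow_le_rpow_of_exponent_le hT1 (by linarith)
      _ ≤ B ^ K * (Cn * (Z₀ : ℝ) ^ (-(1 / 4) : ℝ)) := by
          apply mul_le_mul_of_nonneg_left _ hB0.le
          apply mul_le_mul_of_nonneg_left _ (by linarith)
          exact Real.rpow_le_rpow_of_nonpos (by linarith) (by linarith) (by norm_num)
      _ = _ := by ring
  -- near, with small heights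
  have hset : (PFX K Z).filter (fun q => (∀ i, |mq A q i| ≤ δ₀) ∧ ¬ ∃ j, (Z₀ : ℝ) + 1 ≤ ht (q j)) = ResF A Z₀ := by
    ext q
    rw [mem_filter, mem_ResF]
    constructor
    · rintro ⟨ha, hb, hc⟩
      push Not at hc
      have h8 : ∀ j, (q j).1 * (q j).2 ≤ Z₀ := by
        intro j
        have := hc j
        unfold ht at this
        have : (q j).1 * (q j).2 < Z₀ + 1 := by exact_mod_cast this
        omega
      have hq0 : q ∈ PFX K Z₀ := by
        rw [mem_PFX]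
        intro j
        obtain ⟨c1, c2, c3, c4⟩ := mem_FR'.1 (mem_PFX.1 ha j)
        exact mem_FR'.2 ⟨c1, c2, h8 j, c4⟩
      refine ⟨?_, h8⟩
      by_contra hcon
      obtain ⟨i, hi⟩ := h1 q hq0 hcon
      exact absurd (hb i) (not_le.2 hi)
    · rintro ⟨ha, hb⟩
      have hq0 : q ∈ PFX K Z₀ := by
        rw [mem_PFX]
        intro j
        exact mem_FR'.2 ⟨(ha.1 j).1, (ha.1 j).2.1, hb j, (ha.1 j).2.2⟩
      refine ⟨PFX_mono hZZ₀ hq0, fun i => ?_, ?_⟩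
      · rw [ha.2 i, abs_zero]
        exact hδ₀0.le
      · rintro ⟨j, hj⟩
        have := ht_le (mem_PFX.1 hq0 j)
        linarith
  have hRes : ‖∑ q ∈ ResF A Z₀, t q - ∑ q ∈ ResF A Z₀, (wq q : ℂ)‖ ≤ η / 5 := by
    rw [← sum_sub_distrib]
    have hsub : ResF A Z₀ ⊆ PFX K Z₀ := by
      unfold ResF
      exact filter_subset _ _
    calc ‖∑ q ∈ ResF A Z₀, (t q - (wq q : ℂ))‖ ≤ ∑ q ∈ ResF A Z₀, ‖t q - (wq q : ℂ)‖ := norm_sum_le _ _
      _ ≤ ∑ _q ∈ ResF A Z₀, K * B ^ K * (B * (1 + Real.log Z₀) / Real.log T) := by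
          refine sum_le_sum fun q hq => ?_
          have hqR := (mem_ResF.1 hq).1
          have hq0 := hsub hq
          have hqX : q ∈ PFX K X := PFX_mono (hZZ₀.trans hZX) hq0
          have e1' : ∏ i, κ i (mq A q i) = 1 := by
            apply prod_eq_one
            intro i _
            rw [hqR.2 i, hκ0]
          have e2' : t q - (wq q : ℂ) = (wq q : ℂ) * (∏ j, β j (q j) - 1) := by
            simp only [ht']
            rw [e1']
            ring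
          rw [e2', norm_mul, Complex.norm_real, Real.norm_of_nonneg (wq_nonneg q)]
          have h9 := prod_sub_one_le (fun j => β j (q j)) hB (fun j => hβ1 j _ (mem_PFX.1 hqX j))
            (x := B * (1 + Real.log Z₀) / Real.log T) (fun j => by
              refine (hβ2 j _ (mem_PFX.1 hqX j) ?_).trans ?_
              · refine (ht_le (mem_PFX.1 hq0 j)).trans ?_
                calc (Z₀ : ℝ) ≤ T ^ e2 := by linarith
                  _ ≤ T ^ (1 / 4 : ℝ) := Real.rpow_le_rpow_of_exponent_le hT1 (by linarith)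
              · have hh1 := ht_ge (mem_PFX.1 hq0 j)
                have hh2 := ht_le (mem_PFX.1 hq0 j)
                have : Real.log (ht (q j)) ≤ Real.log Z₀ := Real.log_le_log (by linarith) hh2
                gcongr) univ
          rw [card_univ, Fintype.card_fin] at h9
          have h10 := wq_le_one hq0
          calc wq q * ‖∏ j, β j (q j) - 1‖ ≤ 1 * (K * B ^ K * (B * (1 + Real.log Z₀) / Real.log T)) :=
                mul_le_mul h10 h9 (norm_nonneg _) zero_le_one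
            _ = _ := one_mul _
      _ = (ResF A Z₀).card * (K * B ^ K * (B * (1 + Real.log Z₀) / Real.log T)) := by
          rw [sum_const, nsmul_eq_mul]
      _ ≤ (PFX K Z₀).card * (K * B ^ K * (B * (1 + Real.log Z₀) / Real.log T)) := by
          have hlZ : 0 ≤ Real.log Z₀ := Real.log_nonneg hZ₀r
          have : ((ResF A Z₀).card : ℝ) ≤ (PFX K Z₀).card := by exact_mod_cast card_le_card hsub
          gcongr
      _ = ((PFX K Z₀).card : ℝ) * (K * B ^ K * (B * (1 + Real.log Z₀))) / Real.log T := by ring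
      _ ≤ η / 5 := h7
  have hT' := htail Z₀ hZ₀
  -- the decomposition
  have hdec : ∑ q ∈ PFX K X, t q = ∑ q ∈ (PFX K X).filter (fun q => ∃ j, (Z : ℝ) + 1 ≤ ht (q j)), t q +
      (∑ q ∈ (PFX K Z).filter (fun q => (∀ i, |mq A q i| ≤ δ₀) ∧ ∃ j, (Z₀ : ℝ) + 1 ≤ ht (q j)), t q +
        ∑ q ∈ ResF A Z₀, t q + ∑ q ∈ (PFX K Z).filter (fun q => ¬ ∀ i, |mq A q i| ≤ δ₀), t q) := by
    rw [← sum_filter_add_sum_filter_not (PFX K X) (fun q => ∃ j, (Z : ℝ) + 1 ≤ ht (q j)), hPZ]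
    congr 1
    rw [← sum_filter_add_sum_filter_not (PFX K Z) (fun q => ∀ i, |mq A q i| ≤ δ₀)]
    congr 1
    rw [← sum_filter_add_sum_filter_not ((PFX K Z).filter (fun q => ∀ i, |mq A q i| ≤ δ₀))
      (fun q => ∃ j, (Z₀ : ℝ) + 1 ≤ ht (q j)), filter_filter, filter_filter, hset]
  have e3 : (∑ q ∈ ResF A Z₀, (wq q : ℂ)) = ((∑ q ∈ ResF A Z₀, wq q : ℝ) : ℂ) := by push_cast; rfl
  have hfin : ‖(∑ q ∈ ResF A Z₀, (wq q : ℂ)) - (Cst A : ℂ)‖ ≤ Ct * (Z₀ : ℝ) ^ (-(1 / 4) : ℝ) := by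
    rw [e3, ← Complex.ofReal_sub, Complex.norm_real, Real.norm_eq_abs, abs_sub_comm]
    exact hT'
  show ‖∑ q ∈ PFX K X, t q - (Cst A : ℂ)‖ ≤ η
  rw [hdec]
  set a := ∑ q ∈ (PFX K X).filter (fun q => ∃ j, (Z : ℝ) + 1 ≤ ht (q j)), t q
  set b := ∑ q ∈ (PFX K Z).filter (fun q => (∀ i, |mq A q i| ≤ δ₀) ∧ ∃ j, (Z₀ : ℝ) + 1 ≤ ht (q j)), t q
  set c := ∑ q ∈ ResF A Z₀, t q
  set e := ∑ q ∈ (PFX K Z).filter (fun q => ¬ ∀ i, |mq A q i| ≤ δ₀), t q
  set w := ∑ q ∈ ResF A Z₀, (wq q : ℂ)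
  have e4 : a + (b + c + e) - (Cst A : ℂ) = a + b + e + (c - w) + (w - (Cst A : ℂ)) := by ring
  rw [e4]
  calc ‖a + b + e + (c - w) + (w - (Cst A : ℂ))‖
      ≤ ‖a + b + e + (c - w)‖ + ‖w - (Cst A : ℂ)‖ := norm_add_le _ _
    _ ≤ ‖a + b + e‖ + ‖c - w‖ + ‖w - (Cst A : ℂ)‖ := by gcongr; exact norm_add_le _ _
    _ ≤ ‖a + b‖ + ‖e‖ + ‖c - w‖ + ‖w - (Cst A : ℂ)‖ := by gcongr; exact norm_add_le _ _
    _ ≤ ‖a‖ + ‖b‖ + ‖e‖ + ‖c - w‖ + ‖w - (Cst A : ℂ)‖ := by gcongr; exact norm_add_le _ _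
    _ ≤ η / 5 + B ^ K * Cn * (Z₀ : ℝ) ^ (-(1 / 4) : ℝ) + η / 5 + η / 5 + Ct * (Z₀ : ℝ) ^ (-(1 / 4) : ℝ) := by
        gcongr
    _ = 3 * (η / 5) + (B ^ K * Cn + Ct) * (Z₀ : ℝ) ^ (-(1 / 4) : ℝ) := by ring
    _ ≤ η := by linarith

end Pool.Agent.K1H51.ZL
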