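import Pool.Agent.K1H51.ZL.Lin

set_option autoImplicit false

/-!
Counting tuples of fractions with small linear combinations of their logarithms.
-/

namespace Pool.Agent.K1H51.ZL

open Finset
open Pool.Agent.Y969.GP (ht lam FR mk S_SP)
open Pool.Agent.Y379.GP (mem_FR t_SP sp1 harm card_FR)

/-- the tuples of reduced fractions of height at most `X` -/
def PFX (K X : ℕ) : Finset (Fin K → ℕ × ℕ) := Fintype.piFinset fun _ => FR X

/-- the weight of a tuple -/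
noncomputable def wq {K : ℕ} (q : Fin K → ℕ × ℕ) : ℝ := ∏ j, (√(ht (q j)))⁻¹

/-- the frequencies of a tuple -/
noncomputable def mq {K d : ℕ} (A : Fin K → Fin d → ℝ) (q : Fin K → ℕ × ℕ) (i : Fin d) : ℝ :=
  mu A (fun j => lam (q j)) i

lemma mem_PFX {K X : ℕ} {q : Fin K → ℕ × ℕ} : q ∈ PFX K X ↔ ∀ j, q j ∈ FR X := by
  unfold PFX
  rw [Fintype.mem_piFinset]

lemma ht_ge {X : ℕ} {p : ℕ × ℕ} (hp : p ∈ FR X) : 1 ≤ ht p := by
  obtain ⟨h1, h2, -⟩ := mem_FR hp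
  unfold ht
  have a : (1 : ℝ) ≤ p.1 := by exact_mod_cast h1
  have b : (1 : ℝ) ≤ p.2 := by exact_mod_cast h2
  nlinarith

lemma ht_le {X : ℕ} {p : ℕ × ℕ} (hp : p ∈ FR X) : ht p ≤ X := by
  obtain ⟨h1, h2, h3, -⟩ := mem_FR hp
  unfold ht
  exact_mod_cast h3

lemma lam_le {X : ℕ} {p : ℕ × ℕ} (hp : p ∈ FR X) : |lam p| ≤ Real.log X := by
  obtain ⟨h1, h2, h3, -, h4, h5⟩ := mem_FR hp
  unfold lam
  have a : (0 : ℝ) < p.1 := by exact_mod_cast h1
  have b : (0 : ℝ) < p.2 := by exact_mod_cast h2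
  have a1 : 0 ≤ Real.log p.1 := Real.log_nonneg (by exact_mod_cast h1)
  have b1 : 0 ≤ Real.log p.2 := Real.log_nonneg (by exact_mod_cast h2)
  have a2 : Real.log p.1 ≤ Real.log X := Real.log_le_log a (by exact_mod_cast h4)
  have b2 : Real.log p.2 ≤ Real.log X := Real.log_le_log b (by exact_mod_cast h5)
  rw [abs_le]
  constructor <;> linarith

lemma wq_nonneg {K : ℕ} (q : Fin K → ℕ × ℕ) : 0 ≤ wq q :=
  prod_nonneg fun j _ => inv_nonneg.2 (Real.sqrt_nonneg _)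

lemma wq_le {K d X : ℕ} (hd : 1 ≤ d) (hK : d ≤ K) (hK2 : K + 1 ≤ 2 * d) {q : Fin K → ℕ × ℕ}
    (hq : q ∈ PFX K X) (F : Finset (Fin K)) (hF : F.card = K - d)
    (h : ∀ j ∈ F, ∀ i, i ∉ F → ht (q j) ≤ ht (q i)) (j1 : Fin K) :
    wq q ≤ (∏ j ∈ F, (ht (q j))⁻¹) * (√(ht (q j1)))⁻¹ := by
  have h1 : ∀ j, 1 ≤ ht (q j) := fun j => ht_ge (mem_PFX.1 hq j)
  have h2 := prod_ge hd hK hK2 (fun j => ht (q j)) h1 F hF h j1
  have h0 : ∀ (G : Finset (Fin K)), 0 < ∏ j ∈ G, ht (q j) := fun G =>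
    prod_pos fun j _ => by linarith [h1 j]
  have e1 : wq q = (√(∏ j, ht (q j)))⁻¹ := by
    unfold wq
    rw [prod_inv_distrib, Real.sqrt_prod _ (fun j _ => by linarith [h1 j])]
  have e2 : (∏ j ∈ F, (ht (q j))⁻¹) * (√(ht (q j1)))⁻¹ = (√((∏ j ∈ F, ht (q j)) ^ 2 * ht (q j1)))⁻¹ := by
    rw [prod_inv_distrib, Real.sqrt_mul (by positivity), Real.sqrt_sq (h0 F).le, mul_inv]
  rw [e1, e2]
  apply inv_anti₀
  · apply Real.sqrt_pos.2
    have := h1 j1
    have := h0 F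
    positivity
  · exact Real.sqrt_le_sqrt h2

/-- the places in `F` are kept -/
def rF {K : ℕ} (F : Finset (Fin K)) (q : Fin K → ℕ × ℕ) : Fin K → ℕ × ℕ :=
  fun j => if j ∈ F then q j else (1, 1)

lemma glue_sum {K X : ℕ} (F : Finset (Fin K)) (Q : Finset (Fin K → ℕ × ℕ)) (hQ : Q ⊆ PFX K X)
    (φ : ℕ × ℕ → ℝ) (hφ : ∀ p ∈ FR X, 0 ≤ φ p) (v : (Fin K → ℕ × ℕ) → ℝ) (V : ℝ)
    (h : ∀ g, ∑ q ∈ Q.filter (fun q => rF F q = g), v q ≤ V) :
    ∑ q ∈ Q, (∏ j ∈ F, φ (q j)) * v q ≤ V * (∑ p ∈ FR X, φ p) ^ F.card := by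
  classical
  set S : Fin K → Finset (ℕ × ℕ) := fun j => if j ∈ F then FR X else {(1, 1)} with hS
  have hmaps : ∀ q ∈ Q, rF F q ∈ Fintype.piFinset S := by
    intro q hq
    rw [Fintype.mem_piFinset]
    intro j
    simp only [hS, rF]
    split_ifs with hj
    · exact mem_PFX.1 (hQ hq) j
    · exact mem_singleton_self _
  rw [← sum_fiberwise_of_maps_to hmaps]
  have h1 : ∀ g ∈ Fintype.piFinset S, ∑ q ∈ Q.filter (fun q => rF F q = g), (∏ j ∈ F, φ (q j)) * v q ≤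
      (∏ j ∈ F, φ (g j)) * V := by
    intro g hg
    rw [Fintype.mem_piFinset] at hg
    have e : ∑ q ∈ Q.filter (fun q => rF F q = g), (∏ j ∈ F, φ (q j)) * v q =
        (∏ j ∈ F, φ (g j)) * ∑ q ∈ Q.filter (fun q => rF F q = g), v q := by
      rw [mul_sum]
      refine sum_congr rfl fun q hq => ?_
      congr 1
      refine prod_congr rfl fun j hj => ?_
      rw [← (mem_filter.1 hq).2]
      simp only [rF, if_pos hj]
    rw [e]
    apply mul_le_mul_of_nonneg_left (h g)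
    refine prod_nonneg fun j hj => hφ _ ?_
    have := hg j
    simpa only [hS, if_pos hj] using this
  refine (sum_le_sum h1).trans (le_of_eq ?_)
  rw [← sum_mul, mul_comm]
  congr 1
  have e2 : ∀ g : Fin K → ℕ × ℕ, ∏ j ∈ F, φ (g j) = ∏ j, (if j ∈ F then φ (g j) else 1) := by
    intro g
    rw [prod_ite_mem, univ_inter]
  simp_rw [e2]
  rw [← prod_univ_sum S (fun j p => if j ∈ F then φ p else 1)]
  have e3 : ∀ j, ∑ p ∈ S j, (if j ∈ F then φ p else 1) = if j ∈ F then ∑ p ∈ FR X, φ p else 1 := by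
    intro j
    simp only [hS]
    split_ifs with hj
    · rfl
    · simp
  simp_rw [e3]
  rw [prod_ite_mem, univ_inter, prod_const]

lemma lam_close {K d : ℕ} {A : Fin K → Fin d → ℝ} {C : ℝ}
    (hC : ∀ S : Finset (Fin K), S.card = d → ∀ (l : Fin K → ℝ), (∀ j, j ∉ S → l j = 0) → ∀ m : ℝ,
      0 ≤ m → (∀ i, |mu A l i| ≤ m) → ∀ j, |l j| ≤ C * m) (hK : d ≤ K)
    (F : Finset (Fin K)) (hF : F.card = K - d) {q q' : Fin K → ℕ × ℕ} (hr : rF F q = rF F q') {m : ℝ}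
    (hm : 0 ≤ m) (h : ∀ i, |mq A q i - mq A q' i| ≤ m) (j : Fin K) : |lam (q j) - lam (q' j)| ≤ C * m := by
  classical
  have hc : (univ \ F).card = d := by
    rw [card_sdiff_of_subset (subset_univ _), card_univ, Fintype.card_fin, hF]
    omega
  refine hC (univ \ F) hc (fun j => lam (q j) - lam (q' j)) (fun j hj => ?_) m hm (fun i => ?_) j
  · have hjF : j ∈ F := by
      by_contra hh
      exact hj (mem_sdiff.2 ⟨mem_univ _, hh⟩)
    have h1 := congrFun hr j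
    simp only [rF, if_pos hjF] at h1
    rw [h1, sub_self]
  · rw [mu_sub]
    exact h i

/-- the number of fractions in a short interval -/
lemma short_card : ∃ C : ℝ, 1 ≤ C ∧ ∀ (X : ℕ) (δ c θ : ℝ), 1 ≤ X → 1 ≤ δ → 0 ≤ c →
    (((FR X).filter (fun p => |lam p - θ| ≤ c / δ)).card : ℝ) ≤
      (1 + c) * (C * ((1 + X / δ) * (1 + Real.log X))) := by
  obtain ⟨-, C, hC, hrow⟩ := t_SP
  refine ⟨max C 1, le_max_right _ _, fun X δ c θ hX hδ hc => ?_⟩
  have hδ0 : 0 < δ := by linarith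
  have h1 := hrow X δ θ hX hδ
  have hX1 : (1 : ℝ) ≤ X := by exact_mod_cast hX
  have hlog : 0 ≤ Real.log X := Real.log_nonneg hX1
  have h2 : ∀ p ∈ (FR X).filter (fun p => |lam p - θ| ≤ c / δ), δ / (1 + c) ≤ mk δ (lam p - θ) := by
    intro p hp
    have h3 := (mem_filter.1 hp).2
    unfold Pool.Agent.Y969.GP.mk
    apply div_le_div_of_nonneg_left hδ0.le (by positivity)
    rw [le_div_iff₀ hδ0] at h3
    linarith
  have h4 : (((FR X).filter (fun p => |lam p - θ| ≤ c / δ)).card : ℝ) * (δ / (1 + c)) ≤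
      C * ((δ + X) * (1 + Real.log X)) := by
    calc (((FR X).filter (fun p => |lam p - θ| ≤ c / δ)).card : ℝ) * (δ / (1 + c))
        = ∑ _p ∈ (FR X).filter (fun p => |lam p - θ| ≤ c / δ), δ / (1 + c) := by
          rw [sum_const, nsmul_eq_mul]
      _ ≤ ∑ p ∈ (FR X).filter (fun p => |lam p - θ| ≤ c / δ), mk δ (lam p - θ) := sum_le_sum h2
      _ ≤ ∑ p ∈ FR X, mk δ (lam p - θ) := by
          apply sum_le_sum_of_subset_of_nonneg (filter_subset _ _)
          intro p _ _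
          unfold Pool.Agent.Y969.GP.mk
          positivity
      _ ≤ _ := h1
  rw [mul_div_assoc', div_le_iff₀ (by positivity)] at h4
  have h5 : C * ((δ + X) * (1 + Real.log X)) * (1 + c) =
      ((1 + c) * (C * ((1 + X / δ) * (1 + Real.log X)))) * δ := by
    field_simp
  rw [h5] at h4
  have h6 := le_of_mul_le_mul_right h4 hδ0
  refine h6.trans ?_
  have : C ≤ max C 1 := le_max_left _ _
  gcongr

lemma sum_Icc_inv (R : ℕ) : ∑ k ∈ Icc (-(R : ℤ)) R, (1 + |(k : ℝ)|)⁻¹ ≤ 2 * (1 + Real.log (R + 1)) := by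
  classical
  have hm : ∀ k ∈ Icc (-(R : ℤ)) R, k.natAbs ∈ range (R + 1) := by
    intro k hk
    rw [mem_Icc] at hk
    rw [mem_range]
    omega
  rw [← sum_fiberwise_of_maps_to hm]
  have h1 : ∀ n ∈ range (R + 1), ∑ k ∈ (Icc (-(R : ℤ)) R).filter (fun k => k.natAbs = n), (1 + |(k : ℝ)|)⁻¹ ≤
      2 * (1 / ((n + 1 : ℕ) : ℝ)) := by
    intro n _
    have hc : ((Icc (-(R : ℤ)) R).filter (fun k => k.natAbs = n)).card ≤ 2 := by
      have : (Icc (-(R : ℤ)) R).filter (fun k => k.natAbs = n) ⊆ {(n : ℤ), -(n : ℤ)} := by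
        intro k hk
        have := (mem_filter.1 hk).2
        rw [mem_insert, mem_singleton]
        omega
      exact (card_le_card this).trans card_le_two
    calc ∑ k ∈ (Icc (-(R : ℤ)) R).filter (fun k => k.natAbs = n), (1 + |(k : ℝ)|)⁻¹
        = ∑ _k ∈ (Icc (-(R : ℤ)) R).filter (fun k => k.natAbs = n), 1 / ((n + 1 : ℕ) : ℝ) := by
          refine sum_congr rfl fun k hk => ?_
          have h2 := (mem_filter.1 hk).2
          have h3 : |(k : ℝ)| = n := by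
            rw [← h2, Nat.cast_natAbs, Int.cast_abs]
          rw [h3, one_div]
          push_cast
          rw [add_comm]
      _ = ((Icc (-(R : ℤ)) R).filter (fun k => k.natAbs = n)).card * (1 / ((n + 1 : ℕ) : ℝ)) := by
          rw [sum_const, nsmul_eq_mul]
      _ ≤ 2 * (1 / ((n + 1 : ℕ) : ℝ)) := by
          apply mul_le_mul_of_nonneg_right _ (by positivity)
          exact_mod_cast hc
  refine (sum_le_sum h1).trans ?_
  rw [← mul_sum]
  apply mul_le_mul_of_nonneg_left _ (by norm_num)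
  have h2 := harm (R + 1)
  have e : ∑ n ∈ range (R + 1), 1 / ((n + 1 : ℕ) : ℝ) = ∑ j ∈ Icc 1 (R + 1), 1 / (j : ℝ) := by
    rw [range_eq_Ico, sum_Ico_add' (fun j : ℕ => 1 / (j : ℝ)) 0 (R + 1) 1]
    rfl
  rw [e]
  refine h2.trans ?_
  push_cast
  exact le_refl _

end Pool.Agent.K1H51.ZL
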