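import Mathlib
import Pool.Agent.Y969.GP.Def
import Pool.Agent.Y379.GP.Sp

set_option autoImplicit false

/-!
Linear forms in general position: linear algebra and the combinatorics of the heights.
-/

namespace Pool.Agent.K1H51.ZL

open Finset
open Pool.Agent.Y969.GP (ht lam FR)

/-- every `d` of the forms are linearly independent -/
def GenPos {K d : ℕ} (A : Fin K → Fin d → ℝ) : Prop :=
  ∀ S : Finset (Fin K), S.card = d → LinearIndependent ℝ (fun j : S => A j)

/-- the dual map -/
def mu {K d : ℕ} (A : Fin K → Fin d → ℝ) (l : Fin K → ℝ) (i : Fin d) : ℝ := ∑ j, A j i * l j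

lemma mu_sub {K d : ℕ} (A : Fin K → Fin d → ℝ) (l m : Fin K → ℝ) (i : Fin d) :
    mu A (fun j => l j - m j) i = mu A l i - mu A m i := by
  unfold mu
  rw [← sum_sub_distrib]
  exact sum_congr rfl fun j _ => by ring

lemma mu_abs {K d : ℕ} (A : Fin K → Fin d → ℝ) : ∃ C : ℝ, 1 ≤ C ∧ ∀ (l : Fin K → ℝ) (m : ℝ),
    (∀ j, |l j| ≤ m) → 0 ≤ m → ∀ i, |mu A l i| ≤ C * m := by
  refine ⟨1 + ∑ j, ∑ i, |A j i|, ?_, fun l m hl hm i => ?_⟩
  · have : 0 ≤ ∑ j, ∑ i, |A j i| := sum_nonneg fun j _ => sum_nonneg fun i _ => abs_nonneg _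
    linarith
  · unfold mu
    calc |∑ j, A j i * l j| ≤ ∑ j, |A j i * l j| := abs_sum_le_sum_abs _ _
      _ ≤ ∑ j, (∑ i, |A j i|) * m := by
          refine sum_le_sum fun j _ => ?_
          rw [abs_mul]
          have h1 : |A j i| ≤ ∑ i, |A j i| :=
            single_le_sum (f := fun i => |A j i|) (fun i _ => abs_nonneg _) (mem_univ i)
          have h2 := abs_nonneg (A j i)
          have h3 := hl j
          have h4 := abs_nonneg (l j)
          exact mul_le_mul h1 h3 h4 (h2.trans h1)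
      _ = (∑ j, ∑ i, |A j i|) * m := by rw [sum_mul]
      _ ≤ (1 + ∑ j, ∑ i, |A j i|) * m := by nlinarith

/-- the frequencies on `d` places are controlled by the dual map -/
lemma inj {K d : ℕ} {A : Fin K → Fin d → ℝ} (hA : GenPos A) : ∃ C : ℝ, 1 ≤ C ∧
    ∀ S : Finset (Fin K), S.card = d → ∀ (l : Fin K → ℝ), (∀ j, j ∉ S → l j = 0) → ∀ m : ℝ,
      0 ≤ m → (∀ i, |mu A l i| ≤ m) → ∀ j, |l j| ≤ C * m := by
  classical
  have h1 : ∀ S : Finset (Fin K), ∃ C : ℝ, 0 ≤ C ∧ (S.card = d → ∀ (l : Fin K → ℝ),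
      (∀ j, j ∉ S → l j = 0) → ∀ m : ℝ, 0 ≤ m → (∀ i, |mu A l i| ≤ m) → ∀ j, |l j| ≤ C * m) := by
    intro S
    by_cases hS : S.card = d
    · have hli := hA S hS
      rw [linearIndependent_iff_injective_fintypeLinearCombination] at hli
      set f : (S → ℝ) →ₗ[ℝ] (Fin d → ℝ) := Fintype.linearCombination ℝ (fun j : S => A j) with hf
      have hker : LinearMap.ker f = ⊥ := LinearMap.ker_eq_bot.2 hli
      obtain ⟨c, hc, hanti⟩ := LinearMap.exists_antilipschitzWith f hker
      refine ⟨c, c.2, fun _ l hl m hm hmu j => ?_⟩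
      by_cases hj : j ∈ S
      · set v : S → ℝ := fun s => l s with hv
        have e1 : ∀ i, f v i = mu A l i := by
          intro i
          rw [hf, Fintype.linearCombination_apply]
          simp only [Finset.sum_apply, Pi.smul_apply, smul_eq_mul]
          unfold mu
          rw [← sum_subset (subset_univ S) (f := fun j => A j i * l j) (fun x _ hx => by
            rw [hl x hx, mul_zero])]
          rw [← sum_coe_sort S (fun j => A j i * l j)]
          exact sum_congr rfl fun s _ => by rw [hv]; ring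
        have h2 := hanti.le_mul_dist v 0
        rw [map_zero, dist_zero_right, dist_zero_right] at h2
        have h3 : ‖f v‖ ≤ m := by
          rw [pi_norm_le_iff_of_nonneg hm]
          intro i
          rw [e1 i, Real.norm_eq_abs]
          exact hmu i
        have h4 : ‖v ⟨j, hj⟩‖ ≤ ‖v‖ := norm_le_pi_norm v _
        rw [Real.norm_eq_abs] at h4
        calc |l j| = |v ⟨j, hj⟩| := rfl
          _ ≤ ‖v‖ := h4
          _ ≤ c * ‖f v‖ := h2
          _ ≤ c * m := mul_le_mul_of_nonneg_left h3 c.2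
      · rw [hl j hj, abs_zero]
        exact mul_nonneg c.2 hm
    · exact ⟨0, le_refl _, fun h => absurd h hS⟩
  choose C hC0 hC using h1
  refine ⟨1 + ∑ S, C S, ?_, fun S hS l hl m hm hmu j => ?_⟩
  · have : 0 ≤ ∑ S, C S := sum_nonneg fun S _ => hC0 S
    linarith
  · refine (hC S hS l hl m hm hmu j).trans ?_
    apply mul_le_mul_of_nonneg_right _ hm
    have : C S ≤ ∑ S, C S := single_le_sum (f := C) (fun S _ => hC0 S) (mem_univ S)
    linarith

/-- a set of `m` places with the smallest values -/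
lemma exists_small {K : ℕ} (f : Fin K → ℝ) (m : ℕ) (hm : m ≤ K) :
    ∃ F : Finset (Fin K), F.card = m ∧ ∀ j ∈ F, ∀ i, i ∉ F → f j ≤ f i := by
  induction m with
  | zero => exact ⟨∅, rfl, by simp⟩
  | succ m ih =>
    obtain ⟨F, hF, h⟩ := ih (by omega)
    have hne : (univ \ F).Nonempty := by
      rw [← card_pos, card_sdiff_of_subset (subset_univ _), card_univ, Fintype.card_fin, hF]
      omega
    obtain ⟨k, hk, hkm⟩ := exists_min_image (univ \ F) f hne
    have hkF : k ∉ F := (mem_sdiff.1 hk).2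
    refine ⟨insert k F, by rw [card_insert_of_notMem hkF, hF], fun j hj i hi => ?_⟩
    have hi1 : i ≠ k ∧ i ∉ F := by
      rw [mem_insert] at hi
      exact ⟨fun h => hi (Or.inl h), fun h => hi (Or.inr h)⟩
    rcases mem_insert.1 hj with rfl | hj
    · exact hkm i (mem_sdiff.2 ⟨mem_univ _, hi1.2⟩)
    · exact h j hj i hi1.2

/-- the product of the small heights squared times any height is at most the product of all heights -/
lemma prod_ge {K d : ℕ} (hd : 1 ≤ d) (hK : d ≤ K) (hK2 : K + 1 ≤ 2 * d) (f : Fin K → ℝ)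
    (hf : ∀ j, 1 ≤ f j) (F : Finset (Fin K)) (hF : F.card = K - d)
    (h : ∀ j ∈ F, ∀ i, i ∉ F → f j ≤ f i) (j1 : Fin K) :
    (∏ j ∈ F, f j) ^ 2 * f j1 ≤ ∏ j, f j := by
  classical
  have hDc : (univ \ F).card = d := by
    rw [card_sdiff_of_subset (subset_univ _), card_univ, Fintype.card_fin, hF]
    omega
  have hDne : (univ \ F).Nonempty := by
    rw [← card_pos, hDc]; omega
  -- a place outside `F` with a value at least `f j1`
  obtain ⟨j0, hj0, hj01⟩ : ∃ j0 ∈ univ \ F, f j1 ≤ f j0 := by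
    by_cases hj : j1 ∈ F
    · obtain ⟨k, hk⟩ := hDne
      exact ⟨k, hk, h j1 hj k (mem_sdiff.1 hk).2⟩
    · exact ⟨j1, mem_sdiff.2 ⟨mem_univ _, hj⟩, le_refl _⟩
  have e1 : ∏ j, f j = (∏ j ∈ F, f j) * (f j0 * ∏ j ∈ (univ \ F).erase j0, f j) := by
    rw [mul_prod_erase _ _ hj0, mul_comm, prod_sdiff (subset_univ F)]
  have h0 : ∀ (G : Finset (Fin K)), 1 ≤ ∏ j ∈ G, f j := fun G => by
    have := prod_le_prod (s := G) (f := fun _ => (1:ℝ)) (g := f) (fun j _ => zero_le_one) (fun j _ => hf j)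
    simpa using this
  have h2 : ∏ j ∈ F, f j ≤ ∏ j ∈ (univ \ F).erase j0, f j := by
    have hc : ((univ \ F).erase j0).card = d - 1 := by rw [card_erase_of_mem hj0, hDc]
    rcases F.eq_empty_or_nonempty with hE | hE
    · rw [hE]; simpa using h0 _
    · obtain ⟨f0, hf0, hmax⟩ := exists_max_image F f hE
      have h3 : ∏ j ∈ F, f j ≤ f f0 ^ F.card :=
        by
          rw [← prod_const]
          exact prod_le_prod (fun j _ => by linarith [hf j]) hmax
      have h4 : f f0 ^ ((univ \ F).erase j0).card ≤ ∏ j ∈ (univ \ F).erase j0, f j := by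
        rw [← prod_const]
        apply prod_le_prod
        · intro j _; linarith [hf f0]
        · intro j hj
          exact h f0 hf0 j (mem_sdiff.1 (mem_of_mem_erase hj)).2
      refine h3.trans (le_trans ?_ h4)
      apply pow_le_pow_right₀ (hf f0)
      rw [hc, hF]
      omega
  rw [e1]
  have hF0 : 0 ≤ ∏ j ∈ F, f j := le_trans zero_le_one (h0 F)
  have hj10 : 0 ≤ f j1 := by linarith [hf j1]
  calc (∏ j ∈ F, f j) ^ 2 * f j1 = (∏ j ∈ F, f j) * (f j1 * ∏ j ∈ F, f j) := by ring
    _ ≤ (∏ j ∈ F, f j) * (f j0 * ∏ j ∈ (univ \ F).erase j0, f j) := by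
        apply mul_le_mul_of_nonneg_left _ hF0
        exact mul_le_mul hj01 h2 hF0 (hj10.trans hj01)

end Pool.Agent.K1H51.ZL
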