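import Pool.Agent.K1H51.ZL.Cnt
import Pool.Agent.Y125.GP.LSW

set_option autoImplicit false

/-!
The mean square of a trigonometric sum over reduced fractions with amplitudes of bounded variation.
-/

namespace Pool.Agent.K1H51.ZL

open MeasureTheory Set
open Complex (I)
open Pool.Agent.Y969.GP (ht lam FR)
open Pool.Agent.Y379.GP (t_SP)
open Pool.Agent.Y125.GP (one_coord mk_nonneg mk_comm)

theorem mv : ∃ C : ℝ, 1 ≤ C ∧ ∀ (X : ℕ) (a b : ℝ), 1 ≤ X → 1 ≤ b → 0 ≤ a → a ≤ b →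
    ∀ (A A' : ℕ × ℕ → ℝ → ℂ) (w : ℕ × ℕ → ℝ),
    (∀ p ∈ FR X, ∀ x ∈ Icc a b, HasDerivAt (A p) (A' p x) x) →
    (∀ p ∈ FR X, ContinuousOn (A' p) (Icc a b)) →
    (∀ p ∈ FR X, ∀ x ∈ Icc a b, ‖A p x‖ ≤ w p) →
    (∀ p ∈ FR X, ∫ x in a..b, ‖A' p x‖ ≤ w p) →
    ∫ x in Icc a b, ‖∑ p ∈ FR X, A p x * Complex.exp (I * ((x * lam p : ℝ) : ℂ))‖ ^ 2 ≤
      C * ((b + X) * (1 + Real.log X)) * ∑ p ∈ FR X, w p ^ 2 := by
  obtain ⟨-, C, hC, hrow⟩ := t_SP
  refine ⟨max 1 (8 * C), le_max_left _ _, ?_⟩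
  intro X a b hX hb ha hab A A' w hA hA' hAw hAi
  have hb0 : 0 < b := by linarith
  have hX1 : (1 : ℝ) ≤ X := by exact_mod_cast hX
  have hlog : 0 ≤ Real.log X := Real.log_nonneg hX1
  set F : ℕ × ℕ → ℝ → ℂ := fun p x => A p x * Complex.exp (I * ((x * lam p : ℝ) : ℂ)) with hF
  have hw0 : ∀ p ∈ FR X, 0 ≤ w p := fun p hp =>
    (norm_nonneg _).trans (hAw p hp a ⟨le_refl _, hab⟩)
  have hcF : ∀ p ∈ FR X, ContinuousOn (F p) (Icc a b) := by
    intro p hp x hx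
    apply ContinuousAt.continuousWithinAt
    apply ContinuousAt.mul (hA p hp x hx).continuousAt
    fun_prop
  have e1 : ∀ x : ℝ, ((‖∑ p ∈ FR X, F p x‖ ^ 2 : ℝ) : ℂ) =
      ∑ p ∈ FR X, ∑ q ∈ FR X, F p x * (starRingEnd ℂ) (F q x) := by
    intro x
    push_cast
    rw [← Complex.mul_conj', map_sum, Finset.sum_mul_sum]
  have hint : ∀ p ∈ FR X, ∀ q ∈ FR X, IntegrableOn (fun x => F p x * (starRingEnd ℂ) (F q x)) (Icc a b) := by
    intro p hp q hq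
    exact (ContinuousOn.mul (hcF p hp)
      (Complex.continuous_conj.comp_continuousOn (hcF q hq))).integrableOn_compact isCompact_Icc
  have e2 : ((∫ x in Icc a b, ‖∑ p ∈ FR X, F p x‖ ^ 2 : ℝ) : ℂ) =
      ∑ p ∈ FR X, ∑ q ∈ FR X, ∫ x in Icc a b, (F p x * (starRingEnd ℂ) (F q x)) := by
    rw [← integral_complex_ofReal]
    simp_rw [e1]
    rw [integral_finsetSum _ (fun p hp => integrable_finsetSum _ (fun q hq => hint p hp q hq))]
    exact Finset.sum_congr rfl fun p hp => integral_finsetSum _ (fun q hq => hint p hp q hq)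
  set k : ℕ × ℕ → ℕ × ℕ → ℝ := fun p q => 8 * Pool.Agent.Y969.GP.mk b (lam p - lam q) with hk
  have hk0 : ∀ p q, 0 ≤ k p q := fun p q => mul_nonneg (by norm_num) (mk_nonneg hb0.le _)
  have hks : ∀ p q, k p q = k q p := by
    intro p q
    simp only [hk]
    rw [mk_comm]
  have e3 : ∀ p ∈ FR X, ∀ q ∈ FR X, ‖∫ x in Icc a b, (F p x * (starRingEnd ℂ) (F q x))‖ ≤
      w p * w q * k p q := by
    intro p hp q hq
    exact one_coord ha hab hb0 (hA p hp) (hA' p hp) (hAw p hp) (hAi p hp) (hA q hq) (hA' q hq)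
      (hAw q hq) (hAi q hq)
  have hrowk : ∀ p ∈ FR X, ∑ q ∈ FR X, k p q ≤ 8 * C * ((b + X) * (1 + Real.log X)) := by
    intro p _
    simp only [hk]
    rw [← Finset.mul_sum]
    have := hrow X b (lam p) hX hb
    simp_rw [mk_comm b (lam p)]
    calc 8 * ∑ q ∈ FR X, Pool.Agent.Y969.GP.mk b (lam q - lam p) ≤
        8 * (C * ((b + X) * (1 + Real.log X))) := by gcongr
      _ = _ := by ring
  have e5 : ∫ x in Icc a b, ‖∑ p ∈ FR X, F p x‖ ^ 2 ≤ ∑ p ∈ FR X, ∑ q ∈ FR X, w p * w q * k p q := by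
    have h0 : 0 ≤ ∫ x in Icc a b, ‖∑ p ∈ FR X, F p x‖ ^ 2 := integral_nonneg fun x => by positivity
    calc ∫ x in Icc a b, ‖∑ p ∈ FR X, F p x‖ ^ 2
        = ‖((∫ x in Icc a b, ‖∑ p ∈ FR X, F p x‖ ^ 2 : ℝ) : ℂ)‖ := by
          rw [Complex.norm_real, Real.norm_of_nonneg h0]
      _ ≤ _ := by
          rw [e2]
          refine (norm_sum_le _ _).trans (Finset.sum_le_sum fun p hp => ?_)
          exact (norm_sum_le _ _).trans (Finset.sum_le_sum fun q hq => e3 p hp q hq)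
  have e6 : ∑ p ∈ FR X, ∑ q ∈ FR X, w p * w q * k p q ≤ ∑ p ∈ FR X, w p ^ 2 * ∑ q ∈ FR X, k p q := by
    have h1 : ∑ p ∈ FR X, ∑ q ∈ FR X, w p * w q * k p q ≤
        ∑ p ∈ FR X, ∑ q ∈ FR X, ((w p ^ 2 * k p q) / 2 + (w q ^ 2 * k q p) / 2) := by
      refine Finset.sum_le_sum fun p _ => Finset.sum_le_sum fun q _ => ?_
      rw [hks q p]
      nlinarith [mul_nonneg (sq_nonneg (w p - w q)) (hk0 p q)]
    have h2 : ∑ p ∈ FR X, ∑ q ∈ FR X, ((w p ^ 2 * k p q) / 2 + (w q ^ 2 * k q p) / 2) =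
        ∑ p ∈ FR X, w p ^ 2 * ∑ q ∈ FR X, k p q := by
      simp_rw [Finset.sum_add_distrib]
      rw [Finset.sum_comm (f := fun p q => w q ^ 2 * k q p / 2)]
      rw [← Finset.sum_add_distrib]
      refine Finset.sum_congr rfl fun p _ => ?_
      rw [← Finset.sum_div, Finset.mul_sum]
      ring
    exact h1.trans h2.le
  refine (e5.trans e6).trans ?_
  rw [Finset.mul_sum]
  refine Finset.sum_le_sum fun p hp => ?_
  rw [mul_comm]
  apply mul_le_mul_of_nonneg_right _ (sq_nonneg _)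
  refine (hrowk p hp).trans ?_
  have : 0 ≤ (b + X) * (1 + Real.log X) := by positivity
  exact mul_le_mul_of_nonneg_right (le_max_right _ _) this

end Pool.Agent.K1H51.ZL
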