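import Pool.Agent.K1H51.ZL.Asm2

set_option autoImplicit false

/-!
The main term and the limit.
-/

namespace Pool.Agent.K1H51.ZL

open Finset MeasureTheory Filter Topology
open Complex (I)
open Pool.Agent.Y969.GP (ff ht lam FR cr PX)

set_option maxHeartbeats 4000000 in
theorem mainc {K d : ℕ} (hd : 1 ≤ d) (hK : d ≤ K) (hK2 : K + 1 ≤ 2 * d) {A : Fin K → Fin d → ℝ}
    (hA : GenPos A) {a b : Fin d → ℝ} (hab : ∀ i, a i < b i) {c₀ c : ℝ} (hc₀ : 0 < c₀) (hcc : 2 * c₀ ≤ c)
    (hc : 1 ≤ c) (hL : ∀ x ∈ Set.Icc a b, ∀ j, Lf A j x ∈ Set.Icc (2 * c₀) c) (η : ℝ) (hη : 0 < η) :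
    ∀ᶠ T : ℝ in atTop, ∀ (N X : ℕ), 1 ≤ N → (N : ℝ) ≤ 2 * T ^ (ex K d / 2) → (c * T) ^ (1 + ep K d) ≤ X →
      (X : ℝ) ≤ 3 * (c * T) ^ (1 + ep K d) → ∀ k : Fin d → Fin N,
      ‖(∫ x in bxc (crn (fun i => T * a i) (fun i => T * (b i - a i) / N) k)
          (fun i => T * (b i - a i) / N), ∏ j, P0 X
            (Lf A j (crn (fun i => T * a i) (fun i => T * (b i - a i) / N) k)) (Lf A j x)) -
        ((∏ i, T * (b i - a i) / N : ℝ) : ℂ) * ((Real.log T ^ K : ℝ) : ℂ) * (Cst A : ℂ)‖ ≤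
        (∏ i, T * (b i - a i) / N) * Real.log T ^ K * η := by
  classical
  have he0 := ex_pos hd hK
  have he1 := ex_le hd hK
  have hp0 := ep_pos hd hK
  have hp1 := ep_le hd hK
  set e := ex K d with he
  set ε := ep K d with hε
  obtain ⟨Cr, hCr, hcr⟩ := cr_facts
  obtain ⟨C', hC', hcra⟩ := Pool.Agent.Y620.SX.t_CRA' ε hp0
  have hc0 : 0 < c := by linarith
  obtain ⟨w0, hw0, hw1, hw2⟩ : ∃ w0 : ℝ, 0 < w0 ∧ w0 ≤ 1 ∧ ∀ i, w0 ≤ b i - a i := by
    have hne : (univ : Finset (Fin d)).Nonempty := ⟨⟨0, by omega⟩, mem_univ _⟩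
    obtain ⟨i0, -, hi0⟩ := exists_min_image univ (fun i => b i - a i) hne
    refine ⟨min 1 (b i0 - a i0), lt_min one_pos (by linarith [hab i0]), min_le_left _ _, fun i => ?_⟩
    exact (min_le_right _ _).trans (hi0 i (mem_univ _))
  set B : ℝ := 1 + 3 * Cr + |Real.log (2 * c₀)| + |Real.log c| + |Real.log (2 * Real.pi)| +
    2 * |Real.eulerMascheroniConstant| + C' with hB
  have hB1 : 1 ≤ B := by
    have : 0 ≤ 3 * Cr + |Real.log (2 * c₀)| + |Real.log c| + |Real.log (2 * Real.pi)| +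
      2 * |Real.eulerMascheroniConstant| + C' := by positivity
    rw [hB]
    linarith
  set M1 : ℝ := 3 * c ^ (1 + ε) with hM1
  filter_upwards [eventually_ge_atTop (3 : ℝ), eventually_ge_atTop (1 / (2 * c₀)),
    cell hd hK hK2 hA B hB1 η hη,
    small (e - ε) (by linarith) M1 one_pos,
    small (e / 2) (by linarith) 1 (by linarith : 0 < w0 / 2),
    small (1 / 4) (by norm_num) 1 (by positivity : 0 < (2 * c₀) ^ (1 / 2 : ℝ))] with T hT3 hTc hcell h1 h2 h3
  intro N X hN hN2 hX1 hX2 k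
  have hT0 : 0 < T := by linarith
  have hT1 : 1 ≤ T := by linarith
  have hN0 : (0 : ℝ) < N := by exact_mod_cast (by omega : 0 < N)
  have hN1 : (1 : ℝ) ≤ N := by exact_mod_cast hN
  have hL1 : 1 ≤ Real.log T := by
    rw [Real.le_log_iff_exp_le hT0]
    linarith [Real.exp_one_lt_d9]
  have hcT : 1 ≤ c * T := by nlinarith
  have hTX : T ≤ X := by
    calc T ≤ c * T := by nlinarith
      _ = (c * T) ^ (1 : ℝ) := (Real.rpow_one _).symm
      _ ≤ (c * T) ^ (1 + ε) := Real.rpow_le_rpow_of_exponent_le hcT (by linarith)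
      _ ≤ X := hX1
  have hX1' : 1 ≤ X := by
    have : (1 : ℝ) ≤ X := by linarith
    exact_mod_cast this
  have hXe : (X : ℝ) ≤ T ^ (1 + e) := by
    refine hX2.trans ?_
    rw [Real.mul_rpow hc0.le hT0.le]
    have e1 : T ^ (1 + ε) = T ^ (1 + e) * T ^ (-(e - ε)) := by
      rw [← Real.rpow_add hT0]
      congr 1
      ring
    calc 3 * (c ^ (1 + ε) * T ^ (1 + ε)) = T ^ (1 + e) * (M1 * T ^ (-(e - ε))) := by rw [e1]; ring
      _ ≤ T ^ (1 + e) * 1 := by gcongr
      _ = _ := mul_one _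
  have hlX : 1 + Real.log X ≤ 3 * Real.log T := by
    have h5 : Real.log X ≤ (1 + e) * Real.log T := by
      rw [← Real.log_rpow hT0]
      exact Real.log_le_log (by linarith) hXe
    have : (1 + e) * Real.log T ≤ 2 * Real.log T := by gcongr; linarith
    linarith
  set y : Fin d → ℝ := fun i => T * a i with hy
  set s : Fin d → ℝ := fun i => T * (b i - a i) / N with hs
  have hs0 : ∀ i, 0 < s i := fun i => div_pos (mul_pos hT0 (by linarith [hab i])) hN0
  set v : Fin K → ℝ := fun j => Lf A j (crn y s k) with hv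
  have hvI : ∀ j, v j ∈ Set.Icc (2 * c₀ * T) (c * T) := by
    intro j
    apply Lf_dil hL hT0
    apply cell_pt hT0 hN hab k
    intro i
    exact ⟨le_rfl, by have := hs0 i; linarith⟩
  have h2c : 1 ≤ 2 * c₀ * T := by
    rw [div_le_iff₀ (by positivity)] at hTc
    linarith
  set β : Fin K → ℕ × ℕ → ℂ := fun j p => ((√(ht p) * cr X p (v j) / Real.log T : ℝ) : ℂ) with hβ
  have hL0 : 0 < Real.log T := by linarith
  -- the bounds for `β`
  have b1 : ∀ j, ∀ p ∈ FR X, ‖β j p‖ ≤ B := by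
    intro j p hp
    have hv0 : 0 < v j := by linarith [(hvI j).1]
    have q1 := (hcr X p hp (v j) hv0).2.2.2.1
    have hh := ht_ge hp
    have hsq : 0 < √(ht p) := Real.sqrt_pos.2 (by linarith)
    rw [hβ]
    simp only []
    rw [Complex.norm_real, Real.norm_eq_abs, abs_div, abs_mul, abs_of_pos hsq, abs_of_pos hL0, div_le_iff₀ hL0]
    calc √(ht p) * |cr X p (v j)| ≤ √(ht p) * (Cr * (1 + Real.log X) * (√(ht p))⁻¹) := by gcongr
      _ = Cr * (1 + Real.log X) := by field_simp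
      _ ≤ Cr * (3 * Real.log T) := by gcongr
      _ = 3 * Cr * Real.log T := by ring
      _ ≤ B * Real.log T := by
          apply mul_le_mul_of_nonneg_right _ hL0.le
          rw [hB]
          have : 0 ≤ |Real.log (2 * c₀)| + |Real.log c| + |Real.log (2 * Real.pi)| +
            2 * |Real.eulerMascheroniConstant| + C' := by positivity
          linarith
  have b2 : ∀ j, ∀ p ∈ FR X, ht p ≤ T ^ (1 / 4 : ℝ) → ‖β j p - 1‖ ≤ B * (1 + Real.log (ht p)) / Real.log T := by
    intro j p hp hpT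
    have hv1 : 1 ≤ v j := h2c.trans (hvI j).1
    have hv0 : 0 < v j := by linarith
    have hh := ht_ge hp
    have hh0 : 0 < ht p := by linarith
    obtain ⟨hp1', hp2', -⟩ := Pool.Agent.Y379.GP.mem_FR hp
    have hvX : v j ^ (1 + ε) ≤ X := (Real.rpow_le_rpow hv0.le (hvI j).2 (by linarith)).trans hX1
    have hhv : ht p ≤ v j ^ (1 / 2 : ℝ) := by
      refine hpT.trans ?_
      have e1 : T ^ (1 / 4 : ℝ) = T ^ (1 / 2 : ℝ) * T ^ (-(1 / 4) : ℝ) := by
        rw [← Real.rpow_add hT0]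
        norm_num
      calc T ^ (1 / 4 : ℝ) = T ^ (1 / 2 : ℝ) * (1 * T ^ (-(1 / 4) : ℝ)) := by rw [e1]; ring
        _ ≤ T ^ (1 / 2 : ℝ) * (2 * c₀) ^ (1 / 2 : ℝ) := by gcongr
        _ = (2 * c₀ * T) ^ (1 / 2 : ℝ) := by
            rw [Real.mul_rpow (by positivity) hT0.le]
            ring
        _ ≤ v j ^ (1 / 2 : ℝ) := Real.rpow_le_rpow (by positivity) (hvI j).1 (by norm_num)
    have q1 := hcra X p (v j) hp1' hp2' hv1 hvX hhv
    have q2 : C' * v j ^ (-(1 / 4) : ℝ) ≤ C' := by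
      have : v j ^ (-(1 / 4) : ℝ) ≤ 1 := Real.rpow_le_one_of_one_le_of_nonpos hv1 (by norm_num)
      nlinarith
    have q3 : Real.log (v j / (2 * Real.pi * ht p)) = Real.log (v j) - Real.log (2 * Real.pi) - Real.log (ht p) := by
      rw [Real.log_div hv0.ne' (by positivity), Real.log_mul (by positivity) hh0.ne']
      ring
    have q4 : |Real.log (v j) - Real.log T| ≤ |Real.log (2 * c₀)| + |Real.log c| := by
      have r1 : Real.log (2 * c₀) + Real.log T ≤ Real.log (v j) := by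
        rw [← Real.log_mul (by positivity) hT0.ne']
        exact Real.log_le_log (by positivity) (hvI j).1
      have r2 : Real.log (v j) ≤ Real.log c + Real.log T := by
        rw [← Real.log_mul hc0.ne' hT0.ne']
        exact Real.log_le_log hv0 (hvI j).2
      have r3 := neg_abs_le (Real.log (2 * c₀))
      have r4 := le_abs_self (Real.log c)
      have r5 := abs_nonneg (Real.log c)
      have r6 := abs_nonneg (Real.log (2 * c₀))
      rw [abs_le]
      constructor <;> linarith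
    have q5 : |√(ht p) * cr X p (v j) - Real.log T| ≤ B * (1 + Real.log (ht p)) := by
      have hlh : 0 ≤ Real.log (ht p) := Real.log_nonneg hh
      rw [q3] at q1
      have e1 : √(ht p) * cr X p (v j) - Real.log T =
          (√(ht p) * cr X p (v j) - (Real.log (v j) - Real.log (2 * Real.pi) - Real.log (ht p) + 2 * Real.eulerMascheroniConstant)) +
          (Real.log (v j) - Real.log T) + (-Real.log (2 * Real.pi)) + (-Real.log (ht p)) + 2 * Real.eulerMascheroniConstant := by ring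
      rw [e1]
      have t1 := abs_add_le ((√(ht p) * cr X p (v j) - (Real.log (v j) - Real.log (2 * Real.pi) - Real.log (ht p) + 2 * Real.eulerMascheroniConstant)) +
          (Real.log (v j) - Real.log T) + (-Real.log (2 * Real.pi)) + (-Real.log (ht p))) (2 * Real.eulerMascheroniConstant)
      have t2 := abs_add_le ((√(ht p) * cr X p (v j) - (Real.log (v j) - Real.log (2 * Real.pi) - Real.log (ht p) + 2 * Real.eulerMascheroniConstant)) +
          (Real.log (v j) - Real.log T) + (-Real.log (2 * Real.pi))) (-Real.log (ht p))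
      have t3 := abs_add_le ((√(ht p) * cr X p (v j) - (Real.log (v j) - Real.log (2 * Real.pi) - Real.log (ht p) + 2 * Real.eulerMascheroniConstant)) +
          (Real.log (v j) - Real.log T)) (-Real.log (2 * Real.pi))
      have t4 := abs_add_le (√(ht p) * cr X p (v j) - (Real.log (v j) - Real.log (2 * Real.pi) - Real.log (ht p) + 2 * Real.eulerMascheroniConstant))
          (Real.log (v j) - Real.log T)
      rw [abs_neg] at t2 t3
      rw [abs_of_nonneg hlh] at t2
      have t5 : |2 * Real.eulerMascheroniConstant| = 2 * |Real.eulerMascheroniConstant| := by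
        rw [abs_mul, abs_of_pos (by norm_num : (0 : ℝ) < 2)]
      rw [t5] at t1
      have t6 : B * (1 + Real.log (ht p)) = B + B * Real.log (ht p) := by ring
      have t7 : Real.log (ht p) ≤ B * Real.log (ht p) := by nlinarith
      have t8 : |Real.log (2 * c₀)| + |Real.log c| + |Real.log (2 * Real.pi)| +
        2 * |Real.eulerMascheroniConstant| + C' ≤ B := by rw [hB]; linarith
      rw [t6]
      linarith
    have e2 : β j p - 1 = (((√(ht p) * cr X p (v j) - Real.log T) / Real.log T : ℝ) : ℂ) := by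
      rw [hβ]
      simp only []
      rw [sub_div, div_self hL0.ne']
      push_cast
      ring
    rw [e2, Complex.norm_real, Real.norm_eq_abs, abs_div, abs_of_pos hL0]
    gcongr
  -- the cell
  set δ : ℝ := T * w0 / N with hδ
  have hδ0 : 0 < δ := by positivity
  have hδT : δ ≤ T := by
    rw [hδ, div_le_iff₀ hN0]
    nlinarith
  have hδl : T ^ (1 - e) ≤ δ := by
    rw [hδ, le_div_iff₀ hN0]
    have e1 : T ^ (1 - e) * T ^ (e / 2) = T * T ^ (-(e / 2)) := by
      rw [← Real.rpow_add hT0, ← Real.rpow_one_add' hT0.le (by linarith)]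
      congr 1
      ring
    calc T ^ (1 - e) * N ≤ T ^ (1 - e) * (2 * T ^ (e / 2)) := by gcongr
      _ = 2 * (T ^ (1 - e) * T ^ (e / 2)) := by ring
      _ = T * (2 * (1 * T ^ (-(e / 2)))) := by rw [e1]; ring
      _ ≤ T * (2 * (w0 / 2)) := by gcongr
      _ = T * w0 := by ring
  have hδs : ∀ i, δ ≤ s i := by
    intro i
    have h5 := hw2 i
    change T * w0 / N ≤ T * (b i - a i) / N
    gcongr
  have main := hcell X δ hTX hXe hδl hδT β b1 b2 (fun i mm => kap (crn y s k i) (s i) mm)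
    (fun i => kap_zero (hs0 i)) (fun i mm => kap_le_one (hs0 i) mm) (fun i mm => kap_le hδ0 (hδs i) mm)
  have hbi := box_int (X := X) A (fun j p => (cr X p (v j) : ℂ)) (y := crn y s k) (s := s) hs0
  have e1 : ∫ x in bxc (crn y s k) s, ∏ j, P0 X (v j) (Lf A j x) =
      ((∏ i, s i : ℝ) : ℂ) * ∑ q ∈ PFX K X, (∏ j, (cr X (q j) (v j) : ℂ)) * ∏ i, kap (crn y s k i) (s i) (mq A q i) := by
    rw [← hbi]
    rfl
  have e2 : ∑ q ∈ PFX K X, (∏ j, (cr X (q j) (v j) : ℂ)) * ∏ i, kap (crn y s k i) (s i) (mq A q i) =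
      ((Real.log T ^ K : ℝ) : ℂ) * ∑ q ∈ PFX K X, (∏ j, β j (q j)) * (wq q : ℂ) * ∏ i, kap (crn y s k i) (s i) (mq A q i) := by
    rw [mul_sum]
    refine sum_congr rfl fun q hq => ?_
    have e3 : ∏ j, (cr X (q j) (v j) : ℂ) = ((Real.log T ^ K : ℝ) : ℂ) * ((∏ j, β j (q j)) * (wq q : ℂ)) := by
      unfold wq
      rw [hβ]
      simp only []
      rw [← Complex.ofReal_prod, ← Complex.ofReal_prod, ← Complex.ofReal_mul, ← Complex.ofReal_mul]
      congr 1
      rw [← prod_mul_distrib]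
      have : Real.log T ^ K = ∏ _j : Fin K, Real.log T := by
        rw [prod_const, card_univ, Fintype.card_fin]
      rw [this, ← prod_mul_distrib]
      refine prod_congr rfl fun j _ => ?_
      have hh := ht_ge (mem_PFX.1 hq j)
      have hsq : √(ht (q j)) ≠ 0 := (Real.sqrt_pos.2 (by linarith)).ne'
      field_simp
    rw [e3]
    ring
  have hpr : 0 < ∏ i, s i := prod_pos fun i _ => hs0 i
  have e4 : (∫ x in bxc (crn y s k) s, ∏ j, P0 X (v j) (Lf A j x)) -
      ((∏ i, s i : ℝ) : ℂ) * ((Real.log T ^ K : ℝ) : ℂ) * (Cst A : ℂ) =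
      ((∏ i, s i : ℝ) : ℂ) * ((Real.log T ^ K : ℝ) : ℂ) * (∑ q ∈ PFX K X, (∏ j, β j (q j)) * (wq q : ℂ) * ∏ i, kap (crn y s k i) (s i) (mq A q i) - (Cst A : ℂ)) := by
    rw [e1, e2]
    ring
  have e5 : ‖(∫ x in bxc (crn y s k) s, ∏ j, P0 X (v j) (Lf A j x)) -
      ((∏ i, s i : ℝ) : ℂ) * ((Real.log T ^ K : ℝ) : ℂ) * (Cst A : ℂ)‖ ≤ (∏ i, s i) * Real.log T ^ K * η := by
    rw [e4, norm_mul, norm_mul, Complex.norm_real, Complex.norm_real, Real.norm_of_nonneg hpr.le,
      Real.norm_of_nonneg (by positivity)]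
    gcongr
  exact e5

set_option maxHeartbeats 4000000 in
theorem limit {K d : ℕ} (hd : 1 ≤ d) (hK : d ≤ K) (hK2 : K + 1 ≤ 2 * d) {A : Fin K → Fin d → ℝ}
    (hA : GenPos A) {a b : Fin d → ℝ} (hab : ∀ i, a i < b i) {c₀ c : ℝ} (hc₀ : 0 < c₀) (hcc : 2 * c₀ ≤ c)
    (hc : 1 ≤ c) (hL : ∀ x ∈ Set.Icc a b, ∀ j, Lf A j x ∈ Set.Icc (2 * c₀) c) :
    Tendsto (fun T : ℝ => (∫ x in bxc (fun i => T * a i) (fun i => T * (b i - a i)), ∏ j, ff (Lf A j x)) /
      (T ^ d * Real.log T ^ K)) atTop (𝓝 (Cst A * ∏ i, (b i - a i))) := by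
  classical
  rw [Metric.tendsto_nhds]
  intro η hη
  set P : ℝ := ∏ i, (b i - a i) with hP
  have hP0 : 0 < P := prod_pos fun i _ => by linarith [hab i]
  filter_upwards [eventually_ge_atTop (3 : ℝ),
    repl hd hK hK2 hA hab hc₀ hcc hc hL (η / 4) (by positivity),
    mainc hd hK hK2 hA hab hc₀ hcc hc hL (η / (4 * P)) (by positivity)] with T hT3 hrepl hmain
  have hT0 : 0 < T := by linarith
  have hT1 : 1 ≤ T := by linarith
  have hL1 : 1 ≤ Real.log T := by
    rw [Real.le_log_iff_exp_le hT0]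
    linarith [Real.exp_one_lt_d9]
  set e := ex K d with he
  set ε := ep K d with hε
  have he0 : 0 < e := ex_pos hd hK
  have hε0 : 0 < ε := ep_pos hd hK
  set N : ℕ := ⌈T ^ (e / 2)⌉₊ with hN
  set X : ℕ := ⌈(c * T) ^ (1 + ε)⌉₊ with hX
  have hTe : 1 ≤ T ^ (e / 2) := Real.one_le_rpow hT1 (by linarith)
  have hN1 : T ^ (e / 2) ≤ N := Nat.le_ceil _
  have hN2 : (N : ℝ) ≤ 2 * T ^ (e / 2) := by
    have := Nat.ceil_lt_add_one (by linarith : 0 ≤ T ^ (e / 2))
    linarith
  have hNp : 1 ≤ N := by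
    have : (1 : ℝ) ≤ N := hTe.trans hN1
    exact_mod_cast this
  have hN0 : (0 : ℝ) < N := by exact_mod_cast (by omega : 0 < N)
  have hcT : 1 ≤ (c * T) ^ (1 + ε) := Real.one_le_rpow (by nlinarith) (by linarith)
  have hX1 : (c * T) ^ (1 + ε) ≤ X := Nat.le_ceil _
  have hX2 : (X : ℝ) ≤ 3 * (c * T) ^ (1 + ε) := by
    have := Nat.ceil_lt_add_one (by linarith : 0 ≤ (c * T) ^ (1 + ε))
    linarith
  have r1 := hrepl N X hNp hN1 hX1 hX2
  have r2 := hmain N X hNp hN2 hX1 hX2
  have eb : (big N fun i => T * (b i - a i) / N) = fun i => T * (b i - a i) := by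
    funext i
    unfold big
    field_simp
  rw [eb] at r1
  have er : ∫ x in bxc (fun i => T * a i) (fun i => T * (b i - a i)), ∏ j, (ff (Lf A j x) : ℂ) =
      ((∫ x in bxc (fun i => T * a i) (fun i => T * (b i - a i)), ∏ j, ff (Lf A j x) : ℝ) : ℂ) := by
    have e0 : ∀ x : Fin d → ℝ, ∏ j, (ff (Lf A j x) : ℂ) = ((∏ j, ff (Lf A j x) : ℝ) : ℂ) := by
      intro x
      push_cast
      rfl
    simp_rw [e0]
    exact integral_complex_ofReal
  rw [er] at r1
  set M : ℝ := ∫ x in bxc (fun i => T * a i) (fun i => T * (b i - a i)), ∏ j, ff (Lf A j x) with hM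
  set Sg : ℂ := ∑ k : Fin d → Fin N, ∫ x in bxc (crn (fun i => T * a i) (fun i => T * (b i - a i) / N) k)
          (fun i => T * (b i - a i) / N), ∏ j, P0 X
            (Lf A j (crn (fun i => T * a i) (fun i => T * (b i - a i) / N) k)) (Lf A j x) with hSg
  set S : ℝ := ∏ i, T * (b i - a i) / N with hS
  have hNS : (N : ℝ) ^ d * S = T ^ d * P := by
    rw [hS, hP]
    have : (N : ℝ) ^ d = ∏ _i : Fin d, (N : ℝ) := by rw [prod_const, card_univ, Fintype.card_fin]
    rw [this, ← prod_mul_distrib]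
    have : T ^ d = ∏ _i : Fin d, T := by rw [prod_const, card_univ, Fintype.card_fin]
    rw [this, ← prod_mul_distrib]
    refine prod_congr rfl fun i _ => ?_
    field_simp
  have hcard : (Fintype.card (Fin d → Fin N) : ℝ) = (N : ℝ) ^ d := by
    rw [Fintype.card_fun, Fintype.card_fin, Fintype.card_fin]
    push_cast
    rfl
  have r3 : ‖Sg - ((T ^ d * P * Real.log T ^ K * Cst A : ℝ) : ℂ)‖ ≤ T ^ d * Real.log T ^ K * (η / 4) := by
    have e1 : ((T ^ d * P * Real.log T ^ K * Cst A : ℝ) : ℂ) =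
        ∑ _k : Fin d → Fin N, ((S : ℝ) : ℂ) * ((Real.log T ^ K : ℝ) : ℂ) * (Cst A : ℂ) := by
      rw [sum_const, card_univ, nsmul_eq_mul]
      have : ((Fintype.card (Fin d → Fin N) : ℕ) : ℂ) = ((N : ℝ) ^ d : ℝ) := by
        rw [← hcard]
        push_cast
        rfl
      rw [this, ← hNS]
      push_cast
      ring
    rw [e1, hSg, ← sum_sub_distrib]
    refine (norm_sum_le _ _).trans ((sum_le_sum fun k _ => r2 k).trans ?_)
    rw [sum_const, card_univ, nsmul_eq_mul, hcard]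
    calc (N : ℝ) ^ d * (S * Real.log T ^ K * (η / (4 * P))) = (N ^ d * S) * Real.log T ^ K * (η / (4 * P)) := by ring
      _ = T ^ d * P * Real.log T ^ K * (η / (4 * P)) := by rw [hNS]
      _ = T ^ d * Real.log T ^ K * (η / 4) := by field_simp
      _ ≤ _ := le_rfl
  have r4 : |M - T ^ d * P * Real.log T ^ K * Cst A| ≤ T ^ d * Real.log T ^ K * (η / 2) := by
    have e1 : |M - T ^ d * P * Real.log T ^ K * Cst A| = ‖(M : ℂ) - ((T ^ d * P * Real.log T ^ K * Cst A : ℝ) : ℂ)‖ := by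
      rw [← Complex.ofReal_sub, Complex.norm_real, Real.norm_eq_abs]
    rw [e1]
    have e2 : (M : ℂ) - ((T ^ d * P * Real.log T ^ K * Cst A : ℝ) : ℂ) = ((M : ℂ) - Sg) +
      (Sg - ((T ^ d * P * Real.log T ^ K * Cst A : ℝ) : ℂ)) := by ring
    rw [e2]
    refine (norm_add_le _ _).trans ?_
    have : η / 4 * T ^ d ≤ T ^ d * Real.log T ^ K * (η / 4) := by
      have h1 : 1 ≤ Real.log T ^ K := one_le_pow₀ hL1
      have h2 : 0 < T ^ d := by positivity
      nlinarith [mul_le_mul_of_nonneg_left h1 (by positivity : 0 ≤ T ^ d * (η / 4))]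
    linarith
  have hD : 0 < T ^ d * Real.log T ^ K := by positivity
  rw [Real.dist_eq]
  have e3 : M / (T ^ d * Real.log T ^ K) - Cst A * P = (M - T ^ d * P * Real.log T ^ K * Cst A) / (T ^ d * Real.log T ^ K) := by
    field_simp
  rw [e3, abs_div, abs_of_pos hD, div_lt_iff₀ hD]
  nlinarith

end Pool.Agent.K1H51.ZL
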