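import Pool.Agent.K1H51.ZL.Cnt2

set_option autoImplicit false

/-!
Tuples of small heights with tiny linear combinations of the logarithms; the constant of the main term.
-/

namespace Pool.Agent.K1H51.ZL

open Finset
open Pool.Agent.Y969.GP (ht lam FR)
open Pool.Agent.Y379.GP (mem_FR sp1 harm)

lemma sum_ht_rpow {c : ℝ} (hc : 0 < c) : ∃ B : ℝ, 1 ≤ B ∧ ∀ X : ℕ, ∑ p ∈ FR X, (ht p) ^ (-(1 + c)) ≤ B := by
  have hs : Summable (fun n : ℕ => (n : ℝ) ^ (-(1 + c))) := Real.summable_nat_rpow.2 (by linarith)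
  have h0 : ∀ n : ℕ, 0 ≤ (n : ℝ) ^ (-(1 + c)) := fun n => Real.rpow_nonneg (Nat.cast_nonneg n) _
  refine ⟨1 + (∑' n : ℕ, (n : ℝ) ^ (-(1 + c))) ^ 2, by nlinarith [sq_nonneg (∑' n : ℕ, (n : ℝ) ^ (-(1 + c)))], fun X => ?_⟩
  have hsub : FR X ⊆ Icc 1 X ×ˢ Icc 1 X := by
    intro p hp
    obtain ⟨h1, h2, -, -, h3, h4⟩ := mem_FR hp
    rw [mem_product, mem_Icc, mem_Icc]
    exact ⟨⟨h1, h3⟩, ⟨h2, h4⟩⟩
  have h1 : ∑ a ∈ Icc 1 X, (a : ℝ) ^ (-(1 + c)) ≤ ∑' n : ℕ, (n : ℝ) ^ (-(1 + c)) :=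
    hs.sum_le_tsum _ fun n _ => h0 n
  have h2 : 0 ≤ ∑ a ∈ Icc 1 X, (a : ℝ) ^ (-(1 + c)) := sum_nonneg fun n _ => h0 n
  calc ∑ p ∈ FR X, (ht p) ^ (-(1 + c)) ≤ ∑ p ∈ Icc 1 X ×ˢ Icc 1 X, (ht p) ^ (-(1 + c)) := by
        apply sum_le_sum_of_subset_of_nonneg hsub
        intro p _ _
        unfold ht
        positivity
    _ = (∑ a ∈ Icc 1 X, (a : ℝ) ^ (-(1 + c))) * ∑ b ∈ Icc 1 X, (b : ℝ) ^ (-(1 + c)) := by
        rw [sum_mul_sum, sum_product]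
        refine sum_congr rfl fun a _ => sum_congr rfl fun b _ => ?_
        unfold ht
        simp only
        rw [Real.mul_rpow (Nat.cast_nonneg _) (Nat.cast_nonneg _)]
    _ ≤ (∑' n : ℕ, (n : ℝ) ^ (-(1 + c))) * ∑' n : ℕ, (n : ℝ) ^ (-(1 + c)) :=
        mul_le_mul h1 h1 h2 (h2.trans h1)
    _ ≤ _ := by nlinarith

/-- tuples with tiny linear combinations and a height at least `Z₀` -/
lemma near {K d : ℕ} (hd : 1 ≤ d) (hK : d ≤ K) (hK2 : K + 1 ≤ 2 * d) {A : Fin K → Fin d → ℝ}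
    (hA : GenPos A) : ∃ c0 C : ℝ, 0 < c0 ∧ 1 ≤ C ∧
    ∀ (Z : ℕ) (δ Z₀ : ℝ), 1 ≤ Z → 0 ≤ δ → δ * Z ≤ c0 → 1 ≤ Z₀ →
      ∑ q ∈ (PFX K Z).filter (fun q => (∀ i, |mq A q i| ≤ δ) ∧ ∃ j, Z₀ ≤ ht (q j)), wq q ≤
        C * Z₀ ^ (-(1 / 4) : ℝ) := by
  classical
  obtain ⟨Ci, hCi, hinj⟩ := inj hA
  have hK0 : (0 : ℝ) < K := by exact_mod_cast (by omega : 0 < K)
  set c : ℝ := 1 / (4 * K) with hc
  have hc0 : 0 < c := by positivity
  obtain ⟨B, hB, hBs⟩ := sum_ht_rpow hc0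
  refine ⟨1 / (8 * Ci), 2 ^ K * B ^ (K - d), by positivity, ?_, ?_⟩
  · have h1 : (1 : ℝ) ≤ 2 ^ K := one_le_pow₀ (by norm_num)
    have h2 : (1 : ℝ) ≤ B ^ (K - d) := one_le_pow₀ hB
    nlinarith
  intro Z δ Z₀ hZ hδ hδZ hZ₀
  have hZr : (0 : ℝ) < Z := by exact_mod_cast hZ
  set Q := (PFX K Z).filter (fun q => (∀ i, |mq A q i| ≤ δ) ∧ ∃ j, Z₀ ≤ ht (q j)) with hQ
  set P := powersetCard (K - d) (univ : Finset (Fin K)) with hP
  have h1 : ∀ q ∈ Q, wq q ≤ ∑ F ∈ P, (∏ j ∈ F, (ht (q j)) ^ (-(1 + c))) * Z₀ ^ (-(1 / 4) : ℝ) := by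
    intro q hq
    obtain ⟨hq1, -, j2, hj2⟩ := mem_filter.1 hq
    have hge : ∀ j, 1 ≤ ht (q j) := fun j => ht_ge (mem_PFX.1 hq1 j)
    obtain ⟨F, hF, hFm⟩ := exists_small (fun j => ht (q j)) (K - d) (by omega)
    obtain ⟨j1, -, hj1⟩ := exists_max_image (univ : Finset (Fin K)) (fun j => ht (q j)) ⟨j2, mem_univ _⟩
    have h2 := wq_le hd hK hK2 hq1 F hF hFm j1
    set M := ht (q j1) with hM
    have hM1 : 1 ≤ M := hge j1
    have hMZ : Z₀ ≤ M := hj2.trans (hj1 j2 (mem_univ _))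
    have e1 : (√M)⁻¹ = M ^ (-(1 / 4) : ℝ) * M ^ (-(1 / 4) : ℝ) := by
      rw [← Real.rpow_add (by linarith), Real.sqrt_eq_rpow, ← Real.rpow_neg (by linarith)]
      norm_num
    have h3 : M ^ (-(1 / 4) : ℝ) ≤ Z₀ ^ (-(1 / 4) : ℝ) :=
      Real.rpow_le_rpow_of_nonpos (by linarith) hMZ (by norm_num)
    have h4 : M ^ (-(1 / 4) : ℝ) ≤ ∏ j ∈ F, (ht (q j)) ^ (-c) := by
      have h5 : ∏ j ∈ F, M ^ (-c) ≤ ∏ j ∈ F, (ht (q j)) ^ (-c) := by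
        apply prod_le_prod
        · intro j _; positivity
        · intro j _
          exact Real.rpow_le_rpow_of_nonpos (by linarith [hge j]) (hj1 j (mem_univ _)) (by linarith)
      refine le_trans ?_ h5
      rw [prod_const, hF, ← Real.rpow_natCast, ← Real.rpow_mul (by linarith)]
      apply Real.rpow_le_rpow_of_exponent_le hM1
      have h6 : ((K - d : ℕ) : ℝ) ≤ K := by exact_mod_cast Nat.sub_le K d
      have h7 : c * ((K - d : ℕ) : ℝ) ≤ c * K := mul_le_mul_of_nonneg_left h6 hc0.le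
      have h8 : c * K = 1 / 4 := by rw [hc]; field_simp
      linarith
    have h9 : ∀ G : Finset (Fin K), 0 ≤ ∏ j ∈ G, (ht (q j)) ^ (-(1 + c)) := fun G => prod_nonneg
      fun j _ => Real.rpow_nonneg (by linarith [hge j]) _
    have e2 : (∏ j ∈ F, (ht (q j))⁻¹) * ∏ j ∈ F, (ht (q j)) ^ (-c) = ∏ j ∈ F, (ht (q j)) ^ (-(1 + c)) := by
      rw [← prod_mul_distrib]
      refine prod_congr rfl fun j _ => ?_
      have : 0 < ht (q j) := by linarith [hge j]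
      rw [← Real.rpow_neg_one, ← Real.rpow_add this]
      congr 1
      ring
    have h10 : 0 ≤ ∏ j ∈ F, (ht (q j))⁻¹ := prod_nonneg fun j _ => inv_nonneg.2 (by linarith [hge j])
    calc wq q ≤ (∏ j ∈ F, (ht (q j))⁻¹) * (√M)⁻¹ := h2
      _ ≤ (∏ j ∈ F, (ht (q j))⁻¹) * ((∏ j ∈ F, (ht (q j)) ^ (-c)) * Z₀ ^ (-(1 / 4) : ℝ)) := by
          rw [e1]
          apply mul_le_mul_of_nonneg_left _ h10
          exact mul_le_mul h4 h3 (by positivity) ((by positivity : (0:ℝ) ≤ M ^ (-(1 / 4) : ℝ)).trans h4)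
      _ = (∏ j ∈ F, (ht (q j)) ^ (-(1 + c))) * Z₀ ^ (-(1 / 4) : ℝ) := by rw [← e2]; ring
      _ ≤ _ := by
          apply single_le_sum (f := fun F => (∏ j ∈ F, (ht (q j)) ^ (-(1 + c))) * Z₀ ^ (-(1 / 4) : ℝ))
          · intro G _
            exact mul_nonneg (h9 G) (by positivity)
          · rw [hP, mem_powersetCard]
            exact ⟨subset_univ _, hF⟩
  refine (sum_le_sum h1).trans ?_
  rw [sum_comm]
  have h2 : ∀ F ∈ P, ∑ q ∈ Q, (∏ j ∈ F, (ht (q j)) ^ (-(1 + c))) * Z₀ ^ (-(1 / 4) : ℝ) ≤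
      Z₀ ^ (-(1 / 4) : ℝ) * B ^ (K - d) := by
    intro F hF
    rw [hP, mem_powersetCard] at hF
    have h3 := glue_sum F Q (filter_subset _ _) (fun p => (ht p) ^ (-(1 + c))) (fun p hp =>
      Real.rpow_nonneg (by linarith [ht_ge hp]) _) (fun _ => Z₀ ^ (-(1 / 4) : ℝ))
      (Z₀ ^ (-(1 / 4) : ℝ)) (fun g => by
        have hcard : (Q.filter (fun q => rF F q = g)).card ≤ 1 := by
          rw [card_le_one]
          intro q hq q' hq'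
          obtain ⟨hq1, hq2⟩ := mem_filter.1 hq
          obtain ⟨hq1', hq2'⟩ := mem_filter.1 hq'
          obtain ⟨ha, hb, -⟩ := mem_filter.1 hq1
          obtain ⟨ha', hb', -⟩ := mem_filter.1 hq1'
          funext j
          by_contra hne
          have h4 := sp1 Z (q j) (q' j) (mem_PFX.1 ha j) (mem_PFX.1 ha' j) hne
          have h5 := lam_close hinj hK F hF.2 (hq2.trans hq2'.symm) (m := 2 * δ) (by positivity)
            (fun i => by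
              have a := abs_sub (mq A q i) (mq A q' i)
              have b := hb i
              have b' := hb' i
              linarith) j
          have h6 : Ci * (2 * δ) < 1 / (2 * (Z : ℝ)) := by
            rw [lt_div_iff₀ (by positivity)]
            have : δ * Z * (8 * Ci) ≤ 1 := by
              rw [le_div_iff₀ (by positivity)] at hδZ
              exact hδZ
            nlinarith
          linarith
        rw [sum_const, nsmul_eq_mul]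
        have hz : 0 ≤ Z₀ ^ (-(1 / 4) : ℝ) := by positivity
        have : ((Q.filter (fun q => rF F q = g)).card : ℝ) ≤ 1 := by exact_mod_cast hcard
        nlinarith)
    refine h3.trans ?_
    rw [hF.2]
    apply mul_le_mul_of_nonneg_left _ (by positivity)
    apply pow_le_pow_left₀ (sum_nonneg fun p hp => Real.rpow_nonneg (by linarith [ht_ge hp]) _)
    exact hBs Z
  refine (sum_le_sum h2).trans ?_
  rw [sum_const, nsmul_eq_mul]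
  have hPc : (P.card : ℝ) ≤ 2 ^ K := by
    have h3 : P.card ≤ 2 ^ K := by
      rw [hP, card_powersetCard, card_univ, Fintype.card_fin]
      exact Nat.choose_le_two_pow _ _
    exact_mod_cast h3
  have h0 : 0 ≤ Z₀ ^ (-(1 / 4) : ℝ) * B ^ (K - d) := by positivity
  refine (mul_le_mul_of_nonneg_right hPc h0).trans (le_of_eq ?_)
  ring

/-- the resonant tuples -/
def Res {K d : ℕ} (A : Fin K → Fin d → ℝ) : Set (Fin K → ℕ × ℕ) :=
  {q | (∀ j, 1 ≤ (q j).1 ∧ 1 ≤ (q j).2 ∧ Nat.Coprime (q j).1 (q j).2) ∧ ∀ i, mq A q i = 0}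

/-- the constant of the main term -/
noncomputable def Cst {K d : ℕ} (A : Fin K → Fin d → ℝ) : ℝ := ∑' q : Res A, wq (q : Fin K → ℕ × ℕ)

open Classical in
/-- the resonant tuples of height at most `Z` -/
noncomputable def ResF {K d : ℕ} (A : Fin K → Fin d → ℝ) (Z : ℕ) : Finset (Fin K → ℕ × ℕ) :=
  (PFX K Z).filter (fun q => ∀ i, mq A q i = 0)

lemma mem_FR' {X : ℕ} {p : ℕ × ℕ} : p ∈ FR X ↔ 1 ≤ p.1 ∧ 1 ≤ p.2 ∧ p.1 * p.2 ≤ X ∧ Nat.Coprime p.1 p.2 := by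
  constructor
  · intro h
    obtain ⟨h1, h2, h3, h4, -⟩ := mem_FR h
    exact ⟨h1, h2, h3, h4⟩
  · rintro ⟨h1, h2, h3, h4⟩
    unfold FR Pool.Agent.Y969.GP.PS
    simp only [Finset.mem_filter, Finset.mem_product, Finset.mem_Icc]
    refine ⟨⟨⟨⟨h1, ?_⟩, ⟨h2, ?_⟩⟩, h3⟩, h4⟩
    · nlinarith
    · nlinarith

lemma FR_mono {X Y : ℕ} (h : X ≤ Y) : FR X ⊆ FR Y := by
  intro p hp
  rw [mem_FR'] at hp ⊢
  exact ⟨hp.1, hp.2.1, hp.2.2.1.trans h, hp.2.2.2⟩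

lemma PFX_mono {K X Y : ℕ} (h : X ≤ Y) : PFX K X ⊆ PFX K Y := by
  intro q hq
  rw [mem_PFX] at hq ⊢
  exact fun j => FR_mono h (hq j)

lemma exists_PFX {K : ℕ} {q : Fin K → ℕ × ℕ}
    (h : ∀ j, 1 ≤ (q j).1 ∧ 1 ≤ (q j).2 ∧ Nat.Coprime (q j).1 (q j).2) : ∃ Z, 1 ≤ Z ∧ q ∈ PFX K Z := by
  refine ⟨1 + ∑ j, (q j).1 * (q j).2, by omega, ?_⟩
  rw [mem_PFX]
  intro j
  rw [mem_FR']
  refine ⟨(h j).1, (h j).2.1, ?_, (h j).2.2⟩
  have : (q j).1 * (q j).2 ≤ ∑ j, (q j).1 * (q j).2 :=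
    single_le_sum (f := fun j => (q j).1 * (q j).2) (fun i _ => Nat.zero_le _) (mem_univ j)
  omega

/-- finite sums over resonant tuples with a height at least `Z₀` -/
lemma res_tail {K d : ℕ} (hd : 1 ≤ d) (hK : d ≤ K) (hK2 : K + 1 ≤ 2 * d) {A : Fin K → Fin d → ℝ}
    (hA : GenPos A) : ∃ C : ℝ, 1 ≤ C ∧ ∀ (Z₀ : ℝ), 1 ≤ Z₀ → ∀ S : Finset (Fin K → ℕ × ℕ),
      (∀ q ∈ S, q ∈ Res A ∧ ∃ j, Z₀ ≤ ht (q j)) → ∑ q ∈ S, wq q ≤ C * Z₀ ^ (-(1 / 4) : ℝ) := by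
  classical
  obtain ⟨c0, C, hc0, hC, h⟩ := near hd hK hK2 hA
  refine ⟨C, hC, fun Z₀ hZ₀ S hS => ?_⟩
  have h1 : ∀ q ∈ S, ∃ Z, 1 ≤ Z ∧ q ∈ PFX K Z := fun q hq => exists_PFX (hS q hq).1.1
  choose! f hf using h1
  set Z := 1 + ∑ q ∈ S, f q with hZ
  have h2 : S ⊆ (PFX K Z).filter (fun q => (∀ i, |mq A q i| ≤ 0) ∧ ∃ j, Z₀ ≤ ht (q j)) := by
    intro q hq
    rw [mem_filter]
    refine ⟨PFX_mono ?_ (hf q hq).2, fun i => ?_, (hS q hq).2⟩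
    · have := single_le_sum (f := f) (fun i _ => Nat.zero_le _) hq
      omega
    · rw [(hS q hq).1.2 i, abs_zero]
  refine (sum_le_sum_of_subset_of_nonneg h2 (fun q _ _ => wq_nonneg q)).trans ?_
  exact h Z 0 Z₀ (by omega) (le_refl _) (by simpa using hc0.le) hZ₀

lemma res_summable {K d : ℕ} (hd : 1 ≤ d) (hK : d ≤ K) (hK2 : K + 1 ≤ 2 * d) {A : Fin K → Fin d → ℝ}
    (hA : GenPos A) : Summable (fun q : Res A => wq (q : Fin K → ℕ × ℕ)) := by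
  classical
  obtain ⟨C, hC, h⟩ := res_tail hd hK hK2 hA
  refine summable_of_sum_le (fun q => wq_nonneg _) (c := C * (1 : ℝ) ^ (-(1 / 4) : ℝ)) (fun u => ?_)
  have e : ∑ q ∈ u, wq (q : Fin K → ℕ × ℕ) = ∑ q ∈ u.map (Function.Embedding.subtype _), wq q := by
    rw [sum_map]
    rfl
  rw [e]
  refine h 1 (le_refl _) _ fun q hq => ?_
  rw [mem_map] at hq
  obtain ⟨q', -, rfl⟩ := hq
  refine ⟨q'.2, ⟨0, by omega⟩, ?_⟩
  obtain ⟨Z, -, hZ⟩ := exists_PFX q'.2.1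
  exact ht_ge (mem_PFX.1 hZ _)

lemma mem_ResF {K d : ℕ} {A : Fin K → Fin d → ℝ} {Z : ℕ} {q : Fin K → ℕ × ℕ} :
    q ∈ ResF A Z ↔ q ∈ Res A ∧ ∀ j, (q j).1 * (q j).2 ≤ Z := by
  classical
  unfold ResF
  rw [mem_filter, mem_PFX]
  constructor
  · rintro ⟨h1, h2⟩
    exact ⟨⟨fun j => ⟨(mem_FR'.1 (h1 j)).1, (mem_FR'.1 (h1 j)).2.1, (mem_FR'.1 (h1 j)).2.2.2⟩, h2⟩,
      fun j => (mem_FR'.1 (h1 j)).2.2.1⟩
  · rintro ⟨⟨h1, h2⟩, h3⟩
    exact ⟨fun j => mem_FR'.2 ⟨(h1 j).1, (h1 j).2.1, h3 j, (h1 j).2.2⟩, h2⟩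

lemma cst_tail {K d : ℕ} (hd : 1 ≤ d) (hK : d ≤ K) (hK2 : K + 1 ≤ 2 * d) {A : Fin K → Fin d → ℝ}
    (hA : GenPos A) : ∃ C : ℝ, 1 ≤ C ∧ ∀ Z : ℕ, 1 ≤ Z →
      |Cst A - ∑ q ∈ ResF A Z, wq q| ≤ C * (Z : ℝ) ^ (-(1 / 4) : ℝ) := by
  classical
  obtain ⟨C, hC, h⟩ := res_tail hd hK hK2 hA
  refine ⟨C, hC, fun Z hZ => ?_⟩
  have hZ1 : (1 : ℝ) ≤ Z := by exact_mod_cast hZ
  have hs := res_summable hd hK hK2 hA
  have hsub : ∀ q ∈ ResF A Z, q ∈ Res A := fun q hq => (mem_ResF.1 hq).1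
  set s : Finset (Res A) := (ResF A Z).subtype (· ∈ Res A) with hsdef
  have e1 : ∑ q ∈ s, wq (q : Fin K → ℕ × ℕ) = ∑ q ∈ ResF A Z, wq q := by
    rw [hsdef, sum_subtype_of_mem (fun q => wq q) hsub]
  have h1 : ∑ q ∈ ResF A Z, wq q ≤ Cst A := by
    rw [← e1]
    exact hs.sum_le_tsum s fun q _ => wq_nonneg _
  have h2 : Cst A ≤ ∑ q ∈ ResF A Z, wq q + C * (Z : ℝ) ^ (-(1 / 4) : ℝ) := by
    unfold Cst
    refine hs.tsum_le_of_sum_le fun u => ?_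
    have e2 : ∑ q ∈ u, wq (q : Fin K → ℕ × ℕ) = ∑ q ∈ u.map (Function.Embedding.subtype _), wq q := by
      rw [sum_map]
      rfl
    rw [e2]
    set v := u.map (Function.Embedding.subtype (· ∈ Res A)) with hv
    have h3 : ∑ q ∈ v, wq q = ∑ q ∈ v.filter (· ∈ ResF A Z), wq q + ∑ q ∈ v.filter (· ∉ ResF A Z), wq q :=
      (sum_filter_add_sum_filter_not _ _ _).symm
    rw [h3]
    apply add_le_add
    · apply sum_le_sum_of_subset_of_nonneg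
      · intro q hq
        exact (mem_filter.1 hq).2
      · intro q _ _
        exact wq_nonneg q
    · refine h Z hZ1 _ fun q hq => ?_
      obtain ⟨hq1, hq2⟩ := mem_filter.1 hq
      rw [hv, mem_map] at hq1
      obtain ⟨q', -, rfl⟩ := hq1
      refine ⟨q'.2, ?_⟩
      by_contra hcon
      push Not at hcon
      apply hq2
      rw [mem_ResF]
      refine ⟨q'.2, fun j => ?_⟩
      have := hcon j
      unfold ht at this
      exact_mod_cast this.le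
  rw [abs_of_nonneg (by linarith)]
  linarith

end Pool.Agent.K1H51.ZL
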