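import Pool.Agent.K1H51.ZL.ToRat

set_option autoImplicit false

/-!
The example of three-term progressions.
-/

namespace Pool.Agent.K1H51.ZL

open Finset MeasureTheory Filter Topology
open Pool.Agent.Y969.GP (ff ht lam FR cr PX)

/-- a criterion for general position -/
lemma genPos_of {K d : ℕ} {A : Fin K → Fin d → ℝ}
    (h : ∀ (S : Finset (Fin K)), S.card = d → ∀ l : Fin K → ℝ, (∀ j, j ∉ S → l j = 0) →
      (∀ i, ∑ j, l j * A j i = 0) → ∀ j, l j = 0) : GenPos A := by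
  classical
  intro S hS
  rw [Fintype.linearIndependent_iff]
  intro g hg j
  set l : Fin K → ℝ := fun j => if hj : j ∈ S then g ⟨j, hj⟩ else 0 with hl
  have h1 : ∀ i, ∑ j, l j * A j i = 0 := by
    intro i
    have h2 : ∑ j, l j * A j i = ∑ j ∈ S, l j * A j i := by
      symm
      apply sum_subset (subset_univ S)
      intro j _ hj
      simp only [hl, hj, dite_false, zero_mul]
    rw [h2, ← sum_coe_sort S (fun j => l j * A j i)]
    have h3 := congrFun hg i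
    rw [Finset.sum_apply] at h3
    rw [Pi.zero_apply] at h3
    rw [← h3]
    refine sum_congr rfl fun j _ => ?_
    rw [Pi.smul_apply, smul_eq_mul]
    simp only [hl, j.2, dite_true]
  have h2 := h S hS l (fun j hj => by simp only [hl, hj, dite_false]) h1 j
  simp only [hl, j.2, dite_true] at h2
  exact h2

/-- coprime pairs -/
def Cop : Type := {p : ℕ × ℕ // 1 ≤ p.1 ∧ 1 ≤ p.2 ∧ Nat.Coprime p.1 p.2}

/-- `(m n)⁻²` -/
noncomputable def sqw (z : ℕ × ℕ) : ℝ := (1 / (z.1 : ℝ) ^ 2) * (1 / (z.2 : ℝ) ^ 2)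

lemma mul_sum_aux {f : ℕ → ℝ} {s : ℝ} (h : HasSum f s) (h0 : ∀ n, 0 ≤ f n) :
    HasSum (fun z : ℕ × ℕ => f z.1 * f z.2) (s * s) := by
  have hs : Summable fun z : ℕ × ℕ => f z.1 * f z.2 :=
    h.summable.mul_of_nonneg h.summable h0 h0
  exact h.mul h hs

lemma sqw_sum : HasSum sqw ((Real.pi ^ 2 / 6) * (Real.pi ^ 2 / 6)) :=
  mul_sum_aux hasSum_zeta_two fun n => by positivity

/-- multiples -/
def mulmap (z : ℕ × Cop) : ℕ × ℕ := ((z.1 + 1) * z.2.1.1, (z.1 + 1) * z.2.1.2)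

lemma mulmap_gcd (z : ℕ × Cop) : Nat.gcd (mulmap z).1 (mulmap z).2 = z.1 + 1 := by
  unfold mulmap
  simp only []
  rw [Nat.gcd_mul_left]
  have : Nat.gcd z.2.1.1 z.2.1.2 = 1 := z.2.2.2.2
  rw [this, mul_one]

lemma mulmap_inj : Function.Injective mulmap := by
  intro z w h
  have h1 := mulmap_gcd z
  have h2 := mulmap_gcd w
  rw [h] at h1
  have h3 : z.1 = w.1 := by omega
  have h4 : (z.1 + 1) * z.2.1.1 = (w.1 + 1) * w.2.1.1 := congrArg Prod.fst h
  have h5 : (z.1 + 1) * z.2.1.2 = (w.1 + 1) * w.2.1.2 := congrArg Prod.snd h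
  rw [h3] at h4 h5
  have h6 := Nat.eq_of_mul_eq_mul_left (Nat.succ_pos _) h4
  have h7 := Nat.eq_of_mul_eq_mul_left (Nat.succ_pos _) h5
  exact Prod.ext h3 (Subtype.ext (Prod.ext h6 h7))

lemma mulmap_range {x : ℕ × ℕ} (hx : x ∉ Set.range mulmap) : sqw x = 0 := by
  by_contra hne
  apply hx
  have h1 : 1 ≤ x.1 := by
    by_contra h
    apply hne
    have : x.1 = 0 := by omega
    unfold sqw
    rw [this]
    simp
  have h2 : 1 ≤ x.2 := by
    by_contra h
    apply hne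
    have : x.2 = 0 := by omega
    unfold sqw
    rw [this]
    simp
  have hg : 0 < Nat.gcd x.1 x.2 := Nat.gcd_pos_of_pos_left _ h1
  obtain ⟨g, m, n, hg0, hc, e1, e2⟩ := Nat.exists_coprime' hg
  have hm : 1 ≤ m := by
    rcases Nat.eq_zero_or_pos m with h | h
    · rw [h] at e1; omega
    · exact h
  have hn : 1 ≤ n := by
    rcases Nat.eq_zero_or_pos n with h | h
    · rw [h] at e2; omega
    · exact h
  refine ⟨(g - 1, ⟨(m, n), hm, hn, hc⟩), ?_⟩
  unfold mulmap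
  apply Prod.ext
  · change (g - 1 + 1) * m = x.1
    rw [Nat.sub_add_cancel hg0, e1, mul_comm]
  · change (g - 1 + 1) * n = x.2
    rw [Nat.sub_add_cancel hg0, e2, mul_comm]

lemma cop_sum : HasSum (fun p : Cop => sqw p.1) (5 / 2) := by
  have h1 : HasSum (sqw ∘ mulmap) ((Real.pi ^ 2 / 6) * (Real.pi ^ 2 / 6)) :=
    (mulmap_inj.hasSum_iff fun x hx => mulmap_range hx).2 sqw_sum
  have h2 : Summable (fun p : Cop => sqw p.1) :=
    sqw_sum.summable.comp_injective (i := fun p : Cop => p.1) Subtype.val_injective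
  have h3 : HasSum (fun n : ℕ => 1 / ((n : ℝ) + 1) ^ 4) (Real.pi ^ 4 / 90) := by
    have h := (hasSum_nat_add_iff' 1).2 hasSum_zeta_four
    simp only [sum_range_one, Nat.cast_zero] at h
    norm_num at h
    simpa using h
  have e : sqw ∘ mulmap = fun z : ℕ × Cop => (1 / ((z.1 : ℝ) + 1) ^ 4) * sqw z.2.1 := by
    funext z
    have := z.2.2.1
    have := z.2.2.2.1
    have k1 : (0 : ℝ) < z.2.1.1 := by exact_mod_cast (by omega : 0 < z.2.1.1)
    have k2 : (0 : ℝ) < z.2.1.2 := by exact_mod_cast (by omega : 0 < z.2.1.2)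
    have k3 : (0 : ℝ) < (z.1 : ℝ) + 1 := by positivity
    unfold sqw mulmap
    simp only [Function.comp]
    push_cast
    field_simp
  rw [e] at h1
  have h4 := (h3.mul h2.hasSum h1.summable).unique h1
  have hpi := Real.pi_pos
  have h5 : ∑' p : Cop, sqw p.1 = 5 / 2 := by
    have h6 : Real.pi ^ 4 / 90 * ∑' p : Cop, sqw p.1 = Real.pi ^ 4 / 90 * (5 / 2) := by
      rw [h4]
      ring
    exact mul_left_cancel₀ (by positivity) h6
  rw [← h5]
  exact h2.hasSum

/-- the forms `t`, `t + h`, `t + 2h` -/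
def AP : Fin 3 → Fin 2 → ℝ := ![![1, 0], ![1, 1], ![1, 2]]

lemma ap_gen : GenPos AP := by
  apply genPos_of
  intro S hS l hl h
  have h0 := h 0
  have h1 := h 1
  rw [Fin.sum_univ_three] at h0 h1
  simp [AP] at h0 h1
  obtain ⟨j0, hj0⟩ : ∃ j0, j0 ∉ S := by
    by_contra hc
    push Not at hc
    have : S = univ := Finset.eq_univ_iff_forall.2 hc
    rw [this] at hS
    simp at hS
  have h2 := hl j0 hj0
  intro j
  fin_cases j0 <;> fin_cases j <;> simp at h2 ⊢ <;> linarith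

lemma lam_inj {p q : ℕ × ℕ} (hp : 1 ≤ p.1 ∧ 1 ≤ p.2 ∧ Nat.Coprime p.1 p.2)
    (hq : 1 ≤ q.1 ∧ 1 ≤ q.2 ∧ Nat.Coprime q.1 q.2) (h : lam p = lam q) : p = q := by
  obtain ⟨p1, p2, p3⟩ := hp
  obtain ⟨q1, q2, q3⟩ := hq
  have a1 : (0 : ℝ) < p.1 := by exact_mod_cast p1
  have a2 : (0 : ℝ) < p.2 := by exact_mod_cast p2
  have b1 : (0 : ℝ) < q.1 := by exact_mod_cast q1
  have b2 : (0 : ℝ) < q.2 := by exact_mod_cast q2
  unfold lam at h
  have h1 : Real.log (p.2 * q.1) = Real.log (q.2 * p.1) := by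
    rw [Real.log_mul a2.ne' b1.ne', Real.log_mul b2.ne' a1.ne']
    linarith
  have h2 : (p.2 : ℝ) * q.1 = q.2 * p.1 := Real.log_injOn_pos (by simp; positivity) (by simp; positivity) h1
  have h3 : p.2 * q.1 = q.2 * p.1 := by exact_mod_cast h2
  have h4 : p.1 ∣ q.1 := by
    have : p.1 ∣ p.2 * q.1 := by rw [h3]; exact dvd_mul_left _ _
    exact p3.dvd_of_dvd_mul_left this
  have h5 : q.1 ∣ p.1 := by
    have : q.1 ∣ q.2 * p.1 := by rw [← h3]; exact dvd_mul_left _ _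
    exact q3.dvd_of_dvd_mul_left this
  have h6 : p.1 = q.1 := Nat.dvd_antisymm h4 h5
  rw [h6] at h3
  have h7 := Nat.eq_of_mul_eq_mul_right (by omega) h3
  exact Prod.ext h6 h7

/-- the resonances of the progression -/
def apq (p : ℕ × ℕ) : Fin 3 → ℕ × ℕ := ![p, (p.2 ^ 2, p.1 ^ 2), p]

lemma lam_sq (p : ℕ × ℕ) : lam (p.2 ^ 2, p.1 ^ 2) = -2 * lam p := by
  unfold lam
  push_cast
  rw [Real.log_pow, Real.log_pow]
  push_cast
  ring

lemma apq_mem (p : Cop) : apq p.1 ∈ Res AP := by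
  obtain ⟨⟨m, n⟩, h1, h2, h3⟩ := p
  refine ⟨?_, ?_⟩
  · intro j
    fin_cases j
    · exact ⟨h1, h2, h3⟩
    · exact ⟨Nat.one_le_pow _ _ h2, Nat.one_le_pow _ _ h1, Nat.Coprime.pow 2 2 h3.symm⟩
    · exact ⟨h1, h2, h3⟩
  · intro i
    unfold mq mu
    rw [Fin.sum_univ_three]
    have := lam_sq (m, n)
    simp only [] at this
    fin_cases i
    · simp [AP, apq]
      rw [this]
      ring
    · simp [AP, apq]
      rw [this]
      ring

/-- the parametrisation of the resonances -/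
def apm (p : Cop) : Res AP := ⟨apq p.1, apq_mem p⟩

lemma apm_bij : Function.Bijective apm := by
  constructor
  · intro p q h
    have h1 : apq p.1 = apq q.1 := congrArg Subtype.val h
    have h2 : p.1 = q.1 := congrFun h1 0
    exact Subtype.ext h2
  · rintro ⟨q, hq1, hq2⟩
    have h0 := hq2 0
    have h1 := hq2 1
    unfold mq mu at h0 h1
    rw [Fin.sum_univ_three] at h0 h1
    simp [AP] at h0 h1
    have e0 : lam (q 0) = lam (q 2) := by linarith
    have e1 : lam (q 1) = lam ((q 0).2 ^ 2, (q 0).1 ^ 2) := by rw [lam_sq]; linarith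
    have f0 : q 0 = q 2 := lam_inj (hq1 0) (hq1 2) e0
    have f1 : q 1 = ((q 0).2 ^ 2, (q 0).1 ^ 2) := by
      apply lam_inj (hq1 1) _ e1
      exact ⟨Nat.one_le_pow _ _ (hq1 0).2.1, Nat.one_le_pow _ _ (hq1 0).1, Nat.Coprime.pow 2 2 (hq1 0).2.2.symm⟩
    refine ⟨⟨q 0, hq1 0⟩, Subtype.ext ?_⟩
    funext j
    fin_cases j
    · rfl
    · exact f1.symm
    · exact f0

lemma ap_wq (p : Cop) : wq (apq p.1) = sqw p.1 := by
  obtain ⟨⟨m, n⟩, h1, h2, h3⟩ := p
  have a1 : (0 : ℝ) < m := by exact_mod_cast h1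
  have a2 : (0 : ℝ) < n := by exact_mod_cast h2
  unfold wq sqw
  rw [Fin.prod_univ_three]
  simp only [apq, Matrix.cons_val_zero, Matrix.cons_val_one, Matrix.cons_val_two, Matrix.tail_cons, Matrix.head_cons,
    Matrix.cons_val]
  unfold ht
  simp only []
  push_cast
  have e1 : (n : ℝ) ^ 2 * (m : ℝ) ^ 2 = (m * n) ^ 2 := by ring
  rw [e1, Real.sqrt_sq (by positivity)]
  have e2 : √((m : ℝ) * n) * √((m : ℝ) * n) = m * n := Real.mul_self_sqrt (by positivity)
  have e3 : 0 < √((m : ℝ) * n) := Real.sqrt_pos.2 (by positivity)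
  calc (√((m : ℝ) * n))⁻¹ * ((m : ℝ) * n)⁻¹ * (√((m : ℝ) * n))⁻¹ = (√((m : ℝ) * n) * √((m : ℝ) * n))⁻¹ * ((m : ℝ) * n)⁻¹ := by
        rw [mul_inv]
        ring
    _ = _ := by
        rw [e2]
        field_simp

lemma ap_cst : Cst AP = 5 / 2 := by
  unfold Cst
  rw [← (Equiv.ofBijective _ apm_bij).tsum_eq, ← cop_sum.tsum_eq]
  exact tsum_congr fun p => ap_wq p

set_option maxHeartbeats 4000000 in
/-- the mean value over progressions -/
theorem prog : Tendsto (fun T : ℝ => (∫ t in T..(2 * T), ∫ h in T..(2 * T),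
      ‖riemannZeta (1 / 2 + Complex.I * (t : ℂ))‖ ^ 2 * ‖riemannZeta (1 / 2 + Complex.I * ((t + h : ℝ) : ℂ))‖ ^ 2 *
        ‖riemannZeta (1 / 2 + Complex.I * ((t + 2 * h : ℝ) : ℂ))‖ ^ 2) / (T ^ 2 * Real.log T ^ 3)) atTop (𝓝 (5 / 2)) := by
  have h := main (K := 3) (d := 2) (by norm_num) (by norm_num) (by norm_num) ap_gen
    (a := fun _ => 1) (b := fun _ => 2) (fun _ => by norm_num)
    (fun x hx j => by
      have h0 := hx.1 0
      have h1 := hx.1 1
      simp only [] at h0 h1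
      rw [Fin.sum_univ_two]
      fin_cases j <;> simp [AP] <;> linarith)
  rw [rel_tsum, ap_cst] at h
  have e0 : (5 / 2 : ℝ) * ∏ _i : Fin 2, ((2 : ℝ) - 1) = 5 / 2 := by norm_num
  rw [e0] at h
  refine h.congr' ?_
  filter_upwards [eventually_gt_atTop (0 : ℝ)] with T hT
  congr 1
  set g : ℝ × ℝ → ℝ := fun z => ‖riemannZeta (1 / 2 + Complex.I * (z.1 : ℂ))‖ ^ 2 *
    ‖riemannZeta (1 / 2 + Complex.I * ((z.1 + z.2 : ℝ) : ℂ))‖ ^ 2 *
        ‖riemannZeta (1 / 2 + Complex.I * ((z.1 + 2 * z.2 : ℝ) : ℂ))‖ ^ 2 with hg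
  have hgc : Continuous g := by
    have k1 : Continuous fun z : ℝ × ℝ => ff z.1 := ff_cont'.comp continuous_fst
    have k2 : Continuous fun z : ℝ × ℝ => ff (z.1 + z.2) := ff_cont'.comp (by fun_prop)
    have k3 : Continuous fun z : ℝ × ℝ => ff (z.1 + 2 * z.2) := ff_cont'.comp (by fun_prop)
    exact (k1.mul k2).mul k3
  have e1 : ∀ x : Fin 2 → ℝ, ∏ j, ‖riemannZeta (1 / 2 + Complex.I * ((∑ i, AP j i * x i : ℝ) : ℂ))‖ ^ 2 =
      g (MeasurableEquiv.finTwoArrow x) := by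
    intro x
    rw [Fin.prod_univ_three]
    simp only [Fin.sum_univ_two]
    rw [hg]
    simp [AP, MeasurableEquiv.finTwoArrow]
  simp_rw [e1]
  have e2 : Set.Icc (fun _ : Fin 2 => T * 1) (fun _ : Fin 2 => T * 2) =
      MeasurableEquiv.finTwoArrow ⁻¹' (Set.Icc T (2 * T) ×ˢ Set.Icc T (2 * T)) := by
    ext x
    simp only [Set.mem_preimage, Set.mem_prod, Set.mem_Icc, MeasurableEquiv.finTwoArrow, Pi.le_def, Fin.forall_fin_two]
    simp
    constructor
    · rintro ⟨⟨h1, h2⟩, h3, h4⟩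
      exact ⟨⟨h1, by linarith⟩, h2, by linarith⟩
    · rintro ⟨⟨h1, h2⟩, h3, h4⟩
      exact ⟨⟨h1, h3⟩, by linarith, by linarith⟩
  rw [e2, (volume_preserving_finTwoArrow ℝ).setIntegral_preimage_emb MeasurableEquiv.finTwoArrow.measurableEmbedding g,
    Measure.volume_eq_prod, setIntegral_prod]
  · rw [intervalIntegral.integral_of_le (by linarith), integral_Icc_eq_integral_Ioc]
    refine setIntegral_congr_fun measurableSet_Ioc fun t _ => ?_
    rw [intervalIntegral.integral_of_le (by linarith), integral_Icc_eq_integral_Ioc]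
  · exact hgc.continuousOn.integrableOn_compact (isCompact_Icc.prod isCompact_Icc)

end Pool.Agent.K1H51.ZL
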