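import Pool.Agent.K1H51.ZL.Box

set_option autoImplicit false

/-!
Splitting a box into cells.
-/

namespace Pool.Agent.K1H51.ZL

open Finset MeasureTheory
open Complex (I)

/-- the corner of a cell -/
def crn {d N : ℕ} (y s : Fin d → ℝ) (k : Fin d → Fin N) : Fin d → ℝ := fun i => y i + (k i : ℕ) * s i

/-- the big box -/
def big {d : ℕ} (N : ℕ) (s : Fin d → ℝ) : Fin d → ℝ := fun i => N * s i

lemma crn_sub {d N : ℕ} {y s : Fin d → ℝ} (hs : ∀ i, 0 < s i) (k : Fin d → Fin N) :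
    bxc (crn y s k) s ⊆ bxc y (big N s) := by
  intro x hx i hi
  have h := hx i hi
  unfold crn at h
  unfold big
  have h1 : (0 : ℝ) ≤ ((k i : ℕ) : ℝ) := Nat.cast_nonneg _
  have h2 : ((k i : ℕ) : ℝ) + 1 ≤ N := by exact_mod_cast (k i).2
  have h3 := hs i
  constructor
  · have := h.1
    nlinarith
  · have := h.2
    nlinarith

lemma part_set {d N : ℕ} {y s : Fin d → ℝ} (hs : ∀ i, 0 < s i) :
    bxc y (big N s) = ⋃ k : Fin d → Fin N, bxc (crn y s k) s := by
  apply Set.Subset.antisymm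
  · intro x hx
    have h1 : ∀ i, ∃ n : Fin N, x i ∈ Set.Ioc (y i + (n : ℕ) * s i) (y i + (n : ℕ) * s i + s i) := by
      intro i
      have h := hx i (Set.mem_univ _)
      unfold big at h
      have h3 := hs i
      set z : ℝ := (x i - y i) / s i with hz
      have hz1 : 0 < z := div_pos (by linarith [h.1]) h3
      have hz2 : z ≤ N := by rw [hz, div_le_iff₀ h3]; linarith [h.2]
      have hc1 : 1 ≤ ⌈z⌉₊ := Nat.one_le_iff_ne_zero.2 (by
        intro h0
        rw [Nat.ceil_eq_zero] at h0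
        linarith)
      have hc2 : ⌈z⌉₊ ≤ N := Nat.ceil_le.2 hz2
      have hc3 : z ≤ ⌈z⌉₊ := Nat.le_ceil z
      have hc4 : (⌈z⌉₊ : ℝ) < z + 1 := Nat.ceil_lt_add_one hz1.le
      refine ⟨⟨⌈z⌉₊ - 1, by omega⟩, ?_⟩
      have e : (((⟨⌈z⌉₊ - 1, by omega⟩ : Fin N) : ℕ) : ℝ) = (⌈z⌉₊ : ℝ) - 1 := by
        simp only []
        rw [Nat.cast_sub hc1, Nat.cast_one]
      have hxz : x i = y i + z * s i := by rw [hz]; field_simp; ring
      rw [e, hxz]
      constructor
      · nlinarith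
      · nlinarith
    choose k hk using h1
    exact Set.mem_iUnion.2 ⟨k, fun i _ => hk i⟩
  · exact Set.iUnion_subset fun k => crn_sub hs k

lemma part_disj {d N : ℕ} {y s : Fin d → ℝ} (hs : ∀ i, 0 < s i) :
    Pairwise (Function.onFun Disjoint fun k : Fin d → Fin N => bxc (crn y s k) s) := by
  intro k l hkl
  rw [Function.onFun, Set.disjoint_left]
  intro x hx hx'
  apply hkl
  funext i
  have h1 := hx i (Set.mem_univ _)
  have h2 := hx' i (Set.mem_univ _)
  unfold crn at h1 h2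
  have h3 := hs i
  have a1 : ((k i : ℕ) : ℝ) < (l i : ℕ) + 1 := by
    have : ((k i : ℕ) : ℝ) * s i < ((l i : ℕ) + 1) * s i := by linarith [h1.1, h2.2]
    exact lt_of_mul_lt_mul_right this h3.le
  have a2 : ((l i : ℕ) : ℝ) < (k i : ℕ) + 1 := by
    have : ((l i : ℕ) : ℝ) * s i < ((k i : ℕ) + 1) * s i := by linarith [h2.1, h1.2]
    exact lt_of_mul_lt_mul_right this h3.le
  have b1 : (k i : ℕ) < (l i : ℕ) + 1 := by exact_mod_cast a1
  have b2 : (l i : ℕ) < (k i : ℕ) + 1 := by exact_mod_cast a2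
  exact Fin.ext (by omega)

lemma bxc_int {d : ℕ} {y s : Fin d → ℝ} {E : Type*} [NormedAddCommGroup E]
    {f : (Fin d → ℝ) → E} (hf : Continuous f) :
    IntegrableOn f (bxc y s) := by
  have h1 : bxc y s ⊆ Set.Icc y (fun i => y i + s i) := by
    intro x hx
    exact ⟨fun i => (hx i (Set.mem_univ _)).1.le, fun i => (hx i (Set.mem_univ _)).2⟩
  exact (hf.continuousOn.integrableOn_compact isCompact_Icc).mono_set h1

lemma part {d N : ℕ} {y s : Fin d → ℝ} (hs : ∀ i, 0 < s i) {f : (Fin d → ℝ) → ℂ} (hf : Continuous f) :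
    ∫ x in bxc y (big N s), f x = ∑ k : Fin d → Fin N, ∫ x in bxc (crn y s k) s, f x := by
  rw [part_set hs]
  exact integral_iUnion_fintype (fun k => bxc_meas _ _) (part_disj hs) (fun k => bxc_int hf)

lemma partR {d N : ℕ} {y s : Fin d → ℝ} (hs : ∀ i, 0 < s i) {f : (Fin d → ℝ) → ℝ} (hf : Continuous f) :
    ∫ x in bxc y (big N s), f x = ∑ k : Fin d → Fin N, ∫ x in bxc (crn y s k) s, f x := by
  rw [part_set hs]
  exact integral_iUnion_fintype (fun k => bxc_meas _ _) (part_disj hs) (fun k => bxc_int hf)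

/-- comparison of products -/
lemma prod_diff {K : ℕ} (a b : Fin K → ℂ) (F E : Fin K → ℝ) (ha : ∀ j, ‖a j‖ ≤ F j) (hb : ∀ j, ‖b j‖ ≤ F j)
    (hE : ∀ j, ‖a j - b j‖ ≤ E j) (S : Finset (Fin K)) :
    ‖∏ j ∈ S, a j - ∏ j ∈ S, b j‖ ≤ ∑ j₀ ∈ S, ∏ j ∈ S, (if j = j₀ then E j else F j) := by
  classical
  have hF0 : ∀ j, 0 ≤ F j := fun j => (norm_nonneg _).trans (ha j)
  have hE0 : ∀ j, 0 ≤ E j := fun j => (norm_nonneg _).trans (hE j)
  induction S using Finset.induction_on with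
  | empty => simp
  | insert i S hi ih =>
    rw [prod_insert hi, prod_insert hi, sum_insert hi]
    have e : a i * ∏ j ∈ S, a j - b i * ∏ j ∈ S, b j =
        (a i - b i) * ∏ j ∈ S, a j + b i * (∏ j ∈ S, a j - ∏ j ∈ S, b j) := by ring
    rw [e]
    refine (norm_add_le _ _).trans (add_le_add ?_ ?_)
    · rw [norm_mul, prod_insert hi, if_pos rfl]
      apply mul_le_mul (hE i) _ (norm_nonneg _) (hE0 i)
      rw [norm_prod]
      apply prod_le_prod (fun j _ => norm_nonneg _)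
      intro j hj
      have hne : j ≠ i := fun h => hi (by rw [← h]; exact hj)
      rw [if_neg hne]
      exact ha j
    · rw [norm_mul]
      calc ‖b i‖ * ‖∏ j ∈ S, a j - ∏ j ∈ S, b j‖
          ≤ F i * ∑ j₀ ∈ S, ∏ j ∈ S, (if j = j₀ then E j else F j) :=
            mul_le_mul (hb i) ih (norm_nonneg _) (hF0 i)
        _ = ∑ j₀ ∈ S, ∏ j ∈ insert i S, (if j = j₀ then E j else F j) := by
            rw [mul_sum]
            refine sum_congr rfl fun j₀ hj₀ => ?_
            have hne : i ≠ j₀ := fun h => hi (by rw [h]; exact hj₀)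
            rw [prod_insert hi, if_neg hne]

end Pool.Agent.K1H51.ZL
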