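import Pool.Agent.K1H51.ZL.Main

set_option autoImplicit false

/-!
The final form: relations among positive rationals.
-/

namespace Pool.Agent.K1H51.ZL

open Finset MeasureTheory Filter Topology
open Pool.Agent.Y969.GP (ff ht lam FR cr PX)

/-- the multiplicative relations between positive rationals attached to the linear forms -/
def Rel {K d : ℕ} (A : Fin K → Fin d → ℝ) : Set (Fin K → ℚ) :=
  {q | (∀ j, 0 < q j) ∧ ∀ i, ∑ j, A j i * Real.log (q j : ℝ) = 0}

/-- the weight of a tuple of positive rationals -/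
noncomputable def wr {K : ℕ} (q : Fin K → ℚ) : ℝ := ∏ j, (√(((q j).num : ℝ) * ((q j).den : ℝ)))⁻¹

/-- the pairs attached to a tuple of positive rationals -/
def toP {K : ℕ} (q : Fin K → ℚ) : Fin K → ℕ × ℕ := fun j => ((q j).den, (q j).num.toNat)

lemma num_cast {r : ℚ} (hr : 0 < r) : ((r.num.toNat : ℕ) : ℝ) = (r.num : ℝ) := by
  have h : 0 ≤ r.num := (Rat.num_pos.2 hr).le
  have : ((r.num.toNat : ℕ) : ℤ) = r.num := Int.toNat_of_nonneg h
  exact_mod_cast this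

lemma lam_toP {K : ℕ} {q : Fin K → ℚ} (hq : ∀ j, 0 < q j) (j : Fin K) : lam (toP q j) = Real.log (q j : ℝ) := by
  unfold lam toP
  simp only []
  rw [num_cast (hq j)]
  have h1 : (0 : ℝ) < (q j).num := by exact_mod_cast Rat.num_pos.2 (hq j)
  have h2 : (0 : ℝ) < (q j).den := by exact_mod_cast (q j).den_pos
  rw [← Real.log_div h1.ne' h2.ne']
  congr 1
  have := Rat.num_div_den (q j)
  exact_mod_cast this

lemma wq_toP {K : ℕ} {q : Fin K → ℚ} (hq : ∀ j, 0 < q j) : wq (toP q) = wr q := by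
  unfold wq wr
  refine prod_congr rfl fun j _ => ?_
  unfold ht toP
  simp only []
  rw [num_cast (hq j), mul_comm]

lemma mq_toP {K d : ℕ} (A : Fin K → Fin d → ℝ) {q : Fin K → ℚ} (hq : ∀ j, 0 < q j) (i : Fin d) :
    mq A (toP q) i = ∑ j, A j i * Real.log (q j : ℝ) := by
  unfold mq mu
  refine sum_congr rfl fun j _ => ?_
  change A j i * lam (toP q j) = _
  rw [lam_toP hq]

lemma toP_mem {K d : ℕ} {A : Fin K → Fin d → ℝ} {q : Fin K → ℚ} (hq : q ∈ Rel A) : toP q ∈ Res A := by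
  refine ⟨fun j => ⟨(q j).den_pos, ?_, ?_⟩, fun i => ?_⟩
  · have := Rat.num_pos.2 (hq.1 j)
    change 1 ≤ (q j).num.toNat
    omega
  · change Nat.Coprime (q j).den (q j).num.toNat
    have h1 := (q j).reduced
    have h2 : (q j).num.natAbs = (q j).num.toNat := by
      have := Rat.num_pos.2 (hq.1 j)
      omega
    rw [h2] at h1
    exact h1.symm
  · rw [mq_toP A hq.1]
    exact hq.2 i

/-- relations as pairs -/
def rmap {K d : ℕ} (A : Fin K → Fin d → ℝ) (q : Rel A) : Res A := ⟨toP q.1, toP_mem q.2⟩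

lemma rmap_bij {K d : ℕ} (A : Fin K → Fin d → ℝ) : Function.Bijective (rmap A) := by
  constructor
  · rintro ⟨q, hq⟩ ⟨r, hr⟩ h
    have h1 : toP q = toP r := congrArg Subtype.val h
    apply Subtype.ext
    funext j
    have h2 : ((q j).den, (q j).num.toNat) = ((r j).den, (r j).num.toNat) := congrFun h1 j
    rw [Prod.mk.injEq] at h2
    have h3 := Rat.num_pos.2 (hq.1 j)
    have h4 := Rat.num_pos.2 (hr.1 j)
    have h5 : (q j).num = (r j).num := by
      have h6 := h2.2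
      omega
    exact Rat.ext h5 h2.1
  · rintro ⟨p, hp⟩
    have key : ∀ j, ((((p j).2 : ℤ) : ℚ) / (((p j).1 : ℤ) : ℚ)).num = ((p j).2 : ℤ) ∧
        ((((((p j).2 : ℤ) : ℚ) / (((p j).1 : ℤ) : ℚ)).den : ℕ) : ℤ) = ((p j).1 : ℤ) := by
      intro j
      obtain ⟨h1, h2, h3⟩ := hp.1 j
      have h4 : (0 : ℤ) < ((p j).1 : ℤ) := by exact_mod_cast h1
      have h5 : Nat.Coprime ((p j).2 : ℤ).natAbs ((p j).1 : ℤ).natAbs := by
        rw [Int.natAbs_natCast, Int.natAbs_natCast]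
        exact h3.symm
      exact ⟨Rat.num_div_eq_of_coprime h4 h5, Rat.den_div_eq_of_coprime h4 h5⟩
    set q : Fin K → ℚ := fun j => (((p j).2 : ℤ) : ℚ) / (((p j).1 : ℤ) : ℚ) with hq
    have hq0 : ∀ j, 0 < q j := by
      intro j
      obtain ⟨h1, h2, h3⟩ := hp.1 j
      apply div_pos
      · exact_mod_cast h2
      · exact_mod_cast h1
    have hT : toP q = p := by
      funext j
      obtain ⟨k1, k2⟩ := key j
      unfold toP
      apply Prod.ext
      · change (q j).den = (p j).1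
        have : (((q j).den : ℕ) : ℤ) = ((p j).1 : ℤ) := k2
        exact_mod_cast this
      · change (q j).num.toNat = (p j).2
        have : (q j).num = ((p j).2 : ℤ) := k1
        rw [this]
        simp
    refine ⟨⟨q, hq0, fun i => ?_⟩, Subtype.ext hT⟩
    rw [← mq_toP A hq0, hT]
    exact hp.2 i

lemma wr_nonneg {K : ℕ} (q : Fin K → ℚ) : 0 ≤ wr q := prod_nonneg fun _ _ => inv_nonneg.2 (Real.sqrt_nonneg _)

lemma rel_summable {K d : ℕ} (hd : 1 ≤ d) (hK : d ≤ K) (hK2 : K + 1 ≤ 2 * d) {A : Fin K → Fin d → ℝ}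
    (hA : GenPos A) : Summable (fun q : Rel A => wr (q : Fin K → ℚ)) := by
  have h := (Equiv.ofBijective _ (rmap_bij A)).summable_iff.2 (res_summable hd hK hK2 hA)
  refine h.congr fun q => ?_
  exact wq_toP q.2.1

lemma rel_tsum {K d : ℕ} (A : Fin K → Fin d → ℝ) : ∑' q : Rel A, wr (q : Fin K → ℚ) = Cst A := by
  unfold Cst
  rw [← (Equiv.ofBijective _ (rmap_bij A)).tsum_eq]
  refine tsum_congr fun q => ?_
  exact (wq_toP q.2.1).symm

lemma rel_one {K d : ℕ} (hd : 1 ≤ d) (hK : d ≤ K) (hK2 : K + 1 ≤ 2 * d) {A : Fin K → Fin d → ℝ}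
    (hA : GenPos A) : 1 ≤ ∑' q : Rel A, wr (q : Fin K → ℚ) := by
  have hs := rel_summable hd hK hK2 hA
  have h1 : (fun _ => 1 : Fin K → ℚ) ∈ Rel A := by
    refine ⟨fun j => one_pos, fun i => ?_⟩
    simp
  have h2 : wr (fun _ => 1 : Fin K → ℚ) = 1 := by
    unfold wr
    simp
  calc (1 : ℝ) = wr ((⟨fun _ => 1, h1⟩ : Rel A) : Fin K → ℚ) := h2.symm
    _ ≤ _ := hs.le_tsum (⟨fun _ => 1, h1⟩ : Rel A) fun q _ => wr_nonneg _

set_option maxHeartbeats 4000000 in
/-- the main theorem -/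
theorem main {K d : ℕ} (hd : 1 ≤ d) (hK : d ≤ K) (hK2 : K + 1 ≤ 2 * d) {A : Fin K → Fin d → ℝ}
    (hA : GenPos A) {a b : Fin d → ℝ} (hab : ∀ i, a i < b i)
    (hpos : ∀ x ∈ Set.Icc a b, ∀ j, 0 < ∑ i, A j i * x i) :
    Tendsto (fun T : ℝ => (∫ x in Set.Icc (fun i => T * a i) (fun i => T * b i),
      ∏ j, ‖riemannZeta (1 / 2 + Complex.I * ((∑ i, A j i * x i : ℝ) : ℂ))‖ ^ 2) / (T ^ d * Real.log T ^ K)) atTop
      (𝓝 ((∑' q : Rel A, wr (q : Fin K → ℚ)) * ∏ i, (b i - a i))) := by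
  have hne : (Set.Icc a b).Nonempty := ⟨a, le_rfl, fun i => (hab i).le⟩
  have hmin : ∀ j : Fin K, ∃ c₁ c₂ : ℝ, 0 < c₁ ∧ ∀ x ∈ Set.Icc a b, c₁ ≤ Lf A j x ∧ Lf A j x ≤ c₂ := by
    intro j
    obtain ⟨x1, hx1, h1⟩ := isCompact_Icc.exists_isMinOn hne (Lf_cont A j).continuousOn
    obtain ⟨x2, hx2, h2⟩ := isCompact_Icc.exists_isMaxOn hne (Lf_cont A j).continuousOn
    exact ⟨Lf A j x1, Lf A j x2, hpos x1 hx1 j, fun x hx => ⟨h1 hx, h2 hx⟩⟩
  choose c₁ c₂ h0 h12 using hmin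
  have hKne : (univ : Finset (Fin K)).Nonempty := ⟨⟨0, by omega⟩, mem_univ _⟩
  obtain ⟨j0, -, hj0⟩ := exists_min_image univ c₁ hKne
  obtain ⟨j1, -, hj1⟩ := exists_max_image univ c₂ hKne
  have hL : ∀ x ∈ Set.Icc a b, ∀ j, Lf A j x ∈ Set.Icc (2 * (c₁ j0 / 2)) (max 1 (c₂ j1)) := by
    intro x hx j
    constructor
    · have := hj0 j (mem_univ _)
      have := (h12 j x hx).1
      linarith
    · exact ((h12 j x hx).2.trans (hj1 j (mem_univ _))).trans (le_max_right _ _)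
  have hcc : 2 * (c₁ j0 / 2) ≤ max 1 (c₂ j1) := (hL _ hne.some_mem j0).1.trans (hL _ hne.some_mem j0).2
  have hlim := limit hd hK hK2 hA hab (by linarith [h0 j0] : 0 < c₁ j0 / 2) hcc (le_max_left _ _) hL
  rw [rel_tsum]
  refine hlim.congr fun T => ?_
  congr 1
  have e1 : bxc (fun i => T * a i) (fun i => T * (b i - a i)) = Set.pi Set.univ fun i => Set.Ioc (T * a i) (T * b i) := by
    unfold bxc
    congr 1
    funext i
    congr 1
    ring
  rw [e1, volume_pi, setIntegral_congr_set Measure.univ_pi_Ioc_ae_eq_Icc]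
  rfl

end Pool.Agent.K1H51.ZL
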